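import Pool.Agent.Helper8.Bz.L2
import Mathlib.NumberTheory.Transcendental.Liouville.LiouvilleWith

set_option autoImplicit false

/-!
# Simultaneous approximation of the weights in dimension two and the irrationality exponent
-/

namespace Pool.Agent.Helper8.Bz

open Filter Topology

/-- if the span has dimension two, then every weight is a rational combination of two weights with
irrational ratio -/
lemma comb {r : ℕ} {w : Fin r → ℝ} {i j : Fin r} (hi : w i ≠ 0) (hirr : Irrational (w j / w i))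
    (hd : Module.finrank ℚ (Submodule.span ℚ (Set.range w)) = 2) :
    ∀ l, ∃ α β : ℚ, w l = α * w i + β * w j := by
  have hli : LinearIndependent ℚ ![w i, w j] := by
    rw [LinearIndependent.pair_iff]
    intro s t hst
    have hst' : (s : ℝ) * w i + (t : ℝ) * w j = 0 := by
      simpa [Rat.smul_def] using hst
    by_cases ht : t = 0
    · subst ht
      simp only [Rat.cast_zero, zero_mul, add_zero, mul_eq_zero, Rat.cast_eq_zero] at hst'
      rcases hst' with h | h
      · exact ⟨h, rfl⟩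
      · exact absurd h hi
    · exfalso
      apply hirr
      refine ⟨-s / t, ?_⟩
      have ht' : (t : ℝ) ≠ 0 := by exact_mod_cast ht
      push_cast
      rw [div_eq_div_iff ht' hi]
      linarith
  have hfin : FiniteDimensional ℚ (Submodule.span ℚ (Set.range w)) :=
    FiniteDimensional.span_of_finite ℚ (Set.finite_range w)
  have hle : Submodule.span ℚ (Set.range ![w i, w j]) ≤ Submodule.span ℚ (Set.range w) := by
    rw [Submodule.span_le]
    rintro _ ⟨k, rfl⟩
    fin_cases k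
    · exact Submodule.subset_span ⟨i, rfl⟩
    · exact Submodule.subset_span ⟨j, rfl⟩
  have heq := Submodule.eq_of_le_of_finrank_eq hle (by
    rw [hd, finrank_span_eq_card hli]
    simp)
  intro l
  have hl : w l ∈ Submodule.span ℚ (Set.range ![w i, w j]) := by
    rw [heq]
    exact Submodule.subset_span ⟨l, rfl⟩
  have hr2 : Set.range ![w i, w j] = {w i, w j} := by
    ext x
    simp only [Set.mem_range, Fin.exists_fin_two, Matrix.cons_val_zero, Matrix.cons_val_one,
      Set.mem_insert_iff, Set.mem_singleton_iff]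
    constructor
    · rintro (h | h)
      · exact Or.inl h.symm
      · exact Or.inr h.symm
    · rintro (h | h)
      · exact Or.inl h.symm
      · exact Or.inr h.symm
  rw [hr2, Submodule.mem_span_pair] at hl
  obtain ⟨α, β, h⟩ := hl
  refine ⟨α, β, ?_⟩
  rw [← h]
  simp [Rat.smul_def]

/-- a common denominator -/
lemma comb_int {r : ℕ} {w : Fin r → ℝ} {i j : Fin r} 
    (h : ∀ l, ∃ α β : ℚ, w l = α * w i + β * w j) :
    ∃ (Q : ℕ) (α β : Fin r → ℤ), 0 < Q ∧ ∀ l, (Q : ℝ) * w l = α l * w i + β l * w j := by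
  choose α β hαβ using h
  set Q : ℕ := ∏ l, ((α l).den * (β l).den) with hQ
  have hQ0 : 0 < Q := Finset.prod_pos fun l _ => Nat.mul_pos (α l).den_pos (β l).den_pos
  have hA : ∀ l, ∃ z : ℤ, (Q : ℚ) * α l = z := by
    intro l
    have h1 : (α l).den ∣ Q := (Dvd.intro _ rfl).trans
      (Finset.dvd_prod_of_mem (fun l => (α l).den * (β l).den) (Finset.mem_univ l))
    obtain ⟨k, hk⟩ := h1
    refine ⟨k * (α l).num, ?_⟩
    rw [hk]
    push_cast
    have h2 : ((α l).den : ℚ) * α l = (α l).num := by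
      rw [mul_comm]; exact Rat.mul_den_eq_num (α l)
    calc ((α l).den : ℚ) * k * α l = k * (((α l).den : ℚ) * α l) := by ring
      _ = _ := by rw [h2]
  have hB : ∀ l, ∃ z : ℤ, (Q : ℚ) * β l = z := by
    intro l
    have h1 : (β l).den ∣ Q := (Dvd.intro_left _ rfl).trans
      (Finset.dvd_prod_of_mem (fun l => (α l).den * (β l).den) (Finset.mem_univ l))
    obtain ⟨k, hk⟩ := h1
    refine ⟨k * (β l).num, ?_⟩
    rw [hk]
    push_cast
    have h2 : ((β l).den : ℚ) * β l = (β l).num := by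
      rw [mul_comm]; exact Rat.mul_den_eq_num (β l)
    calc ((β l).den : ℚ) * k * β l = k * (((β l).den : ℚ) * β l) := by ring
      _ = _ := by rw [h2]
  choose A hA using hA
  choose B hB using hB
  refine ⟨Q, A, B, hQ0, fun l => ?_⟩
  have h1 : ((Q : ℚ) : ℝ) * (α l : ℝ) = ((A l : ℤ) : ℝ) := by exact_mod_cast congrArg (fun q : ℚ => (q : ℝ)) (hA l)
  have h2 : ((Q : ℚ) : ℝ) * (β l : ℝ) = ((B l : ℤ) : ℝ) := by exact_mod_cast congrArg (fun q : ℚ => (q : ℝ)) (hB l)
  have h3 : ((Q : ℚ) : ℝ) = (Q : ℝ) := by push_cast; rfl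
  rw [h3] at h1 h2
  rw [hαβ l, mul_add, ← mul_assoc, ← mul_assoc, h1, h2]

/-- from approximations of the weights to approximations of a ratio -/
theorem liouvilleWith_of_appr {r : ℕ} {w : Fin r → ℝ} (hw : ∀ l, 0 < w l) {i j : Fin r}
    (hirr : Irrational (w j / w i)) {τ : ℝ} (hτ : 0 < τ) (hA : Appr w τ) :
    LiouvilleWith (1 + τ) (w j / w i) := by
  have hwi := hw i
  have hwj := hw j
  set C : ℝ := (w i + w j) / w i * (2 * w i) ^ τ with hC
  have hC0 : 0 < C := by positivity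
  refine ⟨2 * C, ?_⟩
  rw [Filter.frequently_atTop]
  intro n₀
  -- choose x large
  obtain ⟨x, hx1, hx2, hx3⟩ := hA (max ((n₀ + 2) / w i) (2 / w i))
  have hx0 : 0 < x := by linarith
  obtain ⟨Ni, hNi⟩ := hx3 i
  obtain ⟨Nj, hNj⟩ := hx3 j
  have hle1 : x ^ (-τ) ≤ 1 := Real.rpow_le_one_of_one_le_of_nonpos hx2 (by linarith)
  have hy0 : 0 < x ^ (-τ) := Real.rpow_pos_of_pos hx0 _
  have hxi : (n₀ : ℝ) + 2 ≤ x * w i := by
    have := (le_max_left _ _).trans hx1
    rwa [div_le_iff₀ hwi] at this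
  have hxi2 : 2 ≤ x * w i := by
    have := (le_max_right _ _).trans hx1
    rwa [div_le_iff₀ hwi] at this
  have hNi' := abs_le.1 hNi
  have hNiR : (n₀ : ℝ) + 1 ≤ Ni := by linarith [hNi'.2]
  have hNi1 : x * w i / 2 ≤ Ni := by linarith [hNi'.2]
  have hNi0 : (0 : ℝ) < Ni := by linarith [hNi'.2]
  have hNipos : 0 < Ni := by exact_mod_cast hNi0
  obtain ⟨n, hn⟩ : ∃ n : ℕ, (n : ℤ) = Ni := ⟨Ni.toNat, Int.toNat_of_nonneg hNipos.le⟩
  have hnR : (n : ℝ) = Ni := by exact_mod_cast congrArg (fun z : ℤ => (z : ℝ)) hn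
  refine ⟨n, ?_, Nj, ?_, ?_⟩
  · have : (n₀ : ℝ) ≤ n := by rw [hnR]; linarith
    exact_mod_cast this
  · intro h
    apply hirr
    refine ⟨(Nj : ℚ) / (n : ℚ), ?_⟩
    rw [h]
    push_cast
    rfl
  · have hn0 : (0 : ℝ) < n := by rw [hnR]; exact hNi0
    have e1 : w j / w i - (Nj : ℝ) / n = (w j * (n - x * w i) - w i * (Nj - x * w j)) / (w i * n) := by
      field_simp
      ring
    have e2 : |w j * (n - x * w i) - w i * (Nj - x * w j)| ≤ (w i + w j) * x ^ (-τ) := by
      have h1 : |w j * (n - x * w i)| ≤ w j * x ^ (-τ) := by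
        rw [abs_mul, abs_of_pos hwj, abs_sub_comm, hnR]
        gcongr
      have h2 : |w i * (Nj - x * w j)| ≤ w i * x ^ (-τ) := by
        rw [abs_mul, abs_of_pos hwi, abs_sub_comm]
        gcongr
      refine (abs_sub _ _).trans ?_
      linarith
    have e3 : x ^ (-τ) ≤ (2 * w i) ^ τ / (n : ℝ) ^ τ := by
      have h1 : (n : ℝ) ≤ 2 * w i * x := by rw [hnR]; linarith [hNi'.1]
      have h2 : (n : ℝ) ^ τ ≤ (2 * w i) ^ τ * x ^ τ := by
        rw [← Real.mul_rpow (by positivity) hx0.le]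
        exact Real.rpow_le_rpow hn0.le h1 hτ.le
      have h3 : 0 < x ^ τ := by positivity
      have h4 : 0 < (n : ℝ) ^ τ := by positivity
      rw [Real.rpow_neg hx0.le, le_div_iff₀ h4, inv_mul_le_iff₀ h3]
      linarith
    rw [e1, abs_div, abs_of_pos (by positivity : 0 < w i * n)]
    have h4 : 0 < (n : ℝ) ^ τ := by positivity
    have h5 : (n : ℝ) ^ (1 + τ) = n * (n : ℝ) ^ τ := by rw [Real.rpow_add hn0, Real.rpow_one]
    calc |w j * (n - x * w i) - w i * (Nj - x * w j)| / (w i * n)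
        ≤ ((w i + w j) * ((2 * w i) ^ τ / (n : ℝ) ^ τ)) / (w i * n) := by
          gcongr
          exact e2.trans (by gcongr)
      _ = C / (n : ℝ) ^ (1 + τ) := by
          rw [h5, hC]
          field_simp
      _ < 2 * C / (n : ℝ) ^ (1 + τ) := by
          gcongr
          linarith

/-- from approximations of a ratio to approximations of the weights -/
theorem appr_of_liouvilleWith {r : ℕ} {w : Fin r → ℝ} (hw : ∀ l, 0 < w l) {i j : Fin r}
    (hcomb : ∀ l, ∃ α β : ℚ, w l = α * w i + β * w j) {p τ : ℝ} (hτ : 0 < τ) (hp : 1 + τ < p)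
    (hL : LiouvilleWith p (w j / w i)) : Appr w τ := by
  have hwi := hw i
  obtain ⟨Q, α, β, hQ, hcomb⟩ := comb_int hcomb
  have hQ0 : (0 : ℝ) < Q := by exact_mod_cast hQ
  obtain ⟨C, hC⟩ := hL
  set K : ℝ := (∑ l, |(β l : ℝ)|) * |C| * ((Q : ℝ) / w i) ^ τ with hK
  have hlim : Tendsto (fun n : ℕ => (n : ℝ) ^ (p - 1 - τ)) atTop atTop :=
    (tendsto_rpow_atTop (by linarith)).comp tendsto_natCast_atTop_atTop
  intro X
  have hev : ∀ᶠ n : ℕ in atTop, K ≤ (n : ℝ) ^ (p - 1 - τ) ∧ max X 1 * w i / Q ≤ n ∧ 1 ≤ n :=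
    (hlim.eventually_ge_atTop K).and
      ((tendsto_natCast_atTop_atTop.eventually_ge_atTop _).and (eventually_ge_atTop 1))
  obtain ⟨n, ⟨m, -, hm⟩, hnK, hnX, hn1⟩ := (hC.and_eventually hev).exists
  have hn0 : (0 : ℝ) < n := by exact_mod_cast hn1
  set x : ℝ := Q * n / w i with hx
  have hx0 : 0 < x := by positivity
  have hXx : max X 1 ≤ x := by
    rw [hx, le_div_iff₀ hwi]
    rw [div_le_iff₀ hQ0] at hnX
    linarith
  refine ⟨x, (le_max_left _ _).trans hXx, (le_max_right _ _).trans hXx, fun l => ?_⟩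
  refine ⟨α l * n + β l * m, ?_⟩
  have e1 : x * w l - ((α l * n + β l * m : ℤ) : ℝ) = β l * (n * (w j / w i - m / n)) := by
    have h1 := hcomb l
    have h2 : x * w l = n / w i * (Q * w l) := by rw [hx]; ring
    rw [h2, h1]
    push_cast
    field_simp
    ring
  rw [e1, abs_mul, abs_mul, abs_of_pos hn0]
  have h1 : |w j / w i - m / n| ≤ |C| / (n : ℝ) ^ p :=
    hm.le.trans (by gcongr; exact le_abs_self C)
  have h2 : |(β l : ℝ)| ≤ ∑ l, |(β l : ℝ)| :=
    Finset.single_le_sum (f := fun l => |(β l : ℝ)|) (fun l _ => abs_nonneg _) (Finset.mem_univ l)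
  have h3 : x ^ (-τ) = (((Q : ℝ) / w i) ^ τ)⁻¹ * ((n : ℝ) ^ τ)⁻¹ := by
    rw [Real.rpow_neg hx0.le, ← mul_inv, ← Real.mul_rpow (by positivity) hn0.le]
    congr 2
    rw [hx]
    ring
  have h4 : (n : ℝ) ^ p = n * (n : ℝ) ^ τ * (n : ℝ) ^ (p - 1 - τ) := by
    have : p = 1 + τ + (p - 1 - τ) := by ring
    conv_lhs => rw [this]
    rw [Real.rpow_add hn0, Real.rpow_add hn0, Real.rpow_one]
  have hq : 0 < ((Q : ℝ) / w i) ^ τ := by positivity
  have hnτ : 0 < (n : ℝ) ^ τ := by positivity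
  have hnp : 0 < (n : ℝ) ^ (p - 1 - τ) := by positivity
  calc |(β l : ℝ)| * (n * |w j / w i - m / n|)
      ≤ (∑ l, |(β l : ℝ)|) * (n * (|C| / (n : ℝ) ^ p)) := by gcongr
    _ = (∑ l, |(β l : ℝ)|) * |C| / ((n : ℝ) ^ τ * (n : ℝ) ^ (p - 1 - τ)) := by
        rw [h4]
        field_simp
    _ ≤ _ := by
        rw [h3, div_le_iff₀ (by positivity)]
        calc (∑ l, |(β l : ℝ)|) * |C| = K / ((Q : ℝ) / w i) ^ τ := by
              rw [hK]; field_simp
          _ ≤ (n : ℝ) ^ (p - 1 - τ) / ((Q : ℝ) / w i) ^ τ := by gcongr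
          _ = _ := by field_simp

/-- Liouville's theorem: the irrationality exponent of an algebraic number is at most its degree -/
theorem alg_not_liouvilleWith {θ : ℝ} (hθ : Irrational θ) {f : Polynomial ℤ} (f0 : f ≠ 0)
    (hroot : Polynomial.aeval θ f = 0) {p : ℝ} (hp : (f.natDegree : ℝ) < p) :
    ¬ LiouvilleWith p θ := by
  intro hL
  obtain ⟨A, hA0, hA⟩ := Liouville.exists_pos_real_of_irrational_root hθ f0 (by
    rw [Polynomial.eval_map_algebraMap]; exact hroot)
  obtain ⟨q, hq1, hq2⟩ := exists_between hp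
  have hfr := hL.frequently_lt_rpow_neg hq2
  have hlim : Tendsto (fun n : ℕ => (n : ℝ) ^ (q - f.natDegree)) atTop atTop :=
    (tendsto_rpow_atTop (by linarith)).comp tendsto_natCast_atTop_atTop
  obtain ⟨n, ⟨m, -, hm⟩, hnA, hn1⟩ := (hfr.and_eventually
    ((hlim.eventually_gt_atTop A).and (eventually_ge_atTop 1))).exists
  have hn0 : (0 : ℝ) < n := by exact_mod_cast hn1
  have h1 := hA m (n - 1)
  have e1 : ((n - 1 : ℕ) : ℝ) + 1 = n := by
    rw [Nat.cast_sub hn1]; push_cast; ring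
  rw [e1] at h1
  have h2 : (n : ℝ) ^ f.natDegree * (|θ - m / n| * A) < 1 := by
    have h3 : (n : ℝ) ^ f.natDegree * (|θ - m / n| * A) <
        (n : ℝ) ^ f.natDegree * ((n : ℝ) ^ (-q) * A) := by gcongr
    refine h3.trans ?_
    have h4 : (n : ℝ) ^ f.natDegree * ((n : ℝ) ^ (-q) * A) = A / (n : ℝ) ^ (q - f.natDegree) := by
      rw [Real.rpow_sub hn0, Real.rpow_natCast, Real.rpow_neg hn0.le]
      field_simp
    rw [h4, div_lt_one (by positivity)]
    exact hnA
  linarith

/-- Diophantine form of the condition on the exponent in dimension two -/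
theorem cond_iff {r : ℕ} {w : Fin r → ℝ} (hw : ∀ l, 0 < w l) {i j : Fin r}
    (hirr : Irrational (w j / w i))
    (hd : Module.finrank ℚ (Submodule.span ℚ (Set.range w)) = 2) {B κ : ℝ} (hB : B ≤ 2)
    (hκ : 1 ≤ κ) :
    (∀ τ : ℝ, 0 < τ → Appr w τ → B * τ / (1 + τ) ≤ κ) ↔
      ∀ p : ℝ, 2 < p → LiouvilleWith p (w j / w i) → B * (1 - 1 / p) ≤ κ := by
  constructor
  · intro h p hp hL
    by_contra hcon
    push Not at hcon
    have hcomb := comb (hw i).ne' hirr hd
    -- τ close to p - 1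
    have hp0 : 0 < p := by linarith
    have hcont : Tendsto (fun τ : ℝ => B * τ / (1 + τ)) (𝓝[<] (p - 1)) (𝓝 (B * (p - 1) / (1 + (p - 1)))) := by
      refine Tendsto.mono_left ?_ nhdsWithin_le_nhds
      refine ContinuousAt.tendsto (f := fun τ : ℝ => B * τ / (1 + τ)) ?_
      refine ContinuousAt.div (by fun_prop) (by fun_prop) ?_
      linarith
    have e : B * (p - 1) / (1 + (p - 1)) = B * (1 - 1 / p) := by
      have : 1 + (p - 1) = p := by ring
      rw [this]
      field_simp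
    rw [e] at hcont
    have hev := hcont.eventually_const_lt hcon
    have hev2 : ∀ᶠ τ : ℝ in 𝓝[<] (p - 1), 0 < τ :=
      nhdsWithin_le_nhds (lt_mem_nhds (by linarith))
    obtain ⟨τ, ⟨h1, h2⟩, h3⟩ := ((hev.and hev2).and self_mem_nhdsWithin).exists
    have h3' : τ < p - 1 := h3
    have := h τ h2 (appr_of_liouvilleWith hw hcomb h2 (by linarith) hL)
    linarith
  · intro h τ hτ hA
    rcases le_total τ 1 with hτ1 | hτ1
    · have h1 : B * τ / (1 + τ) ≤ 1 := by
        rw [div_le_one (by linarith)]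
        nlinarith
      linarith
    · rcases eq_or_lt_of_le hτ1 with h1 | h1
      · rw [← h1]
        linarith
      · have hL := liouvilleWith_of_appr hw hirr hτ hA
        have h2 := h (1 + τ) (by linarith) hL
        have e : B * (1 - 1 / (1 + τ)) = B * τ / (1 + τ) := by
          have : 1 + τ ≠ 0 := by linarith
          field_simp
          ring
        rwa [e] at h2

end Pool.Agent.Helper8.Bz
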