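import Pool.Graph.R_seed8.Y930.Bz.F

set_option autoImplicit false

/-!
# Barnes multiple zeta function: from a moment bound to a bound for the generating function,
with the factor `|z|^(-σ)`
-/

namespace Pool.Agent.Helper8.Bz

open Finset Filter Topology MeasureTheory Complex Set Asymptotics
open Pool.Agent.H131R5.BZ Pool.Agent.Y930.Bz

variable {r : ℕ} {a : ℝ} {w : Fin r → ℝ} {c : ℕ → ℂ}

lemma gg_le2 {z : ℂ} (hz1 : 1 ≤ ‖z‖) {κ u y x Cg σ : ℝ} (hσ : 0 ≤ σ) (hκ : 0 ≤ κ) (hκ1 : κ ≤ 1)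
    (hu : σ ≤ u)
    (hux : u ≤ x) (hCg : ‖Gamma ((u : ℂ) + y * I) * FF a w c ((u : ℂ) + y * I)‖ ≤ Cg) :
    ‖gg a w c z κ ((u : ℂ) + y * I)‖ ≤
      ‖z‖ ^ (-σ) * (Cg * Real.exp (x ^ 2) * (Real.exp (arg z * y) * Real.exp (-κ * y ^ 2))) := by
  have hz : z ≠ 0 := by
    intro h; rw [h, norm_zero] at hz1; linarith
  rw [gg_norm hz]
  have h1 : ‖z‖ ^ (-u) ≤ ‖z‖ ^ (-σ) := Real.rpow_le_rpow_of_exponent_le hz1 (by linarith)
  have h2 : Real.exp (κ * (u ^ 2 - y ^ 2)) ≤ Real.exp (x ^ 2) * Real.exp (-κ * y ^ 2) := by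
    rw [← Real.exp_add]
    apply Real.exp_le_exp.2
    have h3 : u ^ 2 ≤ x ^ 2 := pow_le_pow_left₀ (by linarith) hux 2
    nlinarith [sq_nonneg u, sq_nonneg x]
  have h4 : 0 ≤ Cg := (norm_nonneg _).trans hCg
  calc _ ≤ ‖z‖ ^ (-σ) * Real.exp (arg z * y) * Cg * (Real.exp (x ^ 2) * Real.exp (-κ * y ^ 2)) := by
        gcongr
    _ = _ := by ring

/-- The shift of the upper half of the line of integration. -/
lemma shift_upper2 (ha : 0 < a) (hw : ∀ j, 0 < w j) (hc : Tay a w c) {σ x : ℝ} (hσ : 0 ≤ σ)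
    (hσx : σ ≤ x) {Cg : ℝ}
    (hCg : ∀ s : ℂ, σ ≤ s.re → s.re ≤ x → 1 ≤ s.im → ‖Gamma s * FF a w c s‖ ≤ Cg)
    {z : ℂ} (hz1 : 1 ≤ ‖z‖) (hzr : 0 < z.re) (hzi : 0 ≤ arg z) {V : ℝ}
    (hV : ∀ T : ℝ, 1 ≤ T → ∫ y in (1 : ℝ)..T,
      ‖Gamma ((σ : ℂ) + y * I) * FF a w c ((σ : ℂ) + y * I)‖ * Real.exp (arg z * y) ≤ V)
    {κ : ℝ} (hκ : 0 < κ) (hκ1 : κ ≤ 1) :
    ∀ᶠ T : ℝ in atTop, ‖∫ y in (1 : ℝ)..T, gg a w c z κ ((x : ℂ) + (y : ℂ) * I)‖ ≤
      ‖z‖ ^ (-σ) * (Real.exp (x ^ 2) * (Cg * (x - σ) * (Real.exp (Real.pi / 2) + 1) + V)) := by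
  filter_upwards [tail_small' hκ (arg z), eventually_ge_atTop (1 : ℝ)] with T hT hT1
  have hz : z ≠ 0 := by
    intro h; rw [h] at hzr; simp at hzr
  have hx0 : 0 ≤ x := by linarith
  have hCg0 : 0 ≤ Cg := (norm_nonneg _).trans (hCg ((σ : ℂ) + (1 : ℝ) * I) (by simp)
    (by simpa using hσx) (by simp))
  have harg : arg z ≤ Real.pi / 2 :=
    (le_abs_self _).trans (Complex.abs_arg_le_pi_div_two_iff.2 hzr.le)
  have hzs : 0 ≤ ‖z‖ ^ (-σ) := Real.rpow_nonneg (norm_nonneg _) _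
  set f : ℂ → ℂ := gg a w c z κ with hf
  have hrect := Complex.integral_boundary_rect_eq_zero_of_differentiableOn f
    ((σ : ℂ) + ((1 : ℝ) : ℂ) * I) ((x : ℂ) + (T : ℂ) * I) (by
      intro s hs
      refine (gg_diff ha hw hc hz κ ?_).differentiableWithinAt
      rw [Complex.mem_reProdIm] at hs
      have h2 := hs.2
      simp only [add_im, ofReal_im, mul_im, ofReal_re, I_im, mul_one, I_re, mul_zero, zero_add,
        add_zero] at h2
      rw [Set.uIcc_of_le hT1] at h2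
      exact h2.1)
  simp only [add_re, ofReal_re, mul_re, I_re, mul_zero, ofReal_im, I_im, mul_one, sub_self,
    add_zero, add_im, mul_im, zero_add] at hrect
  set A := ∫ u in σ..x, f ((u : ℂ) + ((1 : ℝ) : ℂ) * I) with hA
  set B := ∫ u in σ..x, f ((u : ℂ) + (T : ℂ) * I) with hB
  set U := ∫ y in (1 : ℝ)..T, f ((x : ℂ) + (y : ℂ) * I) with hU
  set W := ∫ y in (1 : ℝ)..T, f ((σ : ℂ) + (y : ℂ) * I) with hW
  have hIU : I * U = I * W - A + B := by
    simp only [smul_eq_mul] at hrect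
    linear_combination hrect
  have hnU : ‖U‖ ≤ ‖W‖ + ‖A‖ + ‖B‖ := by
    have : ‖U‖ = ‖I * U‖ := by rw [norm_mul, Complex.norm_I, one_mul]
    rw [this, hIU]
    calc ‖I * W - A + B‖ ≤ ‖I * W - A‖ + ‖B‖ := norm_add_le _ _
      _ ≤ ‖I * W‖ + ‖A‖ + ‖B‖ := by gcongr; exact norm_sub_le _ _
      _ = ‖W‖ + ‖A‖ + ‖B‖ := by rw [norm_mul, Complex.norm_I, one_mul]
  have hAb : ‖A‖ ≤ ‖z‖ ^ (-σ) * (Cg * Real.exp (x ^ 2) * Real.exp (Real.pi / 2)) * (x - σ) := by
    have := intervalIntegral.norm_integral_le_of_norm_le_const (a := σ) (b := x)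
      (C := ‖z‖ ^ (-σ) * (Cg * Real.exp (x ^ 2) * Real.exp (Real.pi / 2)))
      (f := fun u : ℝ => f ((u : ℂ) + ((1 : ℝ) : ℂ) * I)) (by
        intro u hu
        rw [Set.uIoc_of_le hσx] at hu
        refine (gg_le2 hz1 hσ hκ.le hκ1 (by linarith [hu.1]) hu.2 (hCg _ (by simpa using hu.1.le)
          (by simpa using hu.2) (by simp))).trans ?_
        have h1 : Real.exp (arg z * 1) * Real.exp (-κ * 1 ^ 2) ≤ Real.exp (Real.pi / 2) := by
          rw [← Real.exp_add]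
          apply Real.exp_le_exp.2
          nlinarith
        gcongr)
    rwa [abs_of_nonneg (by linarith)] at this
  have hBb : ‖B‖ ≤ ‖z‖ ^ (-σ) * (Cg * Real.exp (x ^ 2) * 1) * (x - σ) := by
    have := intervalIntegral.norm_integral_le_of_norm_le_const (a := σ) (b := x)
      (C := ‖z‖ ^ (-σ) * (Cg * Real.exp (x ^ 2) * 1))
      (f := fun u : ℝ => f ((u : ℂ) + (T : ℂ) * I)) (by
        intro u hu
        rw [Set.uIoc_of_le hσx] at hu
        refine (gg_le2 hz1 hσ hκ.le hκ1 (by linarith [hu.1]) hu.2 (hCg _ (by simpa using hu.1.le)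
          (by simpa using hu.2) (by simpa using hT1))).trans ?_
        gcongr)
    rwa [abs_of_nonneg (by linarith)] at this
  have hcontL : ContinuousOn (fun y : ℝ =>
      ‖Gamma ((σ : ℂ) + y * I) * FF a w c ((σ : ℂ) + y * I)‖ * Real.exp (arg z * y)) (Icc 1 T) := by
    refine ContinuousOn.mul (ContinuousOn.norm ?_) (by fun_prop)
    intro y hy
    have hy1 : 1 ≤ ((σ : ℂ) + y * I).im := by simpa using hy.1
    have h1 : DifferentiableAt ℂ Gamma ((σ : ℂ) + y * I) := by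
      refine Complex.differentiableAt_Gamma _ (fun m hm => ?_)
      have := congrArg Complex.im hm
      simp at this
      linarith [hy.1]
    have h2 : DifferentiableAt ℂ (FF a w c) ((σ : ℂ) + y * I) := FF_diff ha hw hc (mem_Om_of_im hy1)
    have h3 : ContinuousAt (fun s : ℂ => Gamma s * FF a w c s) ((σ : ℂ) + y * I) :=
      (h1.mul h2).continuousAt
    exact (ContinuousAt.comp (g := fun s : ℂ => Gamma s * FF a w c s)
      (f := fun y : ℝ => (σ : ℂ) + y * I) h3 (by fun_prop)).continuousWithinAt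
  have hWb : ‖W‖ ≤ ‖z‖ ^ (-σ) * (Real.exp (x ^ 2) * V) := by
    have h1 : ‖W‖ ≤ ∫ y in (1 : ℝ)..T, ‖z‖ ^ (-σ) * Real.exp (x ^ 2) *
        (‖Gamma ((σ : ℂ) + y * I) * FF a w c ((σ : ℂ) + y * I)‖ * Real.exp (arg z * y)) := by
      refine intervalIntegral.norm_integral_le_of_norm_le hT1 ?_ ?_
      · refine Eventually.of_forall (fun y hy => ?_)
        refine (gg_le2 hz1 hσ hκ.le hκ1 le_rfl hσx le_rfl).trans ?_
        have h2 : Real.exp (-κ * y ^ 2) ≤ 1 := Real.exp_le_one_iff.2 (by nlinarith [sq_nonneg y])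
        calc _ ≤ ‖z‖ ^ (-σ) * (‖Gamma ((σ : ℂ) + y * I) * FF a w c ((σ : ℂ) + y * I)‖ *
              Real.exp (x ^ 2) * (Real.exp (arg z * y) * 1)) := by gcongr
          _ = _ := by ring
      · apply ContinuousOn.intervalIntegrable
        rw [Set.uIcc_of_le hT1]
        exact continuousOn_const.mul hcontL
    refine h1.trans ?_
    rw [intervalIntegral.integral_const_mul]
    calc _ ≤ ‖z‖ ^ (-σ) * Real.exp (x ^ 2) * V :=
          mul_le_mul_of_nonneg_left (hV T hT1) (by positivity)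
      _ = _ := by ring
  calc ‖U‖ ≤ ‖z‖ ^ (-σ) * (Real.exp (x ^ 2) * V) +
        ‖z‖ ^ (-σ) * (Cg * Real.exp (x ^ 2) * Real.exp (Real.pi / 2)) * (x - σ) +
        ‖z‖ ^ (-σ) * (Cg * Real.exp (x ^ 2) * 1) * (x - σ) := by linarith
    _ = _ := by ring

/-- The upper bound for the generating function near the imaginary axis. -/
theorem upper2 (ha : 0 < a) (hw : ∀ j, 0 < w j) (hc : Tay a w c) {σ : ℝ} (hσ : 0 ≤ σ)
    (hσr : σ ≤ (r : ℝ) + 1) :
    ∃ E : ℝ, 0 < E ∧ ∀ z : ℂ, 1 ≤ ‖z‖ → 0 < z.re → 0 ≤ arg z → ∀ V : ℝ, 0 ≤ V →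
      (∀ T : ℝ, 1 ≤ T → ∫ y in (1 : ℝ)..T,
        ‖Gamma ((σ : ℂ) + y * I) * FF a w c ((σ : ℂ) + y * I)‖ * Real.exp (arg z * y) ≤ V) →
      ‖KK a w z‖ ≤ E * ‖z‖ ^ (-σ) * (1 + V) := by
  set x : ℝ := (r : ℝ) + 1 with hx
  have hr0 : (0 : ℝ) ≤ r := Nat.cast_nonneg r
  have hxr : (r : ℝ) < x := by linarith
  have hx1 : 1 / 2 ≤ x := by linarith
  obtain ⟨Cg, hCg0, hCg⟩ := growth ha hw hc σ x
  have hGi := Mc_int ha hw hc hxr hx1 (β := 0) (by linarith [Real.pi_pos])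
  simp only [zero_mul, Real.exp_zero, one_mul] at hGi
  set J : ℝ := ∫ t : ℝ, ‖Mc a w c x t‖ with hJ
  have hJ0 : 0 ≤ J := integral_nonneg (fun t => norm_nonneg _)
  set E1 : ℝ := Real.exp (x ^ 2) * (Cg * (x - σ) * (Real.exp (Real.pi / 2) + 1)) with hE1
  have hE10 : 0 ≤ E1 := by
    have : 0 ≤ x - σ := by linarith
    positivity
  refine ⟨E1 + Real.exp (x ^ 2) + Real.exp (Real.pi / 2) * J, by positivity, ?_⟩
  intro z hz1 hzr hzi V hV0 hV
  have hzs : 0 ≤ ‖z‖ ^ (-σ) := Real.rpow_nonneg (norm_nonneg _) _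
  have hz0 : z ≠ 0 := by
    intro h; rw [h] at hzr; simp at hzr
  have harg : arg z ≤ Real.pi / 2 :=
    (le_abs_self _).trans (Complex.abs_arg_le_pi_div_two_iff.2 hzr.le)
  set P : ℝ → ℂ := fun t => z ^ (-((x : ℂ) + t * I)) * Mc a w c x t with hP
  have hPi : Integrable P := P_int ha hw hc hxr hx1 hzr
  have hPc : Continuous P := P_cont ha hw hc hxr hz0
  have hgP : ∀ κ t : ℝ, gg a w c z κ ((x : ℂ) + t * I) = P t * cexp (κ * ((x : ℂ) + t * I) ^ 2) :=
    fun κ t => rfl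
  -- the upper half
  have hup : ‖∫ t in Ioi (1 : ℝ), P t‖ ≤ ‖z‖ ^ (-σ) * (E1 + Real.exp (x ^ 2) * V) := by
    have hlim : Tendsto (fun κ : ℝ => ∫ t in Ioi (1 : ℝ), P t * cexp (κ * ((x : ℂ) + t * I) ^ 2))
        (𝓝[>] 0) (𝓝 (∫ t in Ioi (1 : ℝ), P t)) := by
      refine tendsto_integral_filter_of_dominated_convergence
        (fun t => Real.exp (x ^ 2) * ‖P t‖) ?_ ?_ ?_ ?_
      · refine Eventually.of_forall (fun κ => ?_)
        exact (hPc.mul (by fun_prop)).aestronglyMeasurable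
      · filter_upwards [self_mem_nhdsWithin, Ioc_mem_nhdsGT (zero_lt_one' ℝ)] with κ _ hκ1
        refine ae_of_all _ fun t => ?_
        rw [norm_mul, Complex.norm_exp, mul_comm]
        refine mul_le_mul_of_nonneg_right ?_ (norm_nonneg _)
        apply Real.exp_le_exp.2
        have e3 : ((κ : ℂ) * ((x : ℂ) + t * I) ^ 2).re = κ * (x ^ 2 - t ^ 2) := by
          simp [pow_two]
        rw [e3]
        have := hκ1.1
        have := hκ1.2
        nlinarith [sq_nonneg t, sq_nonneg x]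
      · exact (hPi.norm.const_mul _).integrableOn
      · refine ae_of_all _ fun t => ?_
        have h1 : Tendsto (fun κ : ℝ => P t * cexp (κ * ((x : ℂ) + t * I) ^ 2)) (𝓝 0)
            (𝓝 (P t * cexp (((0 : ℝ) : ℂ) * ((x : ℂ) + t * I) ^ 2))) := by
          have : Continuous (fun κ : ℝ => P t * cexp (κ * ((x : ℂ) + t * I) ^ 2)) := by fun_prop
          exact this.tendsto 0
        simp only [ofReal_zero, zero_mul, Complex.exp_zero, mul_one] at h1
        exact h1.mono_left nhdsWithin_le_nhds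
    refine le_of_tendsto hlim.norm ?_
    filter_upwards [self_mem_nhdsWithin, Ioc_mem_nhdsGT (zero_lt_one' ℝ)] with κ _ hκ
    have hκi : Integrable (fun t : ℝ => P t * cexp (κ * ((x : ℂ) + t * I) ^ 2)) := by
      refine Integrable.mono' (hPi.norm.const_mul (Real.exp (x ^ 2)))
        (hPc.mul (by fun_prop)).aestronglyMeasurable (ae_of_all _ fun t => ?_)
      rw [norm_mul, Complex.norm_exp, mul_comm]
      refine mul_le_mul_of_nonneg_right ?_ (norm_nonneg _)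
      apply Real.exp_le_exp.2
      have e3 : ((κ : ℂ) * ((x : ℂ) + t * I) ^ 2).re = κ * (x ^ 2 - t ^ 2) := by
        simp [pow_two]
      rw [e3]
      have := hκ.1
      have := hκ.2
      nlinarith [sq_nonneg t, sq_nonneg x]
    have h1 := intervalIntegral_tendsto_integral_Ioi (1 : ℝ) hκi.integrableOn tendsto_id
    refine le_of_tendsto h1.norm ?_
    filter_upwards [shift_upper2 ha hw hc hσ hσr hCg hz1 hzr hzi hV hκ.1 hκ.2] with T hT
    refine hT.trans (le_of_eq ?_)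
    rw [hE1]; ring
  -- the lower part
  have hlow : ‖∫ t in Iic (1 : ℝ), P t‖ ≤ ‖z‖ ^ (-σ) * (Real.exp (Real.pi / 2) * J) := by
    have h1 : ‖∫ t in Iic (1 : ℝ), P t‖ ≤ ∫ t in Iic (1 : ℝ), ‖z‖ ^ (-σ) * Real.exp (Real.pi / 2) *
        ‖Mc a w c x t‖ := by
      refine norm_integral_le_of_norm_le (hGi.const_mul _).integrableOn ?_
      filter_upwards [self_mem_ae_restrict measurableSet_Iic] with t ht
      have ht1 : t ≤ 1 := ht
      rw [hP, norm_mul]
      refine mul_le_mul_of_nonneg_right ?_ (norm_nonneg _)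
      rw [Complex.norm_cpow_of_ne_zero hz0]
      have e1 : (-((x : ℂ) + t * I)).re = -x := by simp
      have e2 : (-((x : ℂ) + t * I)).im = -t := by simp
      rw [e1, e2, div_eq_mul_inv, ← Real.exp_neg, mul_neg, neg_neg]
      have h2 : ‖z‖ ^ (-x) ≤ ‖z‖ ^ (-σ) := Real.rpow_le_rpow_of_exponent_le hz1 (by linarith)
      have h3 : arg z * t ≤ Real.pi / 2 := by nlinarith [Real.pi_pos]
      calc ‖z‖ ^ (-x) * Real.exp (arg z * t) ≤ ‖z‖ ^ (-σ) * Real.exp (Real.pi / 2) := by gcongr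
        _ = _ := rfl
    refine h1.trans ?_
    rw [integral_const_mul, mul_assoc]
    refine mul_le_mul_of_nonneg_left ?_ hzs
    refine mul_le_mul_of_nonneg_left ?_ (Real.exp_pos _).le
    exact setIntegral_le_integral hGi (ae_of_all _ fun t => norm_nonneg _)
  have hinv := inversion ha hw hc hxr hx1 hzr
  have hsplit : ∫ t : ℝ, P t = (∫ t in Iic (1 : ℝ), P t) + ∫ t in Ioi (1 : ℝ), P t :=
    (intervalIntegral.integral_Iic_add_Ioi hPi.integrableOn hPi.integrableOn).symm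
  rw [← hinv, norm_mul]
  have h5 : ‖(1 / (2 * Real.pi) : ℂ)‖ ≤ 1 := by
    have : (1 / (2 * Real.pi) : ℂ) = ((1 / (2 * Real.pi) : ℝ) : ℂ) := by push_cast; rfl
    rw [this, Complex.norm_real, Real.norm_eq_abs, abs_of_pos (by positivity),
      div_le_one (by positivity)]
    linarith [Real.pi_gt_three]
  calc _ ≤ 1 * ‖∫ t : ℝ, P t‖ := by gcongr
    _ ≤ ‖z‖ ^ (-σ) * (Real.exp (Real.pi / 2) * J) +
        ‖z‖ ^ (-σ) * (E1 + Real.exp (x ^ 2) * V) := by
        rw [one_mul, hsplit]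
        exact (norm_add_le _ _).trans (add_le_add hlow hup)
    _ = ‖z‖ ^ (-σ) * (Real.exp (Real.pi / 2) * J + (E1 + Real.exp (x ^ 2) * V)) := by ring
    _ ≤ ‖z‖ ^ (-σ) * ((E1 + Real.exp (x ^ 2) + Real.exp (Real.pi / 2) * J) * (1 + V)) := by
        refine mul_le_mul_of_nonneg_left ?_ hzs
        have h6 : 0 ≤ Real.exp (Real.pi / 2) * J := by positivity
        have h7 : 0 ≤ Real.exp (x ^ 2) := (Real.exp_pos _).le
        nlinarith [mul_nonneg hE10 hV0, mul_nonneg h6 hV0]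
    _ = _ := by ring

/-- from a moment bound to a bound for the mean value, also for small exponents -/
lemma mean_of_moment2 {g : ℝ → ℝ} (hg : Continuous g) (h0 : ∀ t, 0 ≤ g t) {n : ℕ} (hn : 1 ≤ n)
    {η : ℝ} (hη : -1 ≤ η)
    (hO : (fun T : ℝ => ∫ t in (1 : ℝ)..T, g t ^ n) =O[atTop] fun T : ℝ => T ^ (1 + η)) :
    ∃ C : ℝ, 0 ≤ C ∧ ∀ T : ℝ, 1 ≤ T → ∫ t in (1 : ℝ)..T, g t ≤ C * T ^ (1 + η / n) := by
  obtain ⟨C1, hC1⟩ := hO.bound
  obtain ⟨T0, hT0⟩ := eventually_atTop.1 hC1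
  set T1 := max T0 1 with hT1
  have hgn : Continuous fun t => g t ^ n := hg.pow n
  have hmono : ∀ S T : ℝ, 1 ≤ S → S ≤ T → ∫ t in (1 : ℝ)..S, g t ^ n ≤ ∫ t in (1 : ℝ)..T, g t ^ n := by
    intro S T h1 h2
    rw [← intervalIntegral.integral_add_adjacent_intervals (hgn.intervalIntegrable 1 S)
      (hgn.intervalIntegrable S T)]
    have := intervalIntegral.integral_nonneg (μ := volume) h2 (f := fun t => g t ^ n)
      (fun t _ => by have := h0 t; positivity)
    linarith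
  have hI0 : ∀ T : ℝ, 1 ≤ T → 0 ≤ ∫ t in (1 : ℝ)..T, g t ^ n := fun T hT =>
    intervalIntegral.integral_nonneg hT (fun t _ => by have := h0 t; positivity)
  set C2 : ℝ := |C1| + ∫ t in (1 : ℝ)..T1, g t ^ n with hC2
  have hC20 : 0 ≤ C2 := by
    have := hI0 T1 (le_max_right _ _)
    positivity
  have hall : ∀ T : ℝ, 1 ≤ T → ∫ t in (1 : ℝ)..T, g t ^ n ≤ C2 * T ^ (1 + η) := by
    intro T hT
    have hTp : 1 ≤ T ^ (1 + η) := Real.one_le_rpow hT (by linarith)
    have hJ := hI0 T1 (le_max_right _ _)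
    rcases le_total T T1 with h | h
    · calc ∫ t in (1 : ℝ)..T, g t ^ n ≤ ∫ t in (1 : ℝ)..T1, g t ^ n := hmono T T1 hT h
        _ ≤ C2 * 1 := by rw [hC2, mul_one]; have := abs_nonneg C1; linarith
        _ ≤ C2 * T ^ (1 + η) := by gcongr
    · have h1 := hT0 T ((le_max_left _ _).trans h)
      rw [Real.norm_eq_abs, Real.norm_eq_abs, abs_of_nonneg (hI0 T hT),
        abs_of_nonneg (by linarith : 0 ≤ T ^ (1 + η))] at h1
      calc ∫ t in (1 : ℝ)..T, g t ^ n ≤ C1 * T ^ (1 + η) := h1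
        _ ≤ C2 * T ^ (1 + η) := by
            gcongr
            rw [hC2]
            have := le_abs_self C1
            linarith
  refine ⟨1 + C2, by linarith, fun T hT => ?_⟩
  have hT0' : 0 < T := by linarith
  have hn0 : (0 : ℝ) < n := by exact_mod_cast hn
  set M : ℝ := T ^ (η / n) with hM
  have hM0 : 0 < M := Real.rpow_pos_of_pos hT0' _
  have h1 : ∫ t in (1 : ℝ)..T, g t ≤ ∫ t in (1 : ℝ)..T, (M + g t ^ n / M ^ (n - 1)) := by
    apply intervalIntegral.integral_mono_on hT (hg.intervalIntegrable _ _)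
    · apply Continuous.intervalIntegrable; fun_prop
    · exact fun t _ => pow_split (h0 t) hM0 hn
  rw [intervalIntegral.integral_add (by simp)
    ((hgn.div_const _).intervalIntegrable _ _), intervalIntegral.integral_const,
    intervalIntegral.integral_div, smul_eq_mul] at h1
  have h2 : (T - 1) * M ≤ T ^ (1 + η / n) := by
    rw [Real.rpow_add hT0', Real.rpow_one]
    have : (T - 1) * M ≤ T * M := by gcongr; linarith
    exact this
  have h3 : (∫ t in (1 : ℝ)..T, g t ^ n) / M ^ (n - 1) ≤ C2 * T ^ (1 + η / n) := by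
    rw [div_le_iff₀ (by positivity)]
    refine (hall T hT).trans (le_of_eq ?_)
    rw [mul_assoc]
    congr 1
    rw [hM, ← Real.rpow_natCast, ← Real.rpow_mul hT0'.le, ← Real.rpow_add hT0',
      Nat.cast_sub hn]
    congr 1
    push_cast
    field_simp
    ring
  calc _ ≤ (T - 1) * M + (∫ t in (1 : ℝ)..T, g t ^ n) / M ^ (n - 1) := h1
    _ ≤ T ^ (1 + η / n) + C2 * T ^ (1 + η / n) := add_le_add h2 h3
    _ = _ := by ring

/-- The generating function is small near the imaginary axis if a moment is small. -/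
theorem upper_of_moment2 (ha : 0 < a) (hw : ∀ j, 0 < w j) (hc : Tay a w c) {σ : ℝ}
    (hσ : 1 / 2 < σ) (hσr : σ ≤ (r : ℝ) + 1) {n : ℕ} (hn : 1 ≤ n) {η : ℝ} (hη : -1 < η)
    (hO : (fun T : ℝ => ∫ t in (1 : ℝ)..T, ‖FF a w c ((σ : ℂ) + (t : ℂ) * I)‖ ^ n)
      =O[atTop] fun T : ℝ => T ^ (1 + η)) :
    ∃ E : ℝ, 0 < E ∧ ∀ z : ℂ, 1 ≤ ‖z‖ → 0 < z.re → 0 ≤ arg z →
      ‖KK a w z‖ ≤ E * ‖z‖ ^ (-σ) * (1 + (Real.pi / 2 - arg z) ^ (-(σ + 1 / 2 + η / n))) := by
  have hn0 : (0 : ℝ) < n := by exact_mod_cast hn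
  have hn1 : (1 : ℝ) ≤ n := by exact_mod_cast hn
  have hO' : (fun T : ℝ => ∫ t in (1 : ℝ)..T, gl a w c σ t ^ n) =O[atTop]
      fun T : ℝ => T ^ (1 + η) := by
    refine hO.congr' ?_ EventuallyEq.rfl
    filter_upwards [eventually_ge_atTop (1 : ℝ)] with T hT
    refine intervalIntegral.integral_congr fun t ht => ?_
    rw [Set.uIcc_of_le hT] at ht
    show ‖FF a w c ((σ : ℂ) + (t : ℂ) * I)‖ ^ n = gl a w c σ t ^ n
    rw [gl_eq σ ht.1]
  obtain ⟨C, hC0, hC⟩ := mean_of_moment2 (gl_cont ha hw hc σ) (fun t => norm_nonneg _) hn hη.le hO'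
  obtain ⟨E, hE0, hE⟩ := upper2 ha hw hc (by linarith : 0 ≤ σ) hσr
  set A : ℝ := σ - 1 / 2 with hA
  have hA0 : 0 < A := by linarith
  set B : ℝ := 1 + η / n with hB
  have hB0 : 0 < B := by
    have : -1 < η / n := by
      rw [lt_div_iff₀ hn0]
      linarith
    linarith
  set C3 : ℝ := 4 * (1 + σ) ^ A * ((2 * A) ^ A) * (3 * C * ((2 * B) ^ B * 2 ^ B)) with hC3
  have hC30 : 0 ≤ C3 := by
    have : 0 < 1 + σ := by linarith
    positivity
  refine ⟨E * (1 + C3), by positivity, fun z hz1 hzr hzi => ?_⟩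
  have hzs : 0 ≤ ‖z‖ ^ (-σ) := Real.rpow_nonneg (norm_nonneg _) _
  set θ : ℝ := Real.pi / 2 - arg z with hθ
  have hθ0 : 0 < θ := by
    have := (abs_lt.1 (arg_lt hzr)).2
    linarith
  set e : ℝ := σ + 1 / 2 + η / n with he
  have hθe : 0 < θ ^ (-e) := Real.rpow_pos_of_pos hθ0 _
  have hAB : A + B = e := by rw [hA, hB, he]; ring
  have key := hE z hz1 hzr hzi (C3 * θ ^ (-e)) (by positivity) (by
    intro T hT
    have hgc := gl_cont ha hw hc σ
    have h1 : ∫ y in (1 : ℝ)..T, ‖Gamma ((σ : ℂ) + y * I) * FF a w c ((σ : ℂ) + y * I)‖ *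
        Real.exp (arg z * y) ≤ ∫ y in (1 : ℝ)..T,
          (4 * (1 + σ) ^ A * ((2 * A) ^ A * θ ^ (-A))) * (Real.exp (-(θ / 2) * y) * gl a w c σ y) := by
      apply intervalIntegral.integral_mono_on hT
      · apply ContinuousOn.intervalIntegrable
        rw [Set.uIcc_of_le hT]
        refine ContinuousOn.mul (ContinuousOn.norm ?_) (by fun_prop)
        intro y hy
        have hy1 : 1 ≤ ((σ : ℂ) + y * I).im := by simpa using hy.1
        have g1 : DifferentiableAt ℂ Gamma ((σ : ℂ) + y * I) := by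
          refine Complex.differentiableAt_Gamma _ (fun m hm => ?_)
          have := congrArg Complex.im hm
          simp at this
          linarith [hy.1]
        have g2 : DifferentiableAt ℂ (FF a w c) ((σ : ℂ) + y * I) :=
          FF_diff ha hw hc (mem_Om_of_im hy1)
        have g3 : ContinuousAt (fun s : ℂ => Gamma s * FF a w c s) ((σ : ℂ) + y * I) :=
          (g1.mul g2).continuousAt
        exact (ContinuousAt.comp (g := fun s : ℂ => Gamma s * FF a w c s)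
          (f := fun y : ℝ => (σ : ℂ) + y * I) g3 (by fun_prop)).continuousWithinAt
      · apply Continuous.intervalIntegrable
        exact continuous_const.mul ((by fun_prop : Continuous fun y : ℝ =>
          Real.exp (-(θ / 2) * y)).mul hgc)
      · intro y hy
        have hy1 := hy.1
        have h2 := Pool.Agent.H9R3.BZ.Gamma_upper hσ.le hy1
        have h3 := rpow_mul_exp_le' hA0 hθ0 (by linarith : 0 ≤ y)
        have h4 : Real.exp (-(Real.pi / 2) * y) * Real.exp (arg z * y) = Real.exp (-θ * y) := by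
          rw [← Real.exp_add]; congr 1; rw [hθ]; ring
        have hσ1 : 0 < 1 + σ := by linarith
        rw [norm_mul, gl_eq σ hy1]
        set G := ‖FF a w c ((σ : ℂ) + (y : ℂ) * I)‖ with hG
        have hG0 : 0 ≤ G := norm_nonneg _
        calc ‖Gamma ((σ : ℂ) + y * I)‖ * G * Real.exp (arg z * y)
            ≤ (4 * (1 + σ) ^ A * y ^ A * Real.exp (-(Real.pi / 2) * y)) * G *
              Real.exp (arg z * y) := by gcongr
          _ = 4 * (1 + σ) ^ A * G * (y ^ A *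
              (Real.exp (-(Real.pi / 2) * y) * Real.exp (arg z * y))) := by ring
          _ = 4 * (1 + σ) ^ A * G * (y ^ A * Real.exp (-θ * y)) := by rw [h4]
          _ ≤ 4 * (1 + σ) ^ A * G * ((2 * A) ^ A * θ ^ (-A) * Real.exp (-(θ / 2) * y)) := by
              gcongr
          _ = _ := by ring
    refine h1.trans ?_
    rw [intervalIntegral.integral_const_mul]
    have h5 := laplace' hgc hC0 hB0 (half_pos hθ0) hT hC
    have hσ1 : 0 < 1 + σ := by linarith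
    have h6 : 0 < 4 * (1 + σ) ^ A * ((2 * A) ^ A * θ ^ (-A)) := by positivity
    refine (mul_le_mul_of_nonneg_left h5 h6.le).trans (le_of_eq ?_)
    have h7 : (θ / 2) ^ (-B) = θ ^ (-B) * 2 ^ B := by
      rw [Real.div_rpow hθ0.le (by norm_num), Real.rpow_neg (by norm_num : (0:ℝ) ≤ 2), div_inv_eq_mul]
    have h8 : θ ^ (-e) = θ ^ (-A) * θ ^ (-B) := by
      rw [← Real.rpow_add hθ0, ← hAB]; congr 1; ring
    rw [h7, h8, hC3]
    ring)
  refine key.trans ?_
  have h9 : 1 + C3 * θ ^ (-e) ≤ (1 + C3) * (1 + θ ^ (-e)) := by nlinarith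
  calc E * ‖z‖ ^ (-σ) * (1 + C3 * θ ^ (-e)) ≤
        E * ‖z‖ ^ (-σ) * ((1 + C3) * (1 + θ ^ (-e))) := by gcongr
    _ = _ := by ring

end Pool.Agent.Helper8.Bz
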