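import Pool.Agent.Helper8.Bz.L1

set_option autoImplicit false

/-!
# Barnes multiple zeta function: large moments for simultaneously well approximable weights
-/

namespace Pool.Agent.Helper8.Bz

open Finset Filter Topology MeasureTheory Complex Set Asymptotics
open Pool.Agent.H131R5.BZ Pool.Agent.Y930.Bz

variable {r : ℕ} {a : ℝ} {w : Fin r → ℝ} {c : ℕ → ℂ}

/-- There are arbitrarily large real numbers `x` for which all the numbers `x w_j` are within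
`x^(-τ)` of integers. -/
def Appr (w : Fin r → ℝ) (τ : ℝ) : Prop :=
  ∀ X : ℝ, ∃ x : ℝ, X ≤ x ∧ 1 ≤ x ∧ ∀ j, ∃ N : ℤ, |x * w j - N| ≤ x ^ (-τ)

lemma factor_le2 {b y : ℝ} (hb : 0 < b) (hy : 0 < y) {D : ℝ} {N : ℤ}
    (hN : |D * b - N| ≤ y) (hs : (b + 2 * Real.pi) * y ≤ 1) :
    ‖1 - cexp (-(b : ℂ) * ((y : ℂ) + (2 * Real.pi * D : ℝ) * I))‖ ≤
      2 * (b + 2 * Real.pi) * y := by
  set u : ℂ := -((b * y : ℝ) : ℂ) - ((2 * Real.pi * (D * b - N) : ℝ) : ℂ) * I with hu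
  have e1 : cexp (-(b : ℂ) * ((y : ℂ) + (2 * Real.pi * D : ℝ) * I)) = cexp u := by
    have e2 : -(b : ℂ) * ((y : ℂ) + (2 * Real.pi * D : ℝ) * I) =
        u - (N : ℤ) * (2 * Real.pi * I) := by
      rw [hu]; push_cast; ring
    rw [e2, Complex.exp_sub, Complex.exp_int_mul_two_pi_mul_I, div_one]
  have hun : ‖u‖ ≤ (b + 2 * Real.pi) * y := by
    rw [hu]
    refine (norm_sub_le _ _).trans ?_
    rw [norm_neg, norm_mul, Complex.norm_I, mul_one, Complex.norm_real, Complex.norm_real,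
      Real.norm_eq_abs, Real.norm_eq_abs, abs_of_pos (mul_pos hb hy), abs_mul,
      abs_of_pos (by positivity : 0 < 2 * Real.pi)]
    have : 2 * Real.pi * |D * b - N| ≤ 2 * Real.pi * y := by gcongr
    linarith
  rw [e1, ← norm_neg, neg_sub]
  calc ‖cexp u - 1‖ ≤ 2 * ‖u‖ := Complex.norm_exp_sub_one_le (hun.trans hs)
    _ ≤ 2 * ((b + 2 * Real.pi) * y) := by gcongr
    _ = _ := by ring

lemma KK_lower2 (ha : 0 < a) (hw : ∀ j, 0 < w j) {y : ℝ} (hy : 0 < y) (hy1 : y ≤ 1) {D : ℝ}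
    (hN : ∀ j, ∃ N : ℤ, |D * w j - N| ≤ y) (hs : ∀ j, (w j + 2 * Real.pi) * y ≤ 1) :
    Real.exp (-a) * (∏ j, (2 * (w j + 2 * Real.pi))⁻¹) * (y⁻¹) ^ r ≤
      ‖KK a w ((y : ℂ) + (2 * Real.pi * D : ℝ) * I)‖ := by
  unfold KK
  rw [norm_mul, norm_prod, Complex.norm_exp]
  have hre : (-(a : ℂ) * ((y : ℂ) + (2 * Real.pi * D : ℝ) * I)).re = -(a * y) := by simp
  rw [hre, mul_assoc]
  have h1 : Real.exp (-a) ≤ Real.exp (-(a * y)) := Real.exp_le_exp.2 (by nlinarith)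
  have h2 : (∏ j, (2 * (w j + 2 * Real.pi))⁻¹) * (y⁻¹) ^ r =
      ∏ j, (2 * (w j + 2 * Real.pi) * y)⁻¹ := by
    simp only [mul_inv, Finset.prod_mul_distrib, Finset.prod_const, Finset.card_univ,
      Fintype.card_fin]
  have hwp : ∀ j, 0 < w j + 2 * Real.pi := fun j => by
    have := hw j; have := Real.pi_pos; linarith
  rw [h2]
  have h3 : ∏ j, (2 * (w j + 2 * Real.pi) * y)⁻¹ ≤
      ∏ j, ‖(1 - cexp (-(w j : ℂ) * ((y : ℂ) + (2 * Real.pi * D : ℝ) * I)))⁻¹‖ := by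
    refine Finset.prod_le_prod (fun j _ => by have := hwp j; positivity) (fun j _ => ?_)
    obtain ⟨N, hN⟩ := hN j
    rw [norm_inv]
    refine inv_anti₀ ?_ (factor_le2 (hw j) hy hN (hs j))
    exact norm_pos_iff.2 (one_sub_ne (hw j) (by simpa using hy))
  have h4 : 0 ≤ ∏ j, (2 * (w j + 2 * Real.pi) * y)⁻¹ :=
    Finset.prod_nonneg (fun j _ => by have := hwp j; positivity)
  exact mul_le_mul h1 h3 h4 (Real.exp_pos _).le

lemma theta_lower2 {y : ℝ} (hy : 0 < y) (hy1 : y ≤ 1) {D : ℝ} (hD1 : 1 ≤ D) :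
    D ≤ ‖(y : ℂ) + (2 * Real.pi * D : ℝ) * I‖ ∧ 0 ≤ arg ((y : ℂ) + (2 * Real.pi * D : ℝ) * I) ∧
      y / (8 * D) ≤ Real.pi / 2 - arg ((y : ℂ) + (2 * Real.pi * D : ℝ) * I) := by
  set z : ℂ := (y : ℂ) + (2 * Real.pi * D : ℝ) * I with hz
  have hre : z.re = y := by simp [hz]
  have him : z.im = 2 * Real.pi * D := by simp [hz]
  have hpi := Real.pi_gt_three
  have hpi2 := Real.pi_lt_d2
  have h1 : D ≤ ‖z‖ := by
    have := (le_abs_self _).trans (Complex.abs_im_le_norm z)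
    rw [him] at this
    nlinarith
  have h2 : ‖z‖ ≤ 8 * D := by
    have := Complex.norm_le_abs_re_add_abs_im z
    rw [hre, him, abs_of_pos hy, abs_of_pos (by positivity)] at this
    nlinarith
  have h3 : 0 ≤ arg z := by
    rw [Complex.arg_nonneg_iff, him]; positivity
  have hz0 : z ≠ 0 := by
    intro h; rw [h, norm_zero] at h1; linarith
  have h4 : arg z ≤ Real.pi / 2 :=
    (le_abs_self _).trans (Complex.abs_arg_le_pi_div_two_iff.2 (by rw [hre]; exact hy.le))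
  refine ⟨h1, h3, ?_⟩
  have h5 : Real.sin (Real.pi / 2 - arg z) = y / ‖z‖ := by
    rw [Real.sin_pi_div_two_sub, Complex.cos_arg hz0, hre]
  have h6 : y / ‖z‖ ≤ Real.pi / 2 - arg z := by
    rw [← h5]
    exact Real.sin_le (by linarith)
  refine le_trans ?_ h6
  exact div_le_div_of_nonneg_left hy.le (by linarith) h2

/-- The generating function is large near the imaginary axis. -/
theorem contra2 (ha : 0 < a) (hw : ∀ j, 0 < w j) {τ : ℝ} (hτ : 0 < τ) (hL : Appr w τ)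
    {E e σ : ℝ} (hE : 0 < E) (he : 0 < e) (hσ : 0 ≤ σ) (her : (1 + τ) * e - σ < τ * r)
    (h : ∀ z : ℂ, 1 ≤ ‖z‖ → 0 < z.re → 0 ≤ arg z →
      ‖KK a w z‖ ≤ E * ‖z‖ ^ (-σ) * (1 + (Real.pi / 2 - arg z) ^ (-e))) : False := by
  set cL : ℝ := Real.exp (-a) * ∏ j, (2 * (w j + 2 * Real.pi))⁻¹ with hcL
  have hwp : ∀ j, 0 < w j + 2 * Real.pi := fun j => by
    have := hw j; have := Real.pi_pos; linarith
  have hcL0 : 0 < cL := by
    have : 0 < ∏ j, (2 * (w j + 2 * Real.pi))⁻¹ :=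
      Finset.prod_pos (fun j _ => by have := hwp j; positivity)
    positivity
  set γ : ℝ := τ * r - ((1 + τ) * e - σ) with hγ
  have hγ0 : 0 < γ := by linarith
  set K1 : ℝ := E * (1 + 8 ^ e) with hK1
  have hev : ∀ᶠ x : ℝ in atTop, K1 / cL < x ^ γ ∧ ∑ j, (w j + 2 * Real.pi) ≤ x ^ τ ∧ 1 ≤ x :=
    ((tendsto_rpow_atTop hγ0).eventually_gt_atTop _).and
      (((tendsto_rpow_atTop hτ).eventually_ge_atTop _).and (eventually_ge_atTop 1))
  obtain ⟨X, hX⟩ := eventually_atTop.1 hev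
  obtain ⟨x, hxX, hx1, hxw⟩ := hL X
  obtain ⟨hxK, hxs, -⟩ := hX x hxX
  have hx0 : 0 < x := by linarith
  set y : ℝ := x ^ (-τ) with hy
  have hy0 : 0 < y := Real.rpow_pos_of_pos hx0 _
  have hy1 : y ≤ 1 := Real.rpow_le_one_of_one_le_of_nonpos hx1 (by linarith)
  have hyx : x ^ τ * y = 1 := by
    rw [hy, ← Real.rpow_add hx0]
    simp
  have hs : ∀ j, (w j + 2 * Real.pi) * y ≤ 1 := by
    intro j
    have h3 : w j + 2 * Real.pi ≤ ∑ j, (w j + 2 * Real.pi) :=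
      Finset.single_le_sum (f := fun j => w j + 2 * Real.pi) (fun i _ => (hwp i).le)
        (Finset.mem_univ j)
    calc (w j + 2 * Real.pi) * y ≤ x ^ τ * y := by gcongr; linarith
      _ = 1 := hyx
  have hlow := KK_lower2 ha hw hy0 hy1 hxw hs
  obtain ⟨t1, t2, t3⟩ := theta_lower2 hy0 hy1 hx1
  set z : ℂ := (y : ℂ) + (2 * Real.pi * x : ℝ) * I with hz
  have hup := h z (hx1.trans t1) (by simpa [hz] using hy0) t2
  have hzσ : ‖z‖ ^ (-σ) ≤ x ^ (-σ) :=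
    Real.rpow_le_rpow_of_nonpos hx0 t1 (by linarith)
  have hth : (Real.pi / 2 - arg z) ^ (-e) ≤ 8 ^ e * x ^ ((1 + τ) * e) := by
    have h1 := Real.rpow_le_rpow_of_nonpos (by positivity : 0 < y / (8 * x)) t3
      (by linarith : -e ≤ 0)
    refine h1.trans (le_of_eq ?_)
    have h2 : y / (8 * x) = (8 * x ^ (1 + τ))⁻¹ := by
      rw [hy, Real.rpow_add hx0, Real.rpow_one, Real.rpow_neg hx0.le]
      field_simp
    rw [h2, Real.rpow_neg (by positivity), Real.inv_rpow (by positivity), inv_inv,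
      Real.mul_rpow (by norm_num) (by positivity), ← Real.rpow_mul hx0.le]
  have hDe : 1 ≤ x ^ ((1 + τ) * e) := Real.one_le_rpow hx1 (by positivity)
  have h8 : 0 < (8 : ℝ) ^ e := by positivity
  have hfin : cL * (x ^ (-σ) * x ^ ((1 + τ) * e) * x ^ γ) ≤
      K1 * (x ^ (-σ) * x ^ ((1 + τ) * e)) := by
    calc cL * (x ^ (-σ) * x ^ ((1 + τ) * e) * x ^ γ) = cL * (y⁻¹) ^ r := by
          have h1 : (y⁻¹) ^ r = x ^ (τ * r) := by
            rw [hy, Real.rpow_neg hx0.le, inv_inv, ← Real.rpow_natCast, ← Real.rpow_mul hx0.le]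
          rw [h1, ← Real.rpow_add hx0, ← Real.rpow_add hx0]
          congr 2
          rw [hγ]
          ring
      _ ≤ ‖KK a w z‖ := hlow
      _ ≤ E * ‖z‖ ^ (-σ) * (1 + (Real.pi / 2 - arg z) ^ (-e)) := hup
      _ ≤ E * x ^ (-σ) * (1 + 8 ^ e * x ^ ((1 + τ) * e)) := by
          have h0 : 0 ≤ (Real.pi / 2 - arg z) ^ (-e) := by
            apply Real.rpow_nonneg
            have : 0 < y / (8 * x) := by positivity
            linarith
          gcongr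
      _ ≤ E * x ^ (-σ) * ((1 + 8 ^ e) * x ^ ((1 + τ) * e)) := by
          refine mul_le_mul_of_nonneg_left ?_ (by positivity)
          nlinarith
      _ = K1 * (x ^ (-σ) * x ^ ((1 + τ) * e)) := by rw [hK1]; ring
  have h9 : cL * x ^ γ ≤ K1 := by
    have hp : 0 < x ^ (-σ) * x ^ ((1 + τ) * e) := by positivity
    have : cL * x ^ γ * (x ^ (-σ) * x ^ ((1 + τ) * e)) ≤
        K1 * (x ^ (-σ) * x ^ ((1 + τ) * e)) := by linarith
    exact le_of_mul_le_mul_right this hp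
  rw [div_lt_iff₀ hcL0] at hxK
  linarith

/-- the moments are large -/
theorem not_moment2 (ha : 0 < a) (hw : ∀ j, 0 < w j) {τ : ℝ} (hτ : 0 < τ) (hL : Appr w τ)
    {Z : ℂ → ℂ}
    (hZ : ∀ s ∈ Om r, DifferentiableAt ℂ Z s)
    (hs : ∀ s : ℂ, (r : ℝ) < s.re → Z s = ∑' m : Fin r → ℕ, ((lam a w m : ℝ) : ℂ) ^ (-s))
    {n : ℕ} (hn : 1 ≤ n) {σ κ : ℝ} (hσ : 1 / 2 < σ) (hσr : σ ≤ r + 1) (hκ0 : 0 < κ)
    (hκ : κ < 1 + n * (τ * (r - σ) / (1 + τ) - 1 / 2)) :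
    ¬ (fun T : ℝ => ∫ t in (1 : ℝ)..T, ‖Z ((σ : ℂ) + (t : ℂ) * I)‖ ^ n)
      =O[atTop] fun T : ℝ => T ^ κ := by
  intro hO
  obtain ⟨c, hc⟩ := exists_taylor a hw
  have hn0 : (0 : ℝ) < n := by exact_mod_cast hn
  have hn1 : (1 : ℝ) ≤ n := by exact_mod_cast hn
  obtain ⟨η, rfl⟩ : ∃ η : ℝ, κ = 1 + η := ⟨κ - 1, by ring⟩
  have hη : -1 < η := by linarith
  have h1 : η / n < τ * (r - σ) / (1 + τ) - 1 / 2 := by
    rw [div_lt_iff₀ hn0]; linarith
  have hq : (1 + τ) * (σ + 1 / 2 + η / n) - σ < τ * r := by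
    have h2 : (1 + τ) * (η / n) < (1 + τ) * (τ * (r - σ) / (1 + τ) - 1 / 2) := by gcongr
    have h3 : (1 + τ) * (τ * (r - σ) / (1 + τ) - 1 / 2) = τ * (r - σ) - (1 + τ) / 2 := by
      field_simp
    nlinarith
  have hpos : 0 < σ + 1 / 2 + η / n := by
    have : -1 < η / n := by
      rw [lt_div_iff₀ hn0]; linarith
    linarith
  have hO' : (fun T : ℝ => ∫ t in (1 : ℝ)..T, ‖FF a w c ((σ : ℂ) + (t : ℂ) * I)‖ ^ n)
      =O[atTop] fun T : ℝ => T ^ (1 + η) := by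
    have h1 : (fun T : ℝ => ∫ t in (1 : ℝ)..T, ‖FF a w c ((σ : ℂ) + (t : ℂ) * I)‖ ^ n) =ᶠ[atTop]
        fun T : ℝ => ∫ t in (1 : ℝ)..T, ‖Z ((σ : ℂ) + (t : ℂ) * I)‖ ^ n := by
      filter_upwards [eventually_ge_atTop (1 : ℝ)] with T hT
      refine intervalIntegral.integral_congr fun t ht => ?_
      rw [Set.uIcc_of_le hT] at ht
      show ‖FF a w c ((σ : ℂ) + (t : ℂ) * I)‖ ^ n = ‖Z ((σ : ℂ) + (t : ℂ) * I)‖ ^ n
      rw [eq_FF ha hw hc hZ hs _ (mem_Om_of_im (by simpa using ht.1))]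
    exact h1.trans_isBigO hO
  obtain ⟨E, hE, hup⟩ := upper_of_moment2 ha hw hc hσ hσr hn hη hO'
  exact contra2 ha hw hτ hL hE hpos (by linarith) hq hup

/-- the values are large -/
theorem not_pointwise2 (ha : 0 < a) (hw : ∀ j, 0 < w j) {τ : ℝ} (hτ : 0 < τ) (hL : Appr w τ)
    {Z : ℂ → ℂ}
    (hZ : ∀ s ∈ Om r, DifferentiableAt ℂ Z s)
    (hs : ∀ s : ℂ, (r : ℝ) < s.re → Z s = ∑' m : Fin r → ℕ, ((lam a w m : ℝ) : ℂ) ^ (-s))
    {σ η : ℝ} (hσ : 1 / 2 < σ) (hσr : σ < r) (hη : η < τ * (r - σ) / (1 + τ) - 1 / 2) :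
    ¬ (fun t : ℝ => Z ((σ : ℂ) + (t : ℂ) * I)) =O[atTop] fun t : ℝ => t ^ η := by
  intro hO
  set η1 : ℝ := max η (-(1 / 2)) with hη1
  have hrσ : 0 < (r : ℝ) - σ := by linarith
  have hη10 : -(1 / 2) ≤ η1 := le_max_right _ _
  have hη1r : η1 < τ * (r - σ) / (1 + τ) - 1 / 2 := by
    refine max_lt hη ?_
    have : 0 < τ * (r - σ) / (1 + τ) := by positivity
    linarith
  refine not_moment2 ha hw hτ hL hZ hs (n := 1) le_rfl hσ (by linarith) (κ := 1 + η1)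
    (by linarith) (by push_cast; linarith) ?_
  obtain ⟨C, hC⟩ := hO.bound
  obtain ⟨T0, hT0⟩ := eventually_atTop.1 hC
  set T1 := max T0 1 with hT1
  have hZc : ContinuousOn (fun t : ℝ => ‖Z ((σ : ℂ) + (t : ℂ) * I)‖ ^ 1) (Ici 1) := by
    intro t ht
    have h1 : DifferentiableAt ℂ Z ((σ : ℂ) + (t : ℂ) * I) :=
      hZ _ (mem_Om_of_im (by simpa using ht))
    have h2 : ContinuousAt (fun t : ℝ => Z ((σ : ℂ) + (t : ℂ) * I)) t :=
      ContinuousAt.comp (g := Z) (f := fun t : ℝ => (σ : ℂ) + (t : ℂ) * I) h1.continuousAt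
        (by fun_prop)
    exact (h2.norm.pow 1).continuousWithinAt
  have hint : ∀ x y : ℝ, 1 ≤ x → x ≤ y →
      IntervalIntegrable (fun t : ℝ => ‖Z ((σ : ℂ) + (t : ℂ) * I)‖ ^ 1) volume x y := by
    intro x y hx hxy
    apply ContinuousOn.intervalIntegrable
    rw [Set.uIcc_of_le hxy]
    exact hZc.mono (fun t ht => hx.trans ht.1)
  set J : ℝ := ∫ t in (1 : ℝ)..T1, ‖Z ((σ : ℂ) + (t : ℂ) * I)‖ ^ 1 with hJ
  have hT11 : (1 : ℝ) ≤ T1 := le_max_right _ _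
  have hJ0 : 0 ≤ J := intervalIntegral.integral_nonneg hT11 (fun t _ => by positivity)
  refine IsBigO.of_bound (J + |C| * (2 * 2)) ?_
  filter_upwards [eventually_ge_atTop T1] with T hT
  have hTT : (1 : ℝ) ≤ T := hT11.trans hT
  have hT00 : 0 < T := by linarith
  rw [← intervalIntegral.integral_add_adjacent_intervals (hint 1 T1 le_rfl hT11) (hint T1 T hT11 hT)]
  have h1 : ∫ t in T1..T, ‖Z ((σ : ℂ) + (t : ℂ) * I)‖ ^ 1 ≤ |C| * (2 * 2) * T ^ (1 + η1) := by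
    have h2 : ∫ t in T1..T, ‖Z ((σ : ℂ) + (t : ℂ) * I)‖ ^ 1 ≤ ∫ t in T1..T, |C| * t ^ η1 := by
      apply intervalIntegral.integral_mono_on hT (hint T1 T hT11 hT)
      · apply ContinuousOn.intervalIntegrable
        rw [Set.uIcc_of_le hT]
        refine continuousOn_const.mul (ContinuousOn.rpow_const continuousOn_id fun t ht => ?_)
        left
        have : 0 < t := by linarith [ht.1]
        exact this.ne'
      intro t ht
      have ht1 : 1 ≤ t := hT11.trans ht.1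
      have ht0 : 0 < t := by linarith
      have h3 := hT0 t ((le_max_left _ _).trans ht.1)
      rw [Real.norm_eq_abs, abs_of_nonneg (Real.rpow_nonneg ht0.le _)] at h3
      rw [pow_one]
      calc ‖Z ((σ : ℂ) + (t : ℂ) * I)‖ ≤ C * t ^ η := h3
        _ ≤ |C| * t ^ η1 := by
            gcongr
            · exact le_abs_self C
            · exact le_max_left _ _
    refine h2.trans ?_
    rw [intervalIntegral.integral_const_mul, integral_rpow (Or.inl (by linarith)), mul_assoc]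
    refine mul_le_mul_of_nonneg_left ?_ (abs_nonneg _)
    rw [div_le_iff₀ (by linarith)]
    have h4 : 0 ≤ T1 ^ (η1 + 1) := by positivity
    have h5 : T ^ (1 + η1) = T ^ (η1 + 1) := by rw [add_comm]
    have h6 : 0 ≤ T ^ (η1 + 1) := by positivity
    rw [h5]
    nlinarith
  have h6 : 0 ≤ ∫ t in T1..T, ‖Z ((σ : ℂ) + (t : ℂ) * I)‖ ^ 1 :=
    intervalIntegral.integral_nonneg hT (fun t _ => by positivity)
  rw [Real.norm_eq_abs, Real.norm_eq_abs, abs_of_nonneg (by linarith),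
    abs_of_nonneg (Real.rpow_nonneg hT00.le _)]
  have h7 : 1 ≤ T ^ (1 + η1) := Real.one_le_rpow hTT (by linarith)
  calc _ ≤ J * T ^ (1 + η1) + |C| * (2 * 2) * T ^ (1 + η1) := by
        refine add_le_add ?_ h1
        exact le_mul_of_one_le_right hJ0 h7
    _ = _ := by ring

end Pool.Agent.Helper8.Bz
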