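import Pool.Graph.R_seed8.Y616.BM.Pt3

set_option autoImplicit false

/-!
# Mean squares of Barnes zeta functions under a Diophantine condition, part 1: pointwise bounds
-/

namespace Pool.Agent.Helper8.Bz

open Finset Filter Topology MeasureTheory Complex Set
open Pool.Agent.H131R5.BZ Pool.Agent.Y930.Bz Pool.Agent.Y616.BM

/-- the distance to the nearest multiple of `2 π` -/
noncomputable def Dp (φ : ℝ) : ℝ := |φ - 2 * Real.pi * (round (φ / (2 * Real.pi)) : ℤ)|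

lemma Dp_nonneg (φ : ℝ) : 0 ≤ Dp φ := abs_nonneg _

lemma Dp_le_pi (φ : ℝ) : Dp φ ≤ Real.pi := by
  have h1 := abs_sub_round (φ / (2 * Real.pi))
  have hp := Real.pi_pos
  unfold Dp
  have e : φ - 2 * Real.pi * (round (φ / (2 * Real.pi)) : ℤ) =
      2 * Real.pi * (φ / (2 * Real.pi) - (round (φ / (2 * Real.pi)) : ℤ)) := by
    field_simp
  rw [e, abs_mul, abs_of_pos (by positivity)]
  nlinarith

lemma Dp_le_four (φ : ℝ) : Dp φ ≤ 4 := (Dp_le_pi φ).trans Real.pi_le_four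

/-- lower bound for a factor of the kernel -/
lemma fac_lower {v : ℝ} (hv : 0 < v) {X₁ : ℝ} (hX : 0 < X₁) :
    ∃ κ : ℝ, 0 < κ ∧ ∀ x y δ : ℝ, 0 < δ → δ ≤ x → x ≤ X₁ →
      κ * (δ ^ 2 + Dp (v * y) ^ 2) ≤ ‖1 - cexp (-(v : ℂ) * ((x : ℂ) + y * I))‖ ^ 2 := by
  have hp := Real.pi_pos
  set κ₁ : ℝ := (v / (1 + v * X₁)) ^ 2 with hκ₁
  set κ₂ : ℝ := 4 * Real.exp (-(v * X₁)) / Real.pi ^ 2 with hκ₂
  have h1 : 0 < κ₁ := by positivity
  have h2 : 0 < κ₂ := by positivity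
  refine ⟨min κ₁ κ₂, lt_min h1 h2, fun x y δ hδ hδx hx => ?_⟩
  have hx0 : 0 < x := hδ.trans_le hδx
  rw [fac_sq, mul_add]
  refine add_le_add ?_ ?_
  · have h3 : Real.exp (-v * x) ≤ 1 / (1 + v * x) := by
      rw [neg_mul, Real.exp_neg, one_div]
      apply inv_anti₀ (by positivity)
      have := Real.add_one_le_exp (v * x)
      linarith
    have h4 : v * x / (1 + v * X₁) ≤ v * x / (1 + v * x) := by gcongr
    have h5 : v * x / (1 + v * x) = 1 - 1 / (1 + v * x) := by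
      field_simp
      ring
    have h6 : v / (1 + v * X₁) * x ≤ 1 - Real.exp (-v * x) := by
      have : v / (1 + v * X₁) * x = v * x / (1 + v * X₁) := by ring
      linarith
    calc min κ₁ κ₂ * δ ^ 2 ≤ κ₁ * x ^ 2 := by
          gcongr
          exact min_le_left _ _
      _ = (v / (1 + v * X₁) * x) ^ 2 := by rw [hκ₁]; ring
      _ ≤ _ := by gcongr
  · have h3 : Real.cos (v * y - 2 * Real.pi * (round (v * y / (2 * Real.pi)) : ℤ)) =
        Real.cos (v * y) := by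
      rw [mul_comm (2 * Real.pi)]
      exact Real.cos_sub_int_mul_two_pi _ _
    have h4 := Real.cos_le_one_sub_mul_cos_sq (Dp_le_pi (v * y))
    rw [h3] at h4
    have h5 : Real.exp (-(v * X₁)) ≤ Real.exp (-v * x) := by
      apply Real.exp_le_exp.2
      nlinarith
    have h6 : Dp (v * y) ^ 2 = (v * y - 2 * Real.pi * (round (v * y / (2 * Real.pi)) : ℤ)) ^ 2 := by
      unfold Dp
      rw [sq_abs]
    calc min κ₁ κ₂ * Dp (v * y) ^ 2 ≤ κ₂ * Dp (v * y) ^ 2 := by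
          gcongr
          exact min_le_right _ _
      _ = 2 * Real.exp (-(v * X₁)) * (2 / Real.pi ^ 2 * Dp (v * y) ^ 2) := by
          rw [hκ₂]; ring
      _ ≤ 2 * Real.exp (-v * x) * (1 - Real.cos (v * y)) := by
          have h7 : 2 / Real.pi ^ 2 * Dp (v * y) ^ 2 ≤ 1 - Real.cos (v * y) := by
            rw [h6]; linarith
          gcongr

/-- choice of the dyadic level -/
lemma level {δ M : ℝ} (hδ : 0 < δ) (hM : M ≤ 4) {L : ℕ} (hL : 1 / δ ≤ 2 ^ L) :
    ∃ i : ℕ, i ≤ L ∧ M ≤ 4 / 2 ^ i ∧ (δ ^ 2 + M ^ 2)⁻¹ ≤ 4 ^ i := by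
  by_cases h : M ≤ 4 / 2 ^ L
  · refine ⟨L, le_rfl, h, ?_⟩
    calc (δ ^ 2 + M ^ 2)⁻¹ ≤ (δ ^ 2)⁻¹ := by
          apply inv_anti₀ (by positivity)
          nlinarith [sq_nonneg M]
      _ = (1 / δ) ^ 2 := by rw [one_div, inv_pow]
      _ ≤ (2 ^ L) ^ 2 := by gcongr
      _ = 4 ^ L := by rw [← pow_mul, mul_comm, pow_mul]; norm_num
  · have hex : ∃ i : ℕ, 4 / 2 ^ i < M := ⟨L, not_le.1 h⟩
    classical
    set n := Nat.find hex with hn
    have h1 : 4 / 2 ^ n < M := Nat.find_spec hex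
    have hn0 : n ≠ 0 := by
      intro h0
      rw [h0] at h1
      simp at h1
      linarith
    obtain ⟨i, hi⟩ := Nat.exists_eq_succ_of_ne_zero hn0
    have hnL : n ≤ L := Nat.find_min' hex (not_le.1 h)
    have h2 : ¬ 4 / 2 ^ i < M := Nat.find_min hex (by rw [← hn, hi]; exact Nat.lt_succ_self i)
    refine ⟨i, by omega, not_lt.1 h2, ?_⟩
    rw [hi, Nat.succ_eq_add_one, pow_succ] at h1
    have h3 : (2 : ℝ) / 2 ^ i < M := by
      have : (4 : ℝ) / (2 ^ i * 2) = 2 / 2 ^ i := by field_simp; norm_num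
      rwa [this] at h1
    have h4 : (4 : ℝ) ^ i = (2 ^ i) ^ 2 := by rw [← pow_mul, mul_comm i 2, pow_mul]; norm_num
    rw [inv_le_comm₀ (by positivity) (by positivity)]
    have h5 : 0 < (2 : ℝ) / 2 ^ i := by positivity
    have h6 : (2 / 2 ^ i : ℝ) ^ 2 ≤ M ^ 2 := by gcongr
    have h7 : ((4 : ℝ) ^ i)⁻¹ ≤ (2 / 2 ^ i : ℝ) ^ 2 := by
      rw [h4, div_pow, inv_eq_one_div]
      gcongr
      norm_num
    nlinarith [sq_nonneg δ]

open Classical in
/-- the product of the factors -/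
lemma prod_bd {r : ℕ} (hr : 2 ≤ r) (D : Fin r → ℝ) (hD4 : ∀ j, D j ≤ 4)
    {δ : ℝ} (hδ : 0 < δ) {L : ℕ} (hL : 1 / δ ≤ 2 ^ L) :
    ∏ j, (δ ^ 2 + D j ^ 2)⁻¹ ≤ ((δ ^ 2)⁻¹) ^ (r - 2) * ∑ i ∈ range (L + 1), 4 ^ i *
      ∑ k, if (∀ j, D j ≤ 4 / 2 ^ i) then (δ ^ 2 + D k ^ 2)⁻¹ else 0 := by
  have : Nonempty (Fin r) := ⟨⟨0, by omega⟩⟩
  have : Nontrivial (Fin r) := Fin.nontrivial_iff_two_le.2 hr
  obtain ⟨m, hm⟩ := Finite.exists_max D
  obtain ⟨k, hk⟩ := exists_ne m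
  obtain ⟨i, hi, hMi, h4i⟩ := level hδ (hD4 m) hL
  set f : Fin r → ℝ := fun j => (δ ^ 2 + D j ^ 2)⁻¹ with hf
  have hf0 : ∀ j, 0 ≤ f j := fun j => by rw [hf]; positivity
  have hfd : ∀ j, f j ≤ (δ ^ 2)⁻¹ := by
    intro j
    apply inv_anti₀ (by positivity)
    nlinarith [sq_nonneg (D j)]
  have h1 : ∏ j, f j = f m * (f k * ∏ j ∈ (univ.erase m).erase k, f j) := by
    rw [Finset.mul_prod_erase (univ.erase m) f (by simp [hk]), Finset.mul_prod_erase univ f (by simp)]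
  have h2 : ∏ j ∈ (univ.erase m).erase k, f j ≤ ((δ ^ 2)⁻¹) ^ (r - 2) := by
    have h3 : ((univ.erase m).erase k : Finset (Fin r)).card = r - 2 := by
      rw [Finset.card_erase_of_mem (by simp [hk]), Finset.card_erase_of_mem (by simp),
        Finset.card_univ, Fintype.card_fin]
      omega
    rw [← h3, ← Finset.prod_const]
    exact Finset.prod_le_prod (fun j _ => hf0 j) fun j _ => hfd j
  have h3 : f k ≤ ∑ k, if (∀ j, D j ≤ 4 / 2 ^ i) then f k else 0 := by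
    have hc : ∀ j, D j ≤ 4 / 2 ^ i := fun j => (hm j).trans hMi
    simp only [if_pos hc]
    exact Finset.single_le_sum (f := f) (fun j _ => hf0 j) (Finset.mem_univ k)
  have h5 : f m * f k ≤ ∑ i ∈ range (L + 1), 4 ^ i *
      ∑ k, if (∀ j, D j ≤ 4 / 2 ^ i) then f k else 0 := by
    have hnn : ∀ i ∈ range (L + 1), 0 ≤ (4 : ℝ) ^ i *
        ∑ k, if (∀ j, D j ≤ 4 / 2 ^ i) then f k else 0 := by
      intro i _
      refine mul_nonneg (by positivity) (Finset.sum_nonneg fun j _ => ?_)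
      split_ifs
      · exact hf0 j
      · exact le_rfl
    refine le_trans ?_ (Finset.single_le_sum hnn (Finset.mem_range.2 (Nat.lt_succ_of_le hi)))
    gcongr
  rw [h1]
  calc f m * (f k * ∏ j ∈ (univ.erase m).erase k, f j)
      = (f m * f k) * ∏ j ∈ (univ.erase m).erase k, f j := by ring
    _ ≤ (∑ i ∈ range (L + 1), 4 ^ i *
      ∑ k, if (∀ j, D j ≤ 4 / 2 ^ i) then f k else 0) * ((δ ^ 2)⁻¹) ^ (r - 2) := by
        refine mul_le_mul h5 h2 (Finset.prod_nonneg fun j _ => hf0 j) ?_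
        exact (mul_nonneg (hf0 m) (hf0 k)).trans h5
    _ = _ := by rw [mul_comm]

/-- cardinality of separated sets -/
lemma sep_card (S : Finset ℤ) {g L : ℝ} (hg : 0 < g) (h0 : ∀ N ∈ S, 0 ≤ N)
    (hL : ∀ N ∈ S, (N : ℝ) ≤ L) (hs : ∀ N ∈ S, ∀ N' ∈ S, N < N' → g ≤ (N' : ℝ) - N) :
    (S.card : ℝ) ≤ 1 + L / g ∨ S = ∅ := by
  rcases S.eq_empty_or_nonempty with h | ⟨N₀, hN₀⟩
  · exact Or.inr h
  left
  have hL0 : 0 ≤ L := by
    have h1 : (0 : ℝ) ≤ N₀ := by exact_mod_cast h0 N₀ hN₀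
    linarith [hL N₀ hN₀]
  have h1 : S.card ≤ (range (⌊L / g⌋₊ + 1)).card := by
    refine Finset.card_le_card_of_injOn (fun N : ℤ => ⌊(N : ℝ) / g⌋₊) ?_ ?_
    · intro N hN
      simp only [Finset.coe_range, Set.mem_Iio, Nat.lt_succ_iff]
      apply Nat.floor_mono
      have := hL N hN
      gcongr
    · intro N hN N' hN' h
      simp only at h
      by_contra hne
      have key : ∀ A ∈ S, ∀ B ∈ S, A < B → ⌊(A : ℝ) / g⌋₊ ≠ ⌊(B : ℝ) / g⌋₊ := by
        intro A hA B hB hAB heq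
        have h3 := hs A hA B hB hAB
        have hA0 : (0 : ℝ) ≤ A := by exact_mod_cast h0 A hA
        have hB0 : (0 : ℝ) ≤ B := by exact_mod_cast h0 B hB
        have h4 : (⌊(A : ℝ) / g⌋₊ : ℝ) ≤ A / g := Nat.floor_le (by positivity)
        have h5 : (B : ℝ) / g < ⌊(B : ℝ) / g⌋₊ + 1 := Nat.lt_floor_add_one _
        rw [heq] at h4
        have h6 : (B : ℝ) / g < A / g + 1 := by linarith
        have h7 : (B : ℝ) < A + g := by
          rw [div_lt_iff₀ hg] at h6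
          have : ((A : ℝ) / g + 1) * g = A + g := by field_simp
          linarith
        linarith
      rcases lt_or_gt_of_ne hne with h2 | h2
      · exact key N hN N' hN' h2 h
      · exact key N' hN' N hN h2 h.symm
  rw [Finset.card_range] at h1
  have h2 : ((S.card : ℕ) : ℝ) ≤ (⌊L / g⌋₊ : ℝ) + 1 := by exact_mod_cast h1
  have h3 : (⌊L / g⌋₊ : ℝ) ≤ L / g := Nat.floor_le (by positivity)
  linarith

/-- the integral of a Lorentz function over a piece of the ray -/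
lemma lor_piece {δ b p q : ℝ} (hδ : 0 < δ) (hb : 0 < b) (N : ℝ) :
    ∫⁻ u in Icc p q, ENNReal.ofReal ((δ ^ 2 + (b * Real.exp (-u) - N) ^ 2)⁻¹) ≤
      ENNReal.ofReal (Real.exp q * (Real.pi / (δ * b))) := by
  set f : ℝ → ENNReal := fun R => ENNReal.ofReal ((δ ^ 2 + (b * R - N) ^ 2)⁻¹) with hf
  have hfull : ∫⁻ R, f R = ENNReal.ofReal (Real.pi / (δ * b)) := by
    have h1 : ∀ R : ℝ, f R = ENNReal.ofReal ((δ ^ 2)⁻¹) *
        ENNReal.ofReal ((1 + (b / δ * R - N / δ) ^ 2)⁻¹) := by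
      intro R
      rw [hf, ← ENNReal.ofReal_mul (by positivity), ← mul_inv]
      congr 2
      have : b / δ * R - N / δ = (b * R - N) / δ := by ring
      rw [this, div_pow]
      field_simp
    simp only [h1]
    rw [lintegral_const_mul _ (by fun_prop), lor (by positivity),
      ← ENNReal.ofReal_mul (by positivity)]
    congr 1
    field_simp
  have himg := lintegral_image_eq_lintegral_abs_deriv_mul (s := Icc p q) measurableSet_Icc
    (f := fun u : ℝ => Real.exp (-u)) (f' := fun u : ℝ => -Real.exp (-u)) (by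
      intro u _
      have h := ((hasDerivAt_id u).neg).exp
      simp only [mul_neg, mul_one] at h
      exact h.hasDerivWithinAt) (by
      intro u _ v _ h
      have := Real.exp_injective h
      linarith) f
  calc ∫⁻ u in Icc p q, f (Real.exp (-u))
      ≤ ∫⁻ u in Icc p q, ENNReal.ofReal (Real.exp q) *
        (ENNReal.ofReal |(-Real.exp (-u))| * f (Real.exp (-u))) := by
        refine setLIntegral_mono' measurableSet_Icc fun u hu => ?_
        rw [← mul_assoc, ← ENNReal.ofReal_mul (Real.exp_pos _).le, abs_neg,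
          abs_of_pos (Real.exp_pos _), ← Real.exp_add]
        have h1 : 1 ≤ ENNReal.ofReal (Real.exp (q + -u)) := by
          rw [ENNReal.one_le_ofReal]
          apply Real.one_le_exp
          linarith [hu.2]
        calc f (Real.exp (-u)) = 1 * f (Real.exp (-u)) := (one_mul _).symm
          _ ≤ _ := by gcongr
    _ = ENNReal.ofReal (Real.exp q) * ∫⁻ R in (fun u : ℝ => Real.exp (-u)) '' Icc p q, f R := by
        rw [lintegral_const_mul' _ _ ENNReal.ofReal_ne_top, himg]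
    _ ≤ ENNReal.ofReal (Real.exp q) * ∫⁻ R, f R := by
        gcongr
        exact Measure.restrict_le_self
    _ = _ := by
        rw [hfull, ← ENNReal.ofReal_mul (Real.exp_pos _).le]

end Pool.Agent.Helper8.Bz
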