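import Pool.Agent.Helper8.Bz.U1
import Pool.Agent.Helper8.Bz.L2

set_option autoImplicit false

/-!
# Mean squares of Barnes zeta functions under a Diophantine condition, part 2: counting
-/

namespace Pool.Agent.Helper8.Bz

open Finset Filter Topology MeasureTheory Complex Set
open Pool.Agent.H131R5.BZ Pool.Agent.Y930.Bz Pool.Agent.Y616.BM

variable {r : ℕ}

/-- The Diophantine condition: if all the `x w_j` are within `h` of integers, then
`x ≥ c h^(-ν)`. -/
def DC (w : Fin r → ℝ) (ν : ℝ) : Prop :=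
  ∀ x₀ : ℝ, 0 < x₀ → ∃ c : ℝ, 0 < c ∧ ∀ x h : ℝ, x₀ ≤ x → 0 < h →
    (∀ j, ∃ N : ℤ, |x * w j - N| ≤ h) → c * h ^ (-ν) ≤ x

lemma DC_zero (w : Fin r → ℝ) : DC w 0 := fun x₀ h => ⟨x₀, h, fun x h hx _ _ => by simpa using hx⟩

lemma DC_of_not_appr {w : Fin r → ℝ} {τ : ℝ} (hτ : 0 < τ) (h : ¬ Appr w τ) : DC w (1 / τ) := by
  unfold Appr at h
  push Not at h
  obtain ⟨X, hX⟩ := h
  intro x₀ hx₀
  set m : ℕ := ⌈max X 1 / x₀⌉₊ + 1 with hm
  have hm1 : (1 : ℝ) ≤ m := by
    rw [hm]; push_cast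
    have : (0 : ℝ) ≤ ⌈max X 1 / x₀⌉₊ := Nat.cast_nonneg _
    linarith
  have hm0 : (0 : ℝ) < m := by linarith
  have hmx : max X 1 ≤ m * x₀ := by
    have h1 := Nat.le_ceil (max X 1 / x₀)
    rw [div_le_iff₀ hx₀] at h1
    have h2 : (m : ℝ) = ⌈max X 1 / x₀⌉₊ + 1 := by rw [hm]; push_cast; ring
    rw [h2]
    nlinarith
  refine ⟨((m : ℝ) ^ (1 + 1 / τ))⁻¹, by positivity, fun x h hx hh hall => ?_⟩
  have hx0 : 0 < x := hx₀.trans_le hx
  have hmx2 : max X 1 ≤ m * x := hmx.trans (by gcongr)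
  obtain ⟨j, hj⟩ := hX (m * x) ((le_max_left _ _).trans hmx2) ((le_max_right _ _).trans hmx2)
  obtain ⟨N, hN⟩ := hall j
  have h1 := hj (m * N)
  have h2 : |(m : ℝ) * x * w j - ((m * N : ℤ) : ℝ)| = m * |x * w j - N| := by
    push_cast
    rw [show (m : ℝ) * x * w j - m * N = m * (x * w j - N) by ring, abs_mul, abs_of_pos hm0]
  rw [h2] at h1
  have h3 : ((m : ℝ) * x) ^ (-τ) < m * h := h1.trans_le (by gcongr)
  have h4 : (m * h : ℝ) ^ (-(1 / τ)) ≤ (((m : ℝ) * x) ^ (-τ)) ^ (-(1 / τ)) :=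
    Real.rpow_le_rpow_of_nonpos (by positivity) h3.le (by
      have : 0 < 1 / τ := by positivity
      linarith)
  have h5 : (((m : ℝ) * x) ^ (-τ)) ^ (-(1 / τ)) = m * x := by
    rw [← Real.rpow_mul (by positivity)]
    have : -τ * -(1 / τ) = 1 := by field_simp
    rw [this, Real.rpow_one]
  rw [h5, Real.mul_rpow hm0.le hh.le] at h4
  have h6 : (m : ℝ) ^ (-(1 / τ)) = ((m : ℝ) ^ (1 / τ))⁻¹ := Real.rpow_neg hm0.le _
  have h7 : (m : ℝ) ^ (1 + 1 / τ) = m * (m : ℝ) ^ (1 / τ) := by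
    rw [Real.rpow_add hm0, Real.rpow_one]
  rw [h6] at h4
  rw [h7]
  have h8 : 0 < (m : ℝ) ^ (1 / τ) := by positivity
  have h9 : 0 < h ^ (-(1 / τ)) := by positivity
  rw [mul_inv, mul_assoc, inv_mul_le_iff₀ hm0]
  exact h4

lemma dist_div {w y h : ℝ} (hD : Dp (w * y) ≤ h) :
    |y / (2 * Real.pi) * w - (round (w * y / (2 * Real.pi)) : ℤ)| ≤ h / (2 * Real.pi) := by
  have hp := Real.pi_pos
  have e : y / (2 * Real.pi) * w - (round (w * y / (2 * Real.pi)) : ℤ) =
      (w * y - 2 * Real.pi * (round (w * y / (2 * Real.pi)) : ℤ)) / (2 * Real.pi) := by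
    field_simp
  rw [e, abs_div, abs_of_pos (by positivity : 0 < 2 * Real.pi)]
  exact div_le_div_of_nonneg_right hD (by positivity)

lemma dist_div2 {w y y' h : ℝ} (hD : Dp (w * y) ≤ h) (hD' : Dp (w * y') ≤ h) :
    |(y' - y) / (2 * Real.pi) * w -
      ((round (w * y' / (2 * Real.pi)) - round (w * y / (2 * Real.pi)) : ℤ) : ℝ)| ≤
        h / Real.pi := by
  have hp := Real.pi_pos
  have h1 := dist_div hD
  have h2 := dist_div hD'
  have e : (y' - y) / (2 * Real.pi) * w -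
      ((round (w * y' / (2 * Real.pi)) - round (w * y / (2 * Real.pi)) : ℤ) : ℝ) =
      (y' / (2 * Real.pi) * w - (round (w * y' / (2 * Real.pi)) : ℤ)) -
        (y / (2 * Real.pi) * w - (round (w * y / (2 * Real.pi)) : ℤ)) := by
    push_cast
    ring
  rw [e]
  refine (abs_sub _ _).trans ?_
  have h3 : h / Real.pi = h / (2 * Real.pi) + h / (2 * Real.pi) := by field_simp; ring
  rw [h3]
  exact add_le_add h2 h1

/-- the count of the indices near which all the factors are small -/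
theorem count {w : Fin r → ℝ} (hw : ∀ j, 0 < w j) {ν : ℝ} (hν : 0 ≤ ν) (hDC : DC w ν) (U : ℝ)
    (k : Fin r) :
    ∃ C : ℝ, 0 < C ∧ ∀ η : ℝ, 0 < η → η ≤ 1 → ∀ m i : ℕ, ∀ S : Finset ℤ,
      (∀ N ∈ S, ∃ u ∈ Icc (U - m - 1) (U - m),
        N = round (w k * (Real.exp (-u) * Real.cos η) / (2 * Real.pi)) ∧
        ∀ j, Dp (w j * (Real.exp (-u) * Real.cos η)) ≤ 4 / 2 ^ i) →
      (S.card : ℝ) ≤ C * Real.exp (m - U) * ((2 : ℝ) ^ i) ^ (-ν) ∧
      (S.Nonempty → ((2 : ℝ) ^ i) ^ ν ≤ C * Real.exp (m - U)) := by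
  have hp := Real.pi_pos
  have hp3 := Real.pi_gt_three
  have hp4 := Real.pi_le_four
  have hc1 : 0 < Real.cos 1 := Real.cos_one_pos
  have hwk := hw k
  set x₀ : ℝ := min (Real.exp (-U) * Real.cos 1 / (2 * Real.pi)) (1 / (2 * w k)) with hx₀
  have hx₀0 : 0 < x₀ := lt_min (by positivity) (by positivity)
  obtain ⟨c, hc, hcD⟩ := hDC x₀ hx₀0
  set C₁ : ℝ := Real.exp 1 / (2 * Real.pi * c) with hC₁
  have hC₁0 : 0 < C₁ := by positivity
  set c₀ : ℝ := (2 : ℝ) ^ (-ν) * min 1 (w k / 2 * c) with hc₀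
  have hc₀0 : 0 < c₀ := by
    have : 0 < min 1 (w k / 2 * c) := lt_min one_pos (by positivity)
    positivity
  set C₂ : ℝ := (w k * Real.exp 1 / (2 * Real.pi) + Real.exp U / 2) / c₀ with hC₂
  have hC₂0 : 0 < C₂ := by positivity
  refine ⟨C₁ + C₂, by positivity, fun η hη hη1 m i S hS => ?_⟩
  set Y : ℝ := Real.exp (m - U) with hY
  have hY0 : 0 < Y := Real.exp_pos _
  set B : ℝ := (2 : ℝ) ^ i with hB
  have hB1 : 1 ≤ B := one_le_pow₀ (by norm_num)
  have hB0 : 0 < B := by linarith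
  have hBν0 : 0 < B ^ ν := by positivity
  set h : ℝ := 4 / B with hh
  have hh0 : 0 < h := by positivity
  have hcη1 : Real.cos η ≤ 1 := Real.cos_le_one _
  have hcη : Real.cos 1 ≤ Real.cos η :=
    Real.cos_le_cos_of_nonneg_of_le_pi hη.le (by linarith) hη1
  have hcη0 : 0 < Real.cos η := hc1.trans_le hcη
  have hYU : Real.exp (-U) ≤ Y := by
    rw [hY]
    apply Real.exp_le_exp.2
    have : (0 : ℝ) ≤ m := Nat.cast_nonneg m
    linarith
  -- bounds for the ordinates
  have hy1 : ∀ u ∈ Icc (U - m - 1) (U - m), Real.exp (-U) * Real.cos 1 ≤ Real.exp (-u) * Real.cos η := by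
    intro u hu
    have : Real.exp (-U) ≤ Real.exp (-u) := by
      apply Real.exp_le_exp.2
      have : (0 : ℝ) ≤ m := Nat.cast_nonneg m
      linarith [hu.2]
    gcongr
  have hy2 : ∀ u ∈ Icc (U - m - 1) (U - m), Real.exp (-u) * Real.cos η ≤ Real.exp 1 * Y := by
    intro u hu
    have : Real.exp (-u) ≤ Real.exp 1 * Y := by
      rw [hY, ← Real.exp_add]
      apply Real.exp_le_exp.2
      linarith [hu.1]
    calc Real.exp (-u) * Real.cos η ≤ Real.exp (-u) * 1 := by gcongr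
      _ ≤ _ := by linarith
  -- nonempty sets
  have hne : S.Nonempty → B ^ ν ≤ C₁ * Y := by
    rintro ⟨N, hN⟩
    obtain ⟨u, hu, -, hD⟩ := hS N hN
    set y := Real.exp (-u) * Real.cos η with hy
    have h1 := hcD (y / (2 * Real.pi)) (h / (2 * Real.pi)) (by
      refine (min_le_left _ _).trans ?_
      have := hy1 u hu
      gcongr) (by positivity) (fun j => ⟨_, dist_div (hD j)⟩)
    have h2 : B ^ ν ≤ (h / (2 * Real.pi)) ^ (-ν) := by
      rw [Real.rpow_neg (by positivity), ← Real.inv_rpow (by positivity)]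
      apply Real.rpow_le_rpow hB0.le _ hν
      rw [hh, inv_div, le_div_iff₀ (by positivity)]
      have : B * (4 / B) = 4 := by field_simp
      rw [this]
      linarith
    have h3 : y / (2 * Real.pi) ≤ Real.exp 1 * Y / (2 * Real.pi) := by
      have := hy2 u hu
      gcongr
    have h4 : c * B ^ ν ≤ Real.exp 1 * Y / (2 * Real.pi) := by
      calc c * B ^ ν ≤ c * (h / (2 * Real.pi)) ^ (-ν) := by gcongr
        _ ≤ _ := h1.trans h3
    have h5 : C₁ * Y = Real.exp 1 * Y / (2 * Real.pi) / c := by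
      rw [hC₁]; field_simp
    rw [h5, le_div_iff₀ hc]
    linarith
  constructor
  swap
  · intro hn
    refine (hne hn).trans ?_
    have : 0 ≤ C₂ * Y := by positivity
    linarith
  -- separation
  have hpos : ∀ N ∈ S, 0 ≤ N := by
    intro N hN
    obtain ⟨u, hu, rfl, -⟩ := hS N hN
    rw [round_eq]
    apply Int.floor_nonneg.2
    have : 0 ≤ w k * (Real.exp (-u) * Real.cos η) / (2 * Real.pi) := by positivity
    linarith
  have hLb : ∀ N ∈ S, (N : ℝ) ≤ w k * Real.exp 1 / (2 * Real.pi) * Y + 1 / 2 := by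
    intro N hN
    obtain ⟨u, hu, rfl, -⟩ := hS N hN
    rw [round_eq]
    have h1 := Int.floor_le (w k * (Real.exp (-u) * Real.cos η) / (2 * Real.pi) + 1 / 2)
    refine h1.trans ?_
    have h2 := hy2 u hu
    have h3 : w k * (Real.exp (-u) * Real.cos η) / (2 * Real.pi) ≤
        w k * (Real.exp 1 * Y) / (2 * Real.pi) := by gcongr
    have h4 : w k * (Real.exp 1 * Y) / (2 * Real.pi) = w k * Real.exp 1 / (2 * Real.pi) * Y := by
      ring
    linarith
  have hsep : ∀ N ∈ S, ∀ N' ∈ S, N < N' → c₀ * B ^ ν ≤ (N' : ℝ) - N := by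
    intro N hN N' hN' hlt
    have h1 : (1 : ℝ) ≤ (N' : ℝ) - N := by
      have : N + 1 ≤ N' := hlt
      have h2 : ((N + 1 : ℤ) : ℝ) ≤ N' := by exact_mod_cast this
      push_cast at h2
      linarith
    have h2ν : 0 < (2 : ℝ) ^ (-ν) := by positivity
    rcases Nat.lt_or_ge i 2 with hi | hi
    · have hB2 : B ≤ 2 := by
        rw [hB]
        calc (2 : ℝ) ^ i ≤ 2 ^ 1 := pow_le_pow_right₀ (by norm_num) (by omega)
          _ = 2 := by norm_num
      have h3 : (2 : ℝ) ^ (-ν) * B ^ ν ≤ 1 := by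
        rw [Real.rpow_neg (by norm_num), inv_mul_le_iff₀ (by positivity), mul_one]
        exact Real.rpow_le_rpow hB0.le hB2 hν
      calc c₀ * B ^ ν ≤ ((2 : ℝ) ^ (-ν) * 1) * B ^ ν := by
            rw [hc₀]
            gcongr
            exact min_le_left _ _
        _ ≤ 1 := by rw [mul_one]; exact h3
        _ ≤ _ := h1
    · have hB4 : 4 ≤ B := by
        rw [hB]
        calc (4 : ℝ) = 2 ^ 2 := by norm_num
          _ ≤ 2 ^ i := pow_le_pow_right₀ (by norm_num) hi
      have hh1 : h ≤ 1 := by rw [hh, div_le_one hB0]; exact hB4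
      obtain ⟨u, hu, hNu, hD⟩ := hS N hN
      obtain ⟨u', hu', hNu', hD'⟩ := hS N' hN'
      set y := Real.exp (-u) * Real.cos η with hy
      set y' := Real.exp (-u') * Real.cos η with hy'
      have hk := dist_div2 (hD k) (hD' k)
      rw [← hNu, ← hNu'] at hk
      push_cast at hk
      have hhp : h / Real.pi ≤ 1 / 3 := by
        rw [div_le_div_iff₀ hp (by norm_num)]
        linarith
      set x := (y' - y) / (2 * Real.pi) with hx
      have hk1 := (abs_le.1 hk).1
      have hk2 := (abs_le.1 hk).2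
      have hxk : 2 / 3 ≤ x * w k := by linarith
      have hx1 : x₀ ≤ x := by
        refine (min_le_right _ _).trans ?_
        rw [div_le_iff₀ (by positivity)]
        linarith
      have h3 := hcD x (h / Real.pi) hx1 (by positivity) (fun j => ⟨_, dist_div2 (hD j) (hD' j)⟩)
      have h4 : (2 : ℝ) ^ (-ν) * B ^ ν ≤ (h / Real.pi) ^ (-ν) := by
        rw [Real.rpow_neg (by positivity : 0 ≤ h / Real.pi), ← Real.inv_rpow (by positivity),
          Real.rpow_neg (by norm_num : (0 : ℝ) ≤ 2), ← Real.inv_rpow (by norm_num),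
          ← Real.mul_rpow (by norm_num) hB0.le]
        apply Real.rpow_le_rpow (by positivity) _ hν
        rw [hh, inv_div, le_div_iff₀ (by positivity)]
        have : 2⁻¹ * B * (4 / B) = 2 := by field_simp; norm_num
        rw [this]
        linarith
      have h5 : x * w k ≤ 2 * ((N' : ℝ) - N) := by linarith
      calc c₀ * B ^ ν ≤ ((2 : ℝ) ^ (-ν) * (w k / 2 * c)) * B ^ ν := by
            rw [hc₀]
            gcongr
            exact min_le_right _ _
        _ = w k / 2 * (c * ((2 : ℝ) ^ (-ν) * B ^ ν)) := by ring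
        _ ≤ w k / 2 * (c * (h / Real.pi) ^ (-ν)) := by gcongr
        _ ≤ w k / 2 * x := by gcongr
        _ ≤ _ := by linarith
  have hg0 : 0 < c₀ * B ^ ν := by positivity
  have hBneg : B ^ (-ν) = (B ^ ν)⁻¹ := Real.rpow_neg hB0.le _
  rcases sep_card S hg0 hpos hLb hsep with hcard | hempty
  swap
  · rw [hempty]
    simp only [Finset.card_empty, Nat.cast_zero]
    positivity
  rcases S.eq_empty_or_nonempty with hem | hne2
  · rw [hem]
    simp only [Finset.card_empty, Nat.cast_zero]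
    positivity
  have h1 : 1 ≤ C₁ * Y * B ^ (-ν) := by
    rw [hBneg, ← div_eq_mul_inv, le_div_iff₀ hBν0, one_mul]
    exact hne hne2
  have h2 : (w k * Real.exp 1 / (2 * Real.pi) * Y + 1 / 2) / (c₀ * B ^ ν) ≤
      C₂ * Y * B ^ (-ν) := by
    have h3 : 1 / 2 ≤ Real.exp U / 2 * Y := by
      have h4 : Real.exp U * Real.exp (-U) = 1 := by rw [← Real.exp_add]; simp
      have h5 : Real.exp U * Real.exp (-U) ≤ Real.exp U * Y := by gcongr
      linarith
    calc _ ≤ (w k * Real.exp 1 / (2 * Real.pi) * Y + Real.exp U / 2 * Y) / (c₀ * B ^ ν) := by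
          gcongr
      _ = C₂ * Y * B ^ (-ν) := by
          rw [hC₂, hBneg]
          field_simp
  calc (S.card : ℝ) ≤ 1 + _ := hcard
    _ ≤ C₁ * Y * B ^ (-ν) + C₂ * Y * B ^ (-ν) := add_le_add h1 h2
    _ = _ := by ring

end Pool.Agent.Helper8.Bz
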