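import Pool.Agent.Helper8.Bz.U2

set_option autoImplicit false

/-!
# Mean squares of Barnes zeta functions under a Diophantine condition, part 3: one piece of the ray
-/

namespace Pool.Agent.Helper8.Bz

open Finset Filter Topology MeasureTheory Complex Set
open Pool.Agent.H131R5.BZ Pool.Agent.Y930.Bz Pool.Agent.Y616.BM

lemma lint_sum_le {ι : Type*} {P : Set ℝ} (s : Finset ι) (f : ι → ℝ → ℝ) (B : ι → ℝ)
    (hf : ∀ i ∈ s, ∀ u, 0 ≤ f i u) (hm : ∀ i ∈ s, Measurable (f i))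
    (hB0 : ∀ i ∈ s, 0 ≤ B i)
    (hB : ∀ i ∈ s, ∫⁻ u in P, ENNReal.ofReal (f i u) ≤ ENNReal.ofReal (B i)) :
    ∫⁻ u in P, ENNReal.ofReal (∑ i ∈ s, f i u) ≤ ENNReal.ofReal (∑ i ∈ s, B i) := by
  have h1 : ∀ u, ENNReal.ofReal (∑ i ∈ s, f i u) = ∑ i ∈ s, ENNReal.ofReal (f i u) := fun u =>
    ENNReal.ofReal_sum_of_nonneg fun i hi => hf i hi u
  simp only [h1]
  rw [lintegral_finsetSum' _ (fun i hi => (hm i hi).ennreal_ofReal.aemeasurable),
    ENNReal.ofReal_sum_of_nonneg hB0]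
  exact Finset.sum_le_sum hB

lemma lint_mul_le {P : Set ℝ} {c : ℝ} (hc : 0 ≤ c) {f : ℝ → ℝ} {B : ℝ}
    (hB : ∫⁻ u in P, ENNReal.ofReal (f u) ≤ ENNReal.ofReal B) :
    ∫⁻ u in P, ENNReal.ofReal (c * f u) ≤ ENNReal.ofReal (c * B) := by
  simp only [ENNReal.ofReal_mul hc]
  rw [lintegral_const_mul' _ _ ENNReal.ofReal_ne_top]
  gcongr

lemma lint_triple {P : Set ℝ} {r : ℕ} (L : ℕ) (S : Fin r → ℕ → Finset ℤ)
    (g : Fin r → ℤ → ℝ → ℝ) (hg0 : ∀ k N u, 0 ≤ g k N u) (hgm : ∀ k N, Measurable (g k N))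
    (G : Fin r → ℝ) (hG0 : ∀ k, 0 ≤ G k)
    (hG : ∀ k N, ∫⁻ u in P, ENNReal.ofReal (g k N u) ≤ ENNReal.ofReal (G k)) :
    ∫⁻ u in P, ENNReal.ofReal (∑ i ∈ range (L + 1), 4 ^ i * ∑ k, ∑ N ∈ S k i, g k N u) ≤
      ENNReal.ofReal (∑ i ∈ range (L + 1), 4 ^ i * ∑ k, ∑ _N ∈ S k i, G k) := by
  have h1 : ∀ k i, ∫⁻ u in P, ENNReal.ofReal (∑ N ∈ S k i, g k N u) ≤
      ENNReal.ofReal (∑ _N ∈ S k i, G k) := fun k i =>
    lint_sum_le (S k i) (fun N u => g k N u) (fun _ => G k) (fun N _ u => hg0 k N u)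
      (fun N _ => hgm k N) (fun N _ => hG0 k) (fun N _ => hG k N)
  have h2 : ∀ i, ∫⁻ u in P, ENNReal.ofReal (∑ k, ∑ N ∈ S k i, g k N u) ≤
      ENNReal.ofReal (∑ k, ∑ _N ∈ S k i, G k) := fun i =>
    lint_sum_le univ (fun k u => ∑ N ∈ S k i, g k N u) (fun k => ∑ _N ∈ S k i, G k)
      (fun k _ u => Finset.sum_nonneg fun N _ => hg0 k N u)
      (fun k _ => Finset.measurable_fun_sum _ fun N _ => hgm k N)
      (fun k _ => Finset.sum_nonneg fun N _ => hG0 k) (fun k _ => h1 k i)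
  exact lint_sum_le (range (L + 1)) (fun i u => 4 ^ i * ∑ k, ∑ N ∈ S k i, g k N u)
    (fun i => 4 ^ i * ∑ k, ∑ _N ∈ S k i, G k)
    (fun i _ u => mul_nonneg (pow_nonneg (by norm_num) _)
      (Finset.sum_nonneg fun k _ => Finset.sum_nonneg fun N _ => hg0 k N u))
    (fun i _ => (Finset.measurable_fun_sum _ fun k _ =>
        Finset.measurable_fun_sum _ fun N _ => hgm k N).const_mul _)
    (fun i _ => mul_nonneg (pow_nonneg (by norm_num) _)
      (Finset.sum_nonneg fun k _ => Finset.sum_nonneg fun N _ => hG0 k))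
    (fun i _ => lint_mul_le (pow_nonneg (by norm_num) _) (h2 i))

variable {r : ℕ}

open Classical in
/-- the square integral over one piece of the ray -/
theorem piece (hr : 2 ≤ r) {a : ℝ} (ha : 0 < a) {w : Fin r → ℝ} (hw : ∀ j, 0 < w j) {ν : ℝ}
    (hν : 0 ≤ ν) (hDC : DC w ν) (U : ℝ) {σ : ℝ} (hσ : 0 ≤ σ) :
    ∃ C : ℝ, 0 < C ∧ ∀ T : ℝ, 1 ≤ T → ∀ m : ℕ, Real.exp (m - U) ≤ 2 * T → ∀ L : ℕ,
      2 * T / Real.exp (m - U) ≤ 2 ^ L →
      ∫⁻ u in Icc (U - m - 1) (U - m), ‖KK a w (zr u (1 / T))‖ₑ ^ 2 *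
        ENNReal.ofReal (Real.exp (-(2 * σ) * u)) ≤
      ENNReal.ofReal (C * (Real.exp (m - U) ^ (2 * σ) * (2 * T / Real.exp (m - U)) ^ (2 * (r - 2) + 1)
        * ∑ i ∈ range (L + 1),
          if ((2 : ℝ) ^ i) ^ ν ≤ C * Real.exp (m - U) then 4 ^ i * ((2 : ℝ) ^ i) ^ (-ν) else 0)) := by
  have hp := Real.pi_pos
  have hc1 : 0 < Real.cos 1 := Real.cos_one_pos
  choose κ hκ0 hκ using fun j => fac_lower (hw j) (X₁ := 6) (by norm_num)
  choose Cc hCc0 hCc using fun k => count hw hν hDC U k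
  set K₀ : ℝ := ∏ j, (κ j)⁻¹ with hK₀
  have hK₀0 : 0 < K₀ := Finset.prod_pos fun j _ => inv_pos.2 (hκ0 j)
  set C₁ : ℝ := ∑ k, Cc k with hC₁
  have hC₁0 : 0 ≤ C₁ := Finset.sum_nonneg fun k _ => (hCc0 k).le
  set C₂ : ℝ := ∑ k, Cc k * (Real.pi / (w k * Real.cos 1)) with hC₂
  have hC₂0 : 0 ≤ C₂ := Finset.sum_nonneg fun k _ => by
    have := hCc0 k; have := hw k; positivity
  set C : ℝ := C₁ + 1 + Real.exp (2 * σ) * K₀ * C₂ with hC
  have hCC₂ : Real.exp (2 * σ) * K₀ * C₂ ≤ C := by rw [hC]; linarith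
  have hCC₁ : C₁ ≤ C := by
    have : 0 ≤ Real.exp (2 * σ) * K₀ * C₂ := by positivity
    rw [hC]; linarith
  refine ⟨C, by positivity, fun T hT m hmT L hL => ?_⟩
  have hT0 : 0 < T := by linarith
  set Y : ℝ := Real.exp (m - U) with hY
  have hY0 : 0 < Y := Real.exp_pos _
  set η : ℝ := 1 / T with hη
  have hη0 : 0 < η := by positivity
  have hη1 : η ≤ 1 := by rw [hη, div_le_one hT0]; exact hT
  set δ : ℝ := Y / (2 * T) with hδ
  have hδ0 : 0 < δ := by positivity
  have hδinv : 1 / δ = 2 * T / Y := by rw [hδ, one_div_div]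
  have hcη : Real.cos 1 ≤ Real.cos η :=
    Real.cos_le_cos_of_nonneg_of_le_pi hη0.le (by linarith [Real.pi_gt_three]) hη1
  have hcη0 : 0 < Real.cos η := hc1.trans_le hcη
  -- the sets of indices
  set P : Set ℝ := Icc (U - m - 1) (U - m) with hP
  set S : Fin r → ℕ → Finset ℤ := fun k i =>
    (Finset.Icc (0 : ℤ) ⌊w k * (Real.exp 1 * Y) / (2 * Real.pi) + 1 / 2⌋).filter
      (fun N => ∃ u ∈ P, N = round (w k * (Real.exp (-u) * Real.cos η) / (2 * Real.pi)) ∧
        ∀ j, Dp (w j * (Real.exp (-u) * Real.cos η)) ≤ 4 / 2 ^ i) with hS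
  have hScount := fun k i => hCc k η hη0 hη1 m i (S k i) (by
    intro N hN
    exact (Finset.mem_filter.1 hN).2)
  have hY1 : ∀ u ∈ P, Y ≤ Real.exp (-u) := by
    intro u hu
    rw [hY]
    apply Real.exp_le_exp.2
    linarith [hu.2]
  have hY2 : ∀ u ∈ P, Real.exp (-u) ≤ Real.exp 1 * Y := by
    intro u hu
    rw [hY, ← Real.exp_add]
    apply Real.exp_le_exp.2
    linarith [hu.1]
  set g : Fin r → ℤ → ℝ → ℝ := fun k N u =>
    (δ ^ 2 + (w k * Real.cos η * Real.exp (-u) - 2 * Real.pi * N) ^ 2)⁻¹ with hg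
  have hg0 : ∀ k N u, 0 ≤ g k N u := fun k N u => by rw [hg]; positivity
  have hgm : ∀ k N, Measurable (g k N) := fun k N => by
    rw [hg]
    exact (by fun_prop : Continuous fun u : ℝ =>
      δ ^ 2 + (w k * Real.cos η * Real.exp (-u) - 2 * Real.pi * N) ^ 2).measurable.inv
  -- the pointwise bound
  have hpt : ∀ u ∈ P, ‖KK a w (zr u η)‖ₑ ^ 2 * ENNReal.ofReal (Real.exp (-(2 * σ) * u)) ≤
      ENNReal.ofReal (Real.exp (2 * σ) * Y ^ (2 * σ) * (K₀ * ((δ ^ 2)⁻¹) ^ (r - 2)) *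
        ∑ i ∈ range (L + 1), 4 ^ i * ∑ k, ∑ N ∈ S k i, g k N u) := by
    intro u hu
    set x : ℝ := Real.exp (-u) * Real.sin η with hx
    set y : ℝ := Real.exp (-u) * Real.cos η with hy
    have hsin := sin_ge hη0.le hη1
    have hzr : zr u η = (x : ℂ) + y * I := zr_eq u η
    have hre : (zr u η).re = x := by rw [hzr]; simp
    have hxδ : δ ≤ x := by
      have h1 := hY1 u hu
      calc δ = Y * (η / 2) := by rw [hδ, hη]; field_simp
        _ ≤ Real.exp (-u) * Real.sin η := by gcongr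
    have hx0 : 0 < x := hδ0.trans_le hxδ
    have hx6 : x ≤ 6 := by
      have h1 := hY2 u hu
      have h2 := Real.sin_le hη0.le
      have h3 := Real.exp_one_lt_d9
      calc x ≤ Real.exp 1 * Y * η := by
            rw [hx]
            have : 0 ≤ Real.sin η := by linarith
            gcongr
        _ ≤ Real.exp 1 * (2 * T) * η := by gcongr
        _ = Real.exp 1 * 2 := by rw [hη]; field_simp
        _ ≤ 6 := by linarith
    have hprod : ∏ j, fac (w j) (zr u η) ≤
        ENNReal.ofReal (K₀ * ∏ j, (δ ^ 2 + Dp (w j * y) ^ 2)⁻¹) := by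
      rw [hK₀, ← Finset.prod_mul_distrib, ENNReal.ofReal_prod_of_nonneg (fun j _ => by
        have := hκ0 j; positivity)]
      refine Finset.prod_le_prod' fun j _ => ?_
      unfold fac
      apply ENNReal.ofReal_le_ofReal
      rw [hzr, ← mul_inv]
      apply inv_anti₀ (by have := hκ0 j; positivity)
      exact hκ j x y δ hδ0 hxδ hx6
    have hbd := prod_bd hr (fun j => Dp (w j * y)) (fun j => Dp_le_four _) hδ0 (L := L)
      (by rw [hδinv]; exact hL)
    have hin : ∀ i k, (if (∀ j, Dp (w j * y) ≤ 4 / 2 ^ i) then (δ ^ 2 + Dp (w k * y) ^ 2)⁻¹ else 0) ≤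
        ∑ N ∈ S k i, g k N u := by
      intro i k
      split_ifs with hcond
      · set N₀ : ℤ := round (w k * y / (2 * Real.pi)) with hN₀
        have hmem : N₀ ∈ S k i := by
          rw [hS, Finset.mem_filter, Finset.mem_Icc]
          have hwk := hw k
          have hy0 : 0 ≤ y := by positivity
          refine ⟨⟨?_, ?_⟩, u, hu, rfl, hcond⟩
          · rw [hN₀, round_eq]
            apply Int.floor_nonneg.2
            have : 0 ≤ w k * y / (2 * Real.pi) := by positivity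
            linarith
          · rw [hN₀, round_eq]
            apply Int.floor_le_floor
            have h1 : y ≤ Real.exp 1 * Y := by
              calc y ≤ Real.exp (-u) * 1 := by
                    rw [hy]
                    gcongr
                    exact Real.cos_le_one _
                _ ≤ _ := by rw [mul_one]; exact hY2 u hu
            gcongr
        refine le_trans (le_of_eq ?_) (Finset.single_le_sum (f := fun N => g k N u)
          (fun N _ => hg0 k N u) hmem)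
        show _ = (δ ^ 2 + (w k * Real.cos η * Real.exp (-u) - 2 * Real.pi * N₀) ^ 2)⁻¹
        unfold Dp
        rw [sq_abs, ← hN₀, hy]
        congr 4
        ring
      · exact Finset.sum_nonneg fun N _ => hg0 k N u
    have hsum : ∏ j, (δ ^ 2 + Dp (w j * y) ^ 2)⁻¹ ≤ ((δ ^ 2)⁻¹) ^ (r - 2) *
        ∑ i ∈ range (L + 1), 4 ^ i * ∑ k, ∑ N ∈ S k i, g k N u := by
      refine hbd.trans ?_
      refine mul_le_mul_of_nonneg_left ?_ (by positivity)
      refine Finset.sum_le_sum fun i _ => ?_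
      refine mul_le_mul_of_nonneg_left ?_ (by positivity)
      exact Finset.sum_le_sum fun k _ => hin i k
    have hsum0 : 0 ≤ ∑ i ∈ range (L + 1), (4 : ℝ) ^ i * ∑ k, ∑ N ∈ S k i, g k N u :=
      Finset.sum_nonneg fun i _ => mul_nonneg (by positivity)
        (Finset.sum_nonneg fun k _ => Finset.sum_nonneg fun N _ => hg0 k N u)
    have hexp : Real.exp (-(2 * σ) * u) ≤ Real.exp (2 * σ) * Y ^ (2 * σ) := by
      rw [hY, ← Real.exp_mul, ← Real.exp_add]
      apply Real.exp_le_exp.2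
      have h1 := hu.1
      nlinarith [mul_le_mul_of_nonneg_left h1 (by linarith : 0 ≤ 2 * σ)]
    have hexp2 : Real.exp (-(2 * a) * x) ≤ 1 := Real.exp_le_one_iff.2 (by nlinarith)
    rw [KK_enorm, hre]
    clear hin hbd
    generalize (∑ i ∈ range (L + 1), (4 : ℝ) ^ i * ∑ k, ∑ N ∈ S k i, g k N u) = SS at hsum hsum0 ⊢
    have hq1 : 0 ≤ K₀ * (((δ ^ 2)⁻¹) ^ (r - 2) * SS) :=
      mul_nonneg hK₀0.le (mul_nonneg (pow_nonneg (inv_nonneg.2 (sq_nonneg δ)) _) hsum0)
    calc _ ≤ (1 * ENNReal.ofReal (K₀ * (((δ ^ 2)⁻¹) ^ (r - 2) * SS))) *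
          ENNReal.ofReal (Real.exp (2 * σ) * Y ^ (2 * σ)) := by
          refine mul_le_mul' (mul_le_mul' ?_ ?_) (ENNReal.ofReal_le_ofReal hexp)
          · rw [ENNReal.ofReal_le_one]; exact hexp2
          · exact hprod.trans (ENNReal.ofReal_le_ofReal (mul_le_mul_of_nonneg_left hsum hK₀0.le))
      _ = _ := by
          rw [one_mul, ← ENNReal.ofReal_mul hq1]
          congr 1
          ring
  -- integration
  have hint : ∫⁻ u in P, ENNReal.ofReal (Real.exp (2 * σ) * Y ^ (2 * σ) *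
      (K₀ * ((δ ^ 2)⁻¹) ^ (r - 2)) *
        ∑ i ∈ range (L + 1), 4 ^ i * ∑ k, ∑ N ∈ S k i, g k N u) ≤
      ENNReal.ofReal (Real.exp (2 * σ) * Y ^ (2 * σ) * (K₀ * ((δ ^ 2)⁻¹) ^ (r - 2)) *
        ∑ i ∈ range (L + 1), 4 ^ i * ∑ k, ∑ _N ∈ S k i,
          Y⁻¹ * (Real.pi / (δ * (w k * Real.cos η)))) := by
    refine lint_mul_le (by positivity) ?_
    refine lint_triple L S g hg0 hgm (fun k => Y⁻¹ * (Real.pi / (δ * (w k * Real.cos η)))) ?_ ?_
    · intro k
      have := hw k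
      positivity
    intro k N
    have hwk := hw k
    have h1 := lor_piece (p := U - m - 1) (q := U - m) hδ0 (b := w k * Real.cos η)
      (by positivity) (2 * Real.pi * N)
    have h2 : Real.exp (U - m) = Y⁻¹ := by
      rw [hY, ← Real.exp_neg]; congr 1; ring
    rw [h2] at h1
    exact h1
  calc _ ≤ _ := setLIntegral_mono' measurableSet_Icc hpt
    _ ≤ _ := hint
    _ ≤ _ := by
      apply ENNReal.ofReal_le_ofReal
      have hterm : ∀ i ∈ range (L + 1), (4 : ℝ) ^ i * ∑ k, ∑ _N ∈ S k i,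
          Y⁻¹ * (Real.pi / (δ * (w k * Real.cos η))) ≤
          (C₂ / δ) * (if ((2 : ℝ) ^ i) ^ ν ≤ C * Y then 4 ^ i * ((2 : ℝ) ^ i) ^ (-ν) else 0) := by
        intro i _
        have hk : ∀ k : Fin r, ∑ _N ∈ S k i, Y⁻¹ * (Real.pi / (δ * (w k * Real.cos η))) ≤
            Cc k * (Real.pi / (w k * Real.cos 1)) / δ *
              (if ((2 : ℝ) ^ i) ^ ν ≤ C * Y then ((2 : ℝ) ^ i) ^ (-ν) else 0) := by
          intro k
          have hwk := hw k
          have hCk := hCc0 k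
          obtain ⟨hc1', hc2'⟩ := hScount k i
          rw [Finset.sum_const, nsmul_eq_mul]
          split_ifs with hcond
          · calc ((S k i).card : ℝ) * (Y⁻¹ * (Real.pi / (δ * (w k * Real.cos η))))
                ≤ (Cc k * Y * ((2 : ℝ) ^ i) ^ (-ν)) *
                  (Y⁻¹ * (Real.pi / (δ * (w k * Real.cos 1)))) := by gcongr
              _ = _ := by field_simp
          · have hemp : S k i = ∅ := by
              by_contra hne
              apply hcond
              refine (hc2' (Finset.nonempty_iff_ne_empty.2 hne)).trans ?_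
              have : Cc k ≤ C₁ := Finset.single_le_sum (f := Cc) (fun k _ => (hCc0 k).le)
                (Finset.mem_univ k)
              have h3 : Cc k ≤ C := this.trans hCC₁
              gcongr
            rw [hemp]
            simp
        calc (4 : ℝ) ^ i * ∑ k, ∑ _N ∈ S k i, Y⁻¹ * (Real.pi / (δ * (w k * Real.cos η)))
            ≤ 4 ^ i * ∑ k, Cc k * (Real.pi / (w k * Real.cos 1)) / δ *
              (if ((2 : ℝ) ^ i) ^ ν ≤ C * Y then ((2 : ℝ) ^ i) ^ (-ν) else 0) :=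
              mul_le_mul_of_nonneg_left (Finset.sum_le_sum fun k _ => hk k) (by positivity)
          _ = _ := by
              rw [← Finset.sum_mul, ← Finset.sum_div, ← hC₂]
              split_ifs <;> ring
      have hsg0 : 0 ≤ ∑ i ∈ range (L + 1),
          (if ((2 : ℝ) ^ i) ^ ν ≤ C * Y then (4 : ℝ) ^ i * ((2 : ℝ) ^ i) ^ (-ν) else 0) := by
        refine Finset.sum_nonneg fun i _ => ?_
        split_ifs
        · positivity
        · exact le_rfl
      have hδp : ((δ ^ 2)⁻¹) ^ (r - 2) / δ = (2 * T / Y) ^ (2 * (r - 2) + 1) := by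
        rw [← hδinv, one_div, ← inv_pow, ← pow_mul, pow_succ, div_eq_mul_inv]
      calc _ ≤ Real.exp (2 * σ) * Y ^ (2 * σ) * (K₀ * ((δ ^ 2)⁻¹) ^ (r - 2)) *
            ∑ i ∈ range (L + 1), (C₂ / δ) *
              (if ((2 : ℝ) ^ i) ^ ν ≤ C * Y then 4 ^ i * ((2 : ℝ) ^ i) ^ (-ν) else 0) := by
            refine mul_le_mul_of_nonneg_left (Finset.sum_le_sum hterm) (by positivity)
        _ = Real.exp (2 * σ) * K₀ * C₂ * (Y ^ (2 * σ) * (((δ ^ 2)⁻¹) ^ (r - 2) / δ) *
            ∑ i ∈ range (L + 1),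
              (if ((2 : ℝ) ^ i) ^ ν ≤ C * Y then 4 ^ i * ((2 : ℝ) ^ i) ^ (-ν) else 0)) := by
            rw [← Finset.mul_sum]
            ring
        _ ≤ _ := by
            rw [hδp]
            gcongr

end Pool.Agent.Helper8.Bz
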