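import Pool.Agent.Helper8.Bz.U4

set_option autoImplicit false

/-!
# Mean squares of Barnes zeta functions under a Diophantine condition, part 5: the second moment
-/

namespace Pool.Agent.Helper8.Bz

open Finset Filter Topology MeasureTheory Complex Set Asymptotics
open Pool.Agent.H131R5.BZ Pool.Agent.Y930.Bz Pool.Agent.Y616.BM

variable {r : ℕ}

/-- the second moment of the continuation under the Diophantine condition -/
theorem second_moment3 (hr : 2 ≤ r) {a : ℝ} (ha : 0 < a) {w : Fin r → ℝ} (hw : ∀ j, 0 < w j)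
    {ν : ℝ} (hν : 0 ≤ ν) (hDC : DC w ν) {c : ℕ → ℂ}
    (hc : Tay a w c) {σ m : ℝ} (hσ2 : 1 / 2 ≤ σ) (hσm : σ ≤ m) (hm : (r : ℝ) - 3 / 2 ≤ m)
    {ε : ℝ} (hε : 0 < ε) :
    ∃ C : ℝ, 0 ≤ C ∧ ∀ T : ℝ, 1 ≤ T → ∫⁻ t in Icc 1 T, ‖FF a w c ((σ : ℂ) + t * I)‖ₑ ^ 2 ≤
      ENNReal.ofReal (C * T ^ (2 * (m - σ) + max 1 (2 * (r - m) / (1 + ν)) + ε)) := by
  obtain ⟨C₁, U, hC₁, hz⟩ := zone ha hw hc hσ2
  obtain ⟨C₂, hC₂, hJ⟩ := JJ_bound hr ha hw hν hDC U (σ := m) (by linarith) hm hε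
  set Q : ℝ := max 1 (2 * (r - m) / (1 + ν)) with hQ
  have hQ1 : 1 ≤ Q := le_max_left _ _
  set τ : ℝ := 2 * (m - σ) + Q + ε with hτ
  have hτ1 : 1 ≤ τ := by rw [hτ]; linarith
  set E : ℝ := Real.exp (2 * (m - σ) * U) with hE
  have hE0 : 0 < E := Real.exp_pos _
  have hpiece : ∀ n : ℕ, ∫⁻ t in Icc ((2 : ℝ) ^ n) (2 * 2 ^ n),
      ‖FF a w c ((σ : ℂ) + t * I)‖ₑ ^ 2 ≤
      ENNReal.ofReal ((C₁ + C₁ * E * C₂) * ((2 : ℝ) ^ n) ^ τ) := by
    intro n
    set T : ℝ := (2 : ℝ) ^ n with hT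
    have hT1 : 1 ≤ T := one_le_pow₀ (by norm_num)
    have hT0 : 0 < T := by positivity
    have h2 := hz T hT1
    have hη0 : 0 < 1 / T := by positivity
    have hη1 : 1 / T ≤ 1 := by rw [div_le_one hT0]; exact hT1
    have h3 := JJ_mono (w := w) (σ := σ) (σ' := m) (le_refl a) hσm (le_refl U) hη0 hη1
    have h4 := hJ T hT1
    calc _ ≤ _ := h2
      _ ≤ ENNReal.ofReal (C₁ * T) + ENNReal.ofReal (C₁ * T ^ (1 - 2 * σ)) *
          (ENNReal.ofReal E * ENNReal.ofReal (C₂ * T ^ (2 * m - 1 + Q + ε))) := by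
          gcongr
          exact h3.trans (by gcongr)
      _ = ENNReal.ofReal (C₁ * T + C₁ * E * C₂ *
          T ^ ((1 - 2 * σ) + (2 * m - 1 + Q + ε))) := by
          have e1 : T ^ ((1 - 2 * σ) + (2 * m - 1 + Q + ε)) =
              T ^ (1 - 2 * σ) * T ^ (2 * m - 1 + Q + ε) := Real.rpow_add hT0 _ _
          rw [← ENNReal.ofReal_mul hE0.le, ← ENNReal.ofReal_mul (by positivity),
            ← ENNReal.ofReal_add (by positivity) (by positivity), e1]
          congr 1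
          ring
      _ ≤ _ := by
          apply ENNReal.ofReal_le_ofReal
          have h5 : T ≤ T ^ τ := by
            calc T = T ^ (1 : ℝ) := (Real.rpow_one T).symm
              _ ≤ T ^ τ := Real.rpow_le_rpow_of_exponent_le hT1 hτ1
          have h6 : (1 - 2 * σ) + (2 * m - 1 + Q + ε) = τ := by rw [hτ]; ring
          rw [h6]
          calc _ ≤ C₁ * T ^ τ + C₁ * E * C₂ * T ^ τ := by gcongr
            _ = _ := by ring
  have hdy := dyadic (fun t : ℝ => ‖FF a w c ((σ : ℂ) + t * I)‖ₑ ^ 2)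
    (C := C₁ + C₁ * E * C₂) (τ := τ) (by positivity) hτ1 hpiece
  refine ⟨(C₁ + C₁ * E * C₂) * 2 ^ τ, by positivity, fun T hT => ?_⟩
  obtain ⟨n, hn1, hn2⟩ := exists_nat_pow_near hT (one_lt_two)
  calc _ ≤ ∫⁻ t in Icc 1 ((2 : ℝ) ^ (n + 1)), ‖FF a w c ((σ : ℂ) + t * I)‖ₑ ^ 2 :=
        lintegral_mono_set (Icc_subset_Icc_right hn2.le)
    _ ≤ _ := hdy (n + 1)
    _ ≤ _ := by
        apply ENNReal.ofReal_le_ofReal
        have h1 : ((2 : ℝ) ^ (n + 1)) ^ τ ≤ (T * 2) ^ τ := by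
          apply Real.rpow_le_rpow (by positivity) _ (by linarith)
          rw [pow_succ]
          linarith
        rw [Real.mul_rpow (by linarith) (by norm_num)] at h1
        have h2 : 0 ≤ C₁ + C₁ * E * C₂ := by positivity
        calc _ ≤ (C₁ + C₁ * E * C₂) * (T ^ τ * 2 ^ τ) := by gcongr
          _ = _ := by ring

/-- from the Lebesgue integral to the interval integral -/
lemma bigO_of_lint {f : ℝ → ℂ} (hf : ContinuousOn f (Ici 1)) {C κ : ℝ} (hC : 0 ≤ C)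
    (h : ∀ T : ℝ, 1 ≤ T → ∫⁻ t in Icc 1 T, ‖f t‖ₑ ^ 2 ≤ ENNReal.ofReal (C * T ^ κ)) :
    (fun T : ℝ => ∫ t in (1 : ℝ)..T, ‖f t‖ ^ 2) =O[atTop] fun T : ℝ => T ^ κ := by
  refine IsBigO.of_bound C ?_
  filter_upwards [eventually_ge_atTop (1 : ℝ)] with T hT
  have hT0 : 0 < T := by linarith
  have h0 : 0 ≤ ∫ t in (1 : ℝ)..T, ‖f t‖ ^ 2 :=
    intervalIntegral.integral_nonneg hT fun t _ => by positivity
  rw [Real.norm_eq_abs, Real.norm_eq_abs, abs_of_nonneg h0,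
    abs_of_nonneg (Real.rpow_nonneg hT0.le _), intervalIntegral.integral_of_le hT]
  have hc : ContinuousOn (fun t => ‖f t‖ ^ 2) (Icc 1 T) :=
    ((hf.mono Icc_subset_Ici_self).norm).pow 2
  rw [← integral_Icc_eq_integral_Ioc, integral_eq_lintegral_of_nonneg_ae
    (ae_of_all _ fun t => by positivity) (hc.aestronglyMeasurable measurableSet_Icc)]
  apply ENNReal.toReal_le_of_le_ofReal (by positivity)
  refine le_trans (le_of_eq ?_) (h T hT)
  refine lintegral_congr fun t => ?_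
  rw [ENNReal.ofReal_pow (norm_nonneg _), ofReal_norm]

end Pool.Agent.Helper8.Bz
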