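import Pool.Agent.Helper8.Bz.U5

set_option autoImplicit false

/-!
# Mean squares of Barnes zeta functions: the exact exponent
-/

namespace Pool.Agent.Helper8.Bz

open Finset Filter Topology MeasureTheory Complex Set Asymptotics
open Pool.Agent.H131R5.BZ Pool.Agent.Y930.Bz Pool.Agent.Y616.BM

variable {r : ℕ} {a : ℝ} {w : Fin r → ℝ}

/-- the upper bound for the mean square -/
theorem ms_upper (hr : 2 ≤ r) (ha : 0 < a) (hw : ∀ j, 0 < w j) {Z : ℂ → ℂ}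
    (hZ : ∀ s ∈ Om r, DifferentiableAt ℂ Z s)
    (hs : ∀ s : ℂ, (r : ℝ) < s.re → Z s = ∑' m : Fin r → ℕ, ((lam a w m : ℝ) : ℂ) ^ (-s))
    {ν : ℝ} (hν : 0 ≤ ν) (hDC : DC w ν) {σ : ℝ} (hσ : 1 / 2 ≤ σ) (hσr : (r : ℝ) - 3 / 2 ≤ σ)
    {κ : ℝ} (hκ : max 1 (2 * (r - σ) / (1 + ν)) < κ) :
    (fun T : ℝ => ∫ t in (1 : ℝ)..T, ‖Z ((σ : ℂ) + (t : ℂ) * I)‖ ^ 2)
      =O[atTop] fun T : ℝ => T ^ κ := by
  obtain ⟨c, hc⟩ := exists_taylor a hw
  set Q := max 1 (2 * (r - σ) / (1 + ν)) with hQ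
  obtain ⟨C, hC, h⟩ := second_moment3 hr ha hw hν hDC hc hσ le_rfl hσr (ε := κ - Q)
    (by linarith)
  have e : 2 * (σ - σ) + Q + (κ - Q) = κ := by ring
  rw [← hQ, e] at h
  have hZc : ContinuousOn (fun t : ℝ => Z ((σ : ℂ) + (t : ℂ) * I)) (Ici 1) := by
    intro t ht
    have h1 : DifferentiableAt ℂ Z ((σ : ℂ) + (t : ℂ) * I) :=
      hZ _ (mem_Om_of_im (by simpa using ht))
    exact (ContinuousAt.comp (g := Z) (f := fun t : ℝ => (σ : ℂ) + (t : ℂ) * I) h1.continuousAt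
        (by fun_prop)).continuousWithinAt
  refine bigO_of_lint hZc hC fun T hT => ?_
  refine le_trans (le_of_eq ?_) (h T hT)
  refine setLIntegral_congr_fun measurableSet_Icc fun t ht => ?_
  rw [eq_FF ha hw hc hZ hs _ (mem_Om_of_im (by simpa using ht.1))]

/-- the lower bound for the mean square -/
theorem ms_lower (ha : 0 < a) (hw : ∀ j, 0 < w j) {Z : ℂ → ℂ}
    (hZ : ∀ s ∈ Om r, DifferentiableAt ℂ Z s)
    (hs : ∀ s : ℂ, (r : ℝ) < s.re → Z s = ∑' m : Fin r → ℕ, ((lam a w m : ℝ) : ℂ) ^ (-s))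
    {σ : ℝ} (hσ : 1 / 2 < σ) {κ : ℝ} (hκ : 0 ≤ κ)
    (h : ∀ ε : ℝ, 0 < ε → (fun T : ℝ => ∫ t in (1 : ℝ)..T, ‖Z ((σ : ℂ) + (t : ℂ) * I)‖ ^ 2)
      =O[atTop] fun T : ℝ => T ^ (κ + ε)) {τ : ℝ} (hτ : 0 < τ) (hA : Appr w τ) :
    2 * (r - σ) * τ / (1 + τ) ≤ κ := by
  by_contra hcon
  push Not at hcon
  have hrσ : 0 < (r : ℝ) - σ := by
    by_contra hneg
    push Not at hneg
    have : 2 * (r - σ) * τ / (1 + τ) ≤ 0 := by
      apply div_nonpos_of_nonpos_of_nonneg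
      · nlinarith
      · linarith
    linarith
  set ε : ℝ := (2 * (r - σ) * τ / (1 + τ) - κ) / 2 with hε
  have hε0 : 0 < ε := by rw [hε]; linarith
  refine not_moment2 ha hw hτ hA hZ hs (n := 2) (by norm_num) hσ (by linarith) (κ := κ + ε)
    (by linarith) ?_ (h ε hε0)
  have e : 1 + ((2 : ℕ) : ℝ) * (τ * (r - σ) / (1 + τ) - 1 / 2) = 2 * (r - σ) * τ / (1 + τ) := by
    push_cast; ring
  rw [e, hε]
  linarith

/-- the exact exponent -/
theorem ms_iff (hr : 2 ≤ r) (ha : 0 < a) (hw : ∀ j, 0 < w j) {Z : ℂ → ℂ}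
    (hZ : ∀ s ∈ Om r, DifferentiableAt ℂ Z s)
    (hs : ∀ s : ℂ, (r : ℝ) < s.re → Z s = ∑' m : Fin r → ℕ, ((lam a w m : ℝ) : ℂ) ^ (-s))
    {σ : ℝ} (hσ : 1 / 2 < σ) (hσr : (r : ℝ) - 3 / 2 ≤ σ) {κ : ℝ} (hκ : 1 ≤ κ) :
    (∀ ε : ℝ, 0 < ε → (fun T : ℝ => ∫ t in (1 : ℝ)..T, ‖Z ((σ : ℂ) + (t : ℂ) * I)‖ ^ 2)
      =O[atTop] fun T : ℝ => T ^ (κ + ε)) ↔
    ∀ τ : ℝ, 0 < τ → Appr w τ → 2 * (r - σ) * τ / (1 + τ) ≤ κ := by
  constructor
  · intro h τ hτ hA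
    exact ms_lower ha hw hZ hs hσ (by linarith) h hτ hA
  · intro h ε hε
    set P : ℝ := 2 * (r - σ) with hP
    by_cases hPκ : P ≤ κ
    · refine ms_upper hr ha hw hZ hs le_rfl (DC_zero w) hσ.le hσr ?_
      rw [add_zero, div_one]
      exact max_lt (by linarith) (by linarith)
    · push Not at hPκ
      obtain ⟨κ', h1, h2⟩ := exists_between (lt_min hPκ (by linarith : κ < κ + ε))
      have h3 : κ' < P := h2.trans_le (min_le_left _ _)
      have h4 : κ' < κ + ε := h2.trans_le (min_le_right _ _)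
      have hκ'0 : 0 < κ' := by linarith
      have hPκ' : 0 < P - κ' := by linarith
      set τ : ℝ := κ' / (P - κ') with hτ
      have hτ0 : 0 < τ := by positivity
      have hval : P * τ / (1 + τ) = κ' := by
        rw [hτ]
        have : P ≠ 0 := by linarith
        field_simp
        ring
      have hnA : ¬ Appr w τ := by
        intro hA
        have := h τ hτ0 hA
        rw [hval] at this
        linarith
      refine ms_upper hr ha hw hZ hs (by positivity : 0 ≤ 1 / τ) (DC_of_not_appr hτ0 hnA) hσ.le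
        hσr ?_
      have e : P / (1 + 1 / τ) = P * τ / (1 + τ) := by
        field_simp
        ring
      rw [← hP, e, hval]
      exact max_lt (by linarith) h4

/-- large values are rare under the Diophantine condition -/
theorem rare (hr : 2 ≤ r) (ha : 0 < a) (hw : ∀ j, 0 < w j) {Z : ℂ → ℂ}
    (hZ : ∀ s ∈ Om r, DifferentiableAt ℂ Z s)
    (hs : ∀ s : ℂ, (r : ℝ) < s.re → Z s = ∑' m : Fin r → ℕ, ((lam a w m : ℝ) : ℂ) ^ (-s))
    {m : ℝ} (hm : 1 ≤ m) (hmr : (r : ℝ) - 3 / 2 ≤ m) {κ : ℝ} (hκ : 1 ≤ κ)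
    (h : ∀ τ : ℝ, 0 < τ → Appr w τ → 2 * (r - m) * τ / (1 + τ) ≤ κ) (σ₁ : ℝ) {η ε : ℝ}
    (hη : 0 ≤ η) (hε : 0 < ε) :
    ∃ C : ℝ, ∀ T : ℝ, 2 ≤ T →
      volume {t : ℝ | T ≤ t ∧ t ≤ 2 * T ∧ ∃ σ : ℝ, m ≤ σ ∧ σ ≤ σ₁ ∧
        t ^ η < ‖Z (σ + t * I)‖} ≤ ENNReal.ofReal (C * T ^ (κ - 2 * η + ε)) := by
  obtain ⟨c, hc⟩ := exists_taylor a hw
  -- a Diophantine condition with a suitable exponent
  obtain ⟨ν, hν, hDC, hνκ⟩ : ∃ ν : ℝ, 0 ≤ ν ∧ DC w ν ∧
      max 1 (2 * (r - m) / (1 + ν)) ≤ κ + ε / 2 := by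
    set P : ℝ := 2 * (r - m) with hP
    by_cases hPκ : P ≤ κ
    · refine ⟨0, le_rfl, DC_zero w, ?_⟩
      rw [add_zero, div_one]
      exact max_le (by linarith) (by linarith)
    · push Not at hPκ
      obtain ⟨κ', h1, h2⟩ := exists_between (lt_min hPκ (by linarith : κ < κ + ε / 2))
      have h3 : κ' < P := h2.trans_le (min_le_left _ _)
      have h4 : κ' < κ + ε / 2 := h2.trans_le (min_le_right _ _)
      have hκ'0 : 0 < κ' := by linarith
      have hPκ' : 0 < P - κ' := by linarith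
      set τ : ℝ := κ' / (P - κ') with hτ
      have hτ0 : 0 < τ := by positivity
      have hval : P * τ / (1 + τ) = κ' := by
        rw [hτ]
        have : P ≠ 0 := by linarith
        field_simp
        ring
      have hnA : ¬ Appr w τ := by
        intro hA
        have := h τ hτ0 hA
        rw [hval] at this
        linarith
      refine ⟨1 / τ, by positivity, DC_of_not_appr hτ0 hnA, ?_⟩
      have e : P / (1 + 1 / τ) = P * τ / (1 + τ) := by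
        field_simp
        ring
      rw [e, hval]
      exact max_le (by linarith) h4.le
  set Q : ℝ := max 1 (2 * (r - m) / (1 + ν)) with hQ
  have hQ1 : 1 ≤ Q := le_max_left _ _
  set θ : ℝ := min (ε / 8) (1 / 2) with hθ
  have hθ0 : 0 < θ := lt_min (by positivity) (by norm_num)
  have hθ1 : θ ≤ 1 / 2 := min_le_right _ _
  have hθε : θ ≤ ε / 8 := min_le_left _ _
  obtain ⟨C₀, hC₀, h1⟩ := second_moment3 hr ha hw hν hDC hc (σ := m - θ) (m := m)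
    (by linarith) (by linarith) hmr (ε := ε / 4) (by positivity)
  have e1 : 2 * (m - (m - θ)) + Q + ε / 4 = 2 * θ + Q + ε / 4 := by ring
  rw [e1] at h1
  obtain ⟨C, hC, h2⟩ := bad_measure (σ₁ := σ₁) ha hw hc (α := m - θ)
    (by linarith) hθ0 (by linarith) (by linarith) hC₀ h1 hη
  refine ⟨C, fun T hT => ?_⟩
  have hT1 : 1 ≤ T := by linarith
  calc _ ≤ volume {t : ℝ | t ∈ Set.Icc T (2 * T) ∧ ∃ σ : ℝ, (m - θ) + θ ≤ σ ∧ σ ≤ σ₁ ∧
        t ^ η < ‖FF a w c ((σ : ℂ) + t * I)‖} := by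
        refine measure_mono ?_
        rintro t ⟨ht1, ht2, σ, hσ, hσ1, hbig⟩
        refine ⟨⟨ht1, ht2⟩, σ, by linarith, hσ1, ?_⟩
        rw [← eq_FF ha hw hc hZ hs _ (mem_Om_of_im (by simp; linarith))]
        exact hbig
    _ ≤ ENNReal.ofReal (C * T ^ (2 * θ + Q + ε / 4 - 2 * η)) := h2 T hT
    _ ≤ _ := by
        apply ENNReal.ofReal_le_ofReal
        refine mul_le_mul_of_nonneg_left ?_ hC
        exact Real.rpow_le_rpow_of_exponent_le hT1 (by linarith)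

end Pool.Agent.Helper8.Bz
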