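import Pool.Agent.Helper8.Bz.U4
import Pool.Graph.R_pool_sql_team_seeded_1acbe0a2.Y616.BM.Lin3

set_option autoImplicit false

/-!
# Pointwise bounds for Barnes zeta functions under a Diophantine condition, part 1
-/

namespace Pool.Agent.Helper8.Bz

open Finset Filter Topology MeasureTheory Complex Set
open Pool.Agent.H131R5.BZ Pool.Agent.Y930.Bz Pool.Agent.Y616.BM

open Classical in
/-- the product of the factors, general form -/
lemma prod_gen {r : ℕ} (hr : 2 ≤ r) (D f : Fin r → ℝ) {Δ : ℝ} (hf0 : ∀ j, 0 ≤ f j)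
    (hfd : ∀ j, f j ≤ Δ) {L : ℕ} (lev : ℕ → ℝ) (hlev0 : ∀ i, 0 ≤ lev i)
    (hlev : ∀ m, ∃ i : ℕ, i ≤ L ∧ D m ≤ 4 / 2 ^ i ∧ f m ≤ lev i) :
    ∏ j, f j ≤ Δ ^ (r - 2) * ∑ i ∈ range (L + 1), lev i *
      ∑ k, if (∀ j, D j ≤ 4 / 2 ^ i) then f k else 0 := by
  have : Nonempty (Fin r) := ⟨⟨0, by omega⟩⟩
  have : Nontrivial (Fin r) := Fin.nontrivial_iff_two_le.2 hr
  obtain ⟨m, hm⟩ := Finite.exists_max D
  obtain ⟨k, hk⟩ := exists_ne m
  obtain ⟨i, hi, hMi, h4i⟩ := hlev m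
  have h1 : ∏ j, f j = f m * (f k * ∏ j ∈ (univ.erase m).erase k, f j) := by
    rw [Finset.mul_prod_erase (univ.erase m) f (by simp [hk]), Finset.mul_prod_erase univ f (by simp)]
  have h2 : ∏ j ∈ (univ.erase m).erase k, f j ≤ Δ ^ (r - 2) := by
    have h3 : ((univ.erase m).erase k : Finset (Fin r)).card = r - 2 := by
      rw [Finset.card_erase_of_mem (by simp [hk]), Finset.card_erase_of_mem (by simp),
        Finset.card_univ, Fintype.card_fin]
      omega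
    rw [← h3, ← Finset.prod_const]
    exact Finset.prod_le_prod (fun j _ => hf0 j) fun j _ => hfd j
  have h3 : f k ≤ ∑ k, if (∀ j, D j ≤ 4 / 2 ^ i) then f k else 0 := by
    have hc : ∀ j, D j ≤ 4 / 2 ^ i := fun j => (hm j).trans hMi
    simp only [if_pos hc]
    exact Finset.single_le_sum (f := f) (fun j _ => hf0 j) (Finset.mem_univ k)
  have h5 : f m * f k ≤ ∑ i ∈ range (L + 1), lev i *
      ∑ k, if (∀ j, D j ≤ 4 / 2 ^ i) then f k else 0 := by
    have hnn : ∀ i ∈ range (L + 1), 0 ≤ lev i *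
        ∑ k, if (∀ j, D j ≤ 4 / 2 ^ i) then f k else 0 := by
      intro i _
      refine mul_nonneg (hlev0 i) (Finset.sum_nonneg fun j _ => ?_)
      split_ifs
      · exact hf0 j
      · exact le_rfl
    refine le_trans ?_ (Finset.single_le_sum hnn (Finset.mem_range.2 (Nat.lt_succ_of_le hi)))
    exact mul_le_mul h4i h3 (hf0 k) (hlev0 i)
  rw [h1]
  calc f m * (f k * ∏ j ∈ (univ.erase m).erase k, f j)
      = (f m * f k) * ∏ j ∈ (univ.erase m).erase k, f j := by ring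
    _ ≤ (∑ i ∈ range (L + 1), lev i *
      ∑ k, if (∀ j, D j ≤ 4 / 2 ^ i) then f k else 0) * Δ ^ (r - 2) := by
        refine mul_le_mul h5 h2 (Finset.prod_nonneg fun j _ => hf0 j) ?_
        exact (mul_nonneg (hf0 m) (hf0 k)).trans h5
    _ = _ := by rw [mul_comm]

open Classical in
/-- the product of the factors, first power -/
lemma prod_bd1 {r : ℕ} (hr : 2 ≤ r) (D : Fin r → ℝ) (hD4 : ∀ j, D j ≤ 4)
    {δ : ℝ} (hδ : 0 < δ) {L : ℕ} (hL : 1 / δ ≤ 2 ^ L) :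
    ∏ j, (Real.sqrt (δ ^ 2 + D j ^ 2))⁻¹ ≤ (δ⁻¹) ^ (r - 2) * ∑ i ∈ range (L + 1), 2 ^ i *
      ∑ k, if (∀ j, D j ≤ 4 / 2 ^ i) then (Real.sqrt (δ ^ 2 + D k ^ 2))⁻¹ else 0 := by
  refine prod_gen hr D (fun j => (Real.sqrt (δ ^ 2 + D j ^ 2))⁻¹) (fun j => by positivity)
    (fun j => ?_) (fun i => 2 ^ i) (fun i => by positivity) (fun m => ?_)
  · apply inv_anti₀ hδ
    apply Real.le_sqrt_of_sq_le
    nlinarith [sq_nonneg (D j)]
  · obtain ⟨i, hi, h1, h2⟩ := level hδ (hD4 m) hL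
    refine ⟨i, hi, h1, ?_⟩
    have h3 : (Real.sqrt (δ ^ 2 + D m ^ 2))⁻¹ = Real.sqrt ((δ ^ 2 + D m ^ 2)⁻¹) := by
      rw [Real.sqrt_inv]
    rw [h3]
    apply Real.sqrt_le_iff.2
    refine ⟨by positivity, h2.trans (le_of_eq ?_)⟩
    rw [← pow_mul, mul_comm i 2, pow_mul]
    norm_num

/-- the integral of a power of a Lorentz function over a piece of the ray -/
lemma lor_piece1 {θ : ℝ} (hθ : 0 < θ) : ∃ G : ℝ, 0 ≤ G ∧ ∀ {δ b p q : ℝ}, 0 < δ → 0 < b →
    ∀ N : ℝ,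
    ∫⁻ u in Icc p q, ENNReal.ofReal ((δ ^ 2 + (b * Real.exp (-u) - N) ^ 2) ^ (-(1 + θ) / 2)) ≤
      ENNReal.ofReal (Real.exp q * (G * δ ^ (-θ) / b)) := by
  obtain ⟨G, hG, hGl⟩ := lor1 hθ
  refine ⟨G, hG, fun {δ b p q} hδ hb N => ?_⟩
  set f : ℝ → ENNReal := fun R => ENNReal.ofReal ((δ ^ 2 + (b * R - N) ^ 2) ^ (-(1 + θ) / 2))
    with hf
  have hfull : ∫⁻ R, f R = ENNReal.ofReal (G * δ ^ (-θ) / b) := by
    have h1 : ∀ R : ℝ, f R = ENNReal.ofReal (δ ^ (-(1 + θ))) *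
        ENNReal.ofReal ((1 + (b / δ * R - N / δ) ^ 2) ^ (-(1 + θ) / 2)) := by
      intro R
      rw [hf, ← ENNReal.ofReal_mul (by positivity)]
      have e1 : δ ^ (-(1 + θ)) = (δ ^ 2) ^ (-(1 + θ) / 2) := by
        rw [← Real.rpow_natCast, ← Real.rpow_mul hδ.le]
        congr 1
        push_cast
        ring
      have e2 : b / δ * R - N / δ = (b * R - N) / δ := by ring
      simp only
      rw [e1, ← Real.mul_rpow (by positivity) (by positivity), e2, div_pow]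
      congr 2
      field_simp
    simp only [h1]
    rw [lintegral_const_mul' _ _ ENNReal.ofReal_ne_top, hGl _ (by positivity),
      ← ENNReal.ofReal_mul (by positivity)]
    congr 1
    have e2 : δ ^ (-(1 + θ)) * δ = δ ^ (-θ) := by
      nth_rewrite 2 [← Real.rpow_one δ]
      rw [← Real.rpow_add hδ]
      congr 1
      ring
    rw [← e2]
    field_simp
  have himg := lintegral_image_eq_lintegral_abs_deriv_mul (s := Icc p q) measurableSet_Icc
    (f := fun u : ℝ => Real.exp (-u)) (f' := fun u : ℝ => -Real.exp (-u)) (by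
      intro u _
      have h := ((hasDerivAt_id u).neg).exp
      simp only [mul_neg, mul_one] at h
      exact h.hasDerivWithinAt) (by
      intro u _ v _ h
      have := Real.exp_injective h
      linarith) f
  calc ∫⁻ u in Icc p q, f (Real.exp (-u))
      ≤ ∫⁻ u in Icc p q, ENNReal.ofReal (Real.exp q) *
        (ENNReal.ofReal |(-Real.exp (-u))| * f (Real.exp (-u))) := by
        refine setLIntegral_mono' measurableSet_Icc fun u hu => ?_
        rw [← mul_assoc, ← ENNReal.ofReal_mul (Real.exp_pos _).le, abs_neg,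
          abs_of_pos (Real.exp_pos _), ← Real.exp_add]
        have h1 : 1 ≤ ENNReal.ofReal (Real.exp (q + -u)) := by
          rw [ENNReal.one_le_ofReal]
          apply Real.one_le_exp
          linarith [hu.2]
        calc f (Real.exp (-u)) = 1 * f (Real.exp (-u)) := (one_mul _).symm
          _ ≤ _ := by gcongr
    _ = ENNReal.ofReal (Real.exp q) * ∫⁻ R in (fun u : ℝ => Real.exp (-u)) '' Icc p q, f R := by
        rw [lintegral_const_mul' _ _ ENNReal.ofReal_ne_top, himg]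
    _ ≤ ENNReal.ofReal (Real.exp q) * ∫⁻ R, f R := by
        gcongr
        exact Measure.restrict_le_self
    _ = _ := by
        rw [hfull, ← ENNReal.ofReal_mul (Real.exp_pos _).le]

/-- comparison of the powers -/
lemma sqrt_inv_le {δ D θ : ℝ} (hδ : 0 < δ) (hδ1 : δ ≤ 1) (hD : |D| ≤ 4) (hθ : 0 ≤ θ) :
    (Real.sqrt (δ ^ 2 + D ^ 2))⁻¹ ≤ 17 ^ (θ / 2) * (δ ^ 2 + D ^ 2) ^ (-(1 + θ) / 2) := by
  set S := δ ^ 2 + D ^ 2 with hS
  have hS0 : 0 < S := by positivity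
  have hS17 : S ≤ 17 := by
    have h1 : D ^ 2 ≤ 16 := by
      rw [← sq_abs]
      nlinarith [abs_nonneg D]
    have h2 : δ ^ 2 ≤ 1 := by nlinarith
    linarith
  have e1 : (Real.sqrt S)⁻¹ = S ^ (θ / 2) * S ^ (-(1 + θ) / 2) := by
    rw [Real.sqrt_eq_rpow, ← Real.rpow_neg hS0.le, ← Real.rpow_add hS0]
    congr 1
    ring
  rw [e1]
  gcongr

lemma lint_triple1 {P : Set ℝ} {r : ℕ} (L : ℕ) (S : Fin r → ℕ → Finset ℤ)
    (g : Fin r → ℤ → ℝ → ℝ) (hg0 : ∀ k N u, 0 ≤ g k N u) (hgm : ∀ k N, Measurable (g k N))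
    (G : Fin r → ℝ) (hG0 : ∀ k, 0 ≤ G k)
    (hG : ∀ k N, ∫⁻ u in P, ENNReal.ofReal (g k N u) ≤ ENNReal.ofReal (G k)) :
    ∫⁻ u in P, ENNReal.ofReal (∑ i ∈ range (L + 1), 2 ^ i * ∑ k, ∑ N ∈ S k i, g k N u) ≤
      ENNReal.ofReal (∑ i ∈ range (L + 1), 2 ^ i * ∑ k, ∑ _N ∈ S k i, G k) := by
  have h1 : ∀ k i, ∫⁻ u in P, ENNReal.ofReal (∑ N ∈ S k i, g k N u) ≤
      ENNReal.ofReal (∑ _N ∈ S k i, G k) := fun k i =>
    lint_sum_le (S k i) (fun N u => g k N u) (fun _ => G k) (fun N _ u => hg0 k N u)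
      (fun N _ => hgm k N) (fun N _ => hG0 k) (fun N _ => hG k N)
  have h2 : ∀ i, ∫⁻ u in P, ENNReal.ofReal (∑ k, ∑ N ∈ S k i, g k N u) ≤
      ENNReal.ofReal (∑ k, ∑ _N ∈ S k i, G k) := fun i =>
    lint_sum_le univ (fun k u => ∑ N ∈ S k i, g k N u) (fun k => ∑ _N ∈ S k i, G k)
      (fun k _ u => Finset.sum_nonneg fun N _ => hg0 k N u)
      (fun k _ => Finset.measurable_fun_sum _ fun N _ => hgm k N)
      (fun k _ => Finset.sum_nonneg fun N _ => hG0 k) (fun k _ => h1 k i)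
  exact lint_sum_le (range (L + 1)) (fun i u => 2 ^ i * ∑ k, ∑ N ∈ S k i, g k N u)
    (fun i => 2 ^ i * ∑ k, ∑ _N ∈ S k i, G k)
    (fun i _ u => mul_nonneg (pow_nonneg (by norm_num) _)
      (Finset.sum_nonneg fun k _ => Finset.sum_nonneg fun N _ => hg0 k N u))
    (fun i _ => (Finset.measurable_fun_sum _ fun k _ =>
        Finset.measurable_fun_sum _ fun N _ => hgm k N).const_mul _)
    (fun i _ => mul_nonneg (pow_nonneg (by norm_num) _)
      (Finset.sum_nonneg fun k _ => Finset.sum_nonneg fun N _ => hG0 k))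
    (fun i _ => lint_mul_le (pow_nonneg (by norm_num) _) (h2 i))

end Pool.Agent.Helper8.Bz
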