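import Pool.Agent.Helper8.Bz.V1

set_option autoImplicit false

/-!
# Pointwise bounds for Barnes zeta functions under a Diophantine condition, part 2: one piece
-/

namespace Pool.Agent.Helper8.Bz

open Finset Filter Topology MeasureTheory Complex Set
open Pool.Agent.H131R5.BZ Pool.Agent.Y930.Bz Pool.Agent.Y616.BM

variable {r : ℕ}

open Classical in
/-- the integral over one piece of the ray -/
theorem piece1 (hr : 2 ≤ r) {a : ℝ} (ha : 0 < a) {w : Fin r → ℝ} (hw : ∀ j, 0 < w j) {ν : ℝ}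
    (hν : 0 ≤ ν) (hDC : DC w ν) (U : ℝ) {σ : ℝ} (hσ : 0 ≤ σ) {θ : ℝ} (hθ : 0 < θ) :
    ∃ C : ℝ, 0 < C ∧ ∀ T : ℝ, 1 ≤ T → ∀ m : ℕ, Real.exp (m - U) ≤ 2 * T → ∀ L : ℕ,
      2 * T / Real.exp (m - U) ≤ 2 ^ L →
      ∫⁻ u in Icc (U - m - 1) (U - m), ‖KK a w (zr u (1 / T))‖ₑ *
        ENNReal.ofReal (Real.exp (-σ * u)) ≤
      ENNReal.ofReal (C * (Real.exp (m - U) ^ σ * ((2 * T / Real.exp (m - U)) ^ (r - 2) *
        (2 * T / Real.exp (m - U)) ^ θ)
        * ∑ i ∈ range (L + 1),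
          if ((2 : ℝ) ^ i) ^ ν ≤ C * Real.exp (m - U) then 2 ^ i * ((2 : ℝ) ^ i) ^ (-ν) else 0)) := by
  have hp := Real.pi_pos
  have hc1 : 0 < Real.cos 1 := Real.cos_one_pos
  choose κ hκ0 hκ using fun j => fac_lower (hw j) (X₁ := 6) (by norm_num)
  choose Cc hCc0 hCc using fun k => count hw hν hDC U k
  obtain ⟨Gθ, hGθ0, hGθ⟩ := lor_piece1 hθ
  set K₀ : ℝ := ∏ j, (Real.sqrt (κ j))⁻¹ with hK₀
  have hK₀0 : 0 < K₀ := Finset.prod_pos fun j _ => inv_pos.2 (Real.sqrt_pos.2 (hκ0 j))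
  set C₁ : ℝ := ∑ k, Cc k with hC₁
  have hC₁0 : 0 ≤ C₁ := Finset.sum_nonneg fun k _ => (hCc0 k).le
  set C₂ : ℝ := ∑ k, Cc k * (17 ^ (θ / 2) * (Gθ / (w k * Real.cos 1))) with hC₂
  have hC₂0 : 0 ≤ C₂ := Finset.sum_nonneg fun k _ => by
    have := hCc0 k; have := hw k; positivity
  set C : ℝ := C₁ + 1 + Real.exp σ * K₀ * C₂ with hC
  have hCC₂ : Real.exp σ * K₀ * C₂ ≤ C := by rw [hC]; linarith
  have hCC₁ : C₁ ≤ C := by
    have : 0 ≤ Real.exp σ * K₀ * C₂ := by positivity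
    rw [hC]; linarith
  refine ⟨C, by positivity, fun T hT m hmT L hL => ?_⟩
  have hT0 : 0 < T := by linarith
  set Y : ℝ := Real.exp (m - U) with hY
  have hY0 : 0 < Y := Real.exp_pos _
  set η : ℝ := 1 / T with hη
  have hη0 : 0 < η := by positivity
  have hη1 : η ≤ 1 := by rw [hη, div_le_one hT0]; exact hT
  set δ : ℝ := Y / (2 * T) with hδ
  have hδ0 : 0 < δ := by positivity
  have hδ1 : δ ≤ 1 := by rw [hδ, div_le_one (by positivity)]; exact hmT
  have hδinv : 1 / δ = 2 * T / Y := by rw [hδ, one_div_div]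
  have hcη : Real.cos 1 ≤ Real.cos η :=
    Real.cos_le_cos_of_nonneg_of_le_pi hη0.le (by linarith [Real.pi_gt_three]) hη1
  have hcη0 : 0 < Real.cos η := hc1.trans_le hcη
  -- the sets of indices
  set P : Set ℝ := Icc (U - m - 1) (U - m) with hP
  set S : Fin r → ℕ → Finset ℤ := fun k i =>
    (Finset.Icc (0 : ℤ) ⌊w k * (Real.exp 1 * Y) / (2 * Real.pi) + 1 / 2⌋).filter
      (fun N => ∃ u ∈ P, N = round (w k * (Real.exp (-u) * Real.cos η) / (2 * Real.pi)) ∧
        ∀ j, Dp (w j * (Real.exp (-u) * Real.cos η)) ≤ 4 / 2 ^ i) with hS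
  have hScount := fun k i => hCc k η hη0 hη1 m i (S k i) (by
    intro N hN
    exact (Finset.mem_filter.1 hN).2)
  have hY1 : ∀ u ∈ P, Y ≤ Real.exp (-u) := by
    intro u hu
    rw [hY]
    apply Real.exp_le_exp.2
    linarith [hu.2]
  have hY2 : ∀ u ∈ P, Real.exp (-u) ≤ Real.exp 1 * Y := by
    intro u hu
    rw [hY, ← Real.exp_add]
    apply Real.exp_le_exp.2
    linarith [hu.1]
  set g : Fin r → ℤ → ℝ → ℝ := fun k N u => 17 ^ (θ / 2) *
    (δ ^ 2 + (w k * Real.cos η * Real.exp (-u) - 2 * Real.pi * N) ^ 2) ^ (-(1 + θ) / 2) with hg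
  have hg0 : ∀ k N u, 0 ≤ g k N u := fun k N u => by rw [hg]; positivity
  have hgm : ∀ k N, Measurable (g k N) := fun k N => by
    rw [hg]
    fun_prop
  -- the pointwise bound
  have hpt : ∀ u ∈ P, ‖KK a w (zr u η)‖ₑ * ENNReal.ofReal (Real.exp (-σ * u)) ≤
      ENNReal.ofReal (Real.exp σ * Y ^ σ * (K₀ * (δ⁻¹) ^ (r - 2)) *
        ∑ i ∈ range (L + 1), 2 ^ i * ∑ k, ∑ N ∈ S k i, g k N u) := by
    intro u hu
    set x : ℝ := Real.exp (-u) * Real.sin η with hx
    set y : ℝ := Real.exp (-u) * Real.cos η with hy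
    have hsin := sin_ge hη0.le hη1
    have hzr : zr u η = (x : ℂ) + y * I := zr_eq u η
    have hre : (zr u η).re = x := by rw [hzr]; simp
    have hxδ : δ ≤ x := by
      have h1 := hY1 u hu
      calc δ = Y * (η / 2) := by rw [hδ, hη]; field_simp
        _ ≤ Real.exp (-u) * Real.sin η := by gcongr
    have hx0 : 0 < x := hδ0.trans_le hxδ
    have hx6 : x ≤ 6 := by
      have h1 := hY2 u hu
      have h2 := Real.sin_le hη0.le
      have h3 := Real.exp_one_lt_d9
      calc x ≤ Real.exp 1 * Y * η := by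
            rw [hx]
            have : 0 ≤ Real.sin η := by linarith
            gcongr
        _ ≤ Real.exp 1 * (2 * T) * η := by gcongr
        _ = Real.exp 1 * 2 := by rw [hη]; field_simp
        _ ≤ 6 := by linarith
    have hprod : ∏ j, fac1 (w j) (zr u η) ≤
        ENNReal.ofReal (K₀ * ∏ j, (Real.sqrt (δ ^ 2 + Dp (w j * y) ^ 2))⁻¹) := by
      rw [hK₀, ← Finset.prod_mul_distrib, ENNReal.ofReal_prod_of_nonneg (fun j _ => by
        positivity)]
      refine Finset.prod_le_prod' fun j _ => ?_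
      unfold fac1
      apply ENNReal.ofReal_le_ofReal
      have hk0 := hκ0 j
      rw [hzr, ← mul_inv, ← Real.sqrt_mul hk0.le]
      apply inv_anti₀ (by positivity)
      apply Real.sqrt_le_iff.2
      exact ⟨norm_nonneg _, hκ j x y δ hδ0 hxδ hx6⟩
    have hbd := prod_bd1 hr (fun j => Dp (w j * y)) (fun j => Dp_le_four _) hδ0 (L := L)
      (by rw [hδinv]; exact hL)
    have hin : ∀ i k, (if (∀ j, Dp (w j * y) ≤ 4 / 2 ^ i) then
        (Real.sqrt (δ ^ 2 + Dp (w k * y) ^ 2))⁻¹ else 0) ≤ ∑ N ∈ S k i, g k N u := by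
      intro i k
      split_ifs with hcond
      · set N₀ : ℤ := round (w k * y / (2 * Real.pi)) with hN₀
        have hmem : N₀ ∈ S k i := by
          rw [hS, Finset.mem_filter, Finset.mem_Icc]
          have hwk := hw k
          have hy0 : 0 ≤ y := by positivity
          refine ⟨⟨?_, ?_⟩, u, hu, rfl, hcond⟩
          · rw [hN₀, round_eq]
            apply Int.floor_nonneg.2
            have : 0 ≤ w k * y / (2 * Real.pi) := by positivity
            linarith
          · rw [hN₀, round_eq]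
            apply Int.floor_le_floor
            have h1 : y ≤ Real.exp 1 * Y := by
              calc y ≤ Real.exp (-u) * 1 := by
                    rw [hy]
                    gcongr
                    exact Real.cos_le_one _
                _ ≤ _ := by rw [mul_one]; exact hY2 u hu
            gcongr
        refine le_trans ?_ (Finset.single_le_sum (f := fun N => g k N u)
          (fun N _ => hg0 k N u) hmem)
        refine (sqrt_inv_le hδ0 hδ1 (by
          rw [abs_of_nonneg (Dp_nonneg _)]; exact Dp_le_four _) hθ.le).trans (le_of_eq ?_)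
        show _ = 17 ^ (θ / 2) *
          (δ ^ 2 + (w k * Real.cos η * Real.exp (-u) - 2 * Real.pi * N₀) ^ 2) ^ (-(1 + θ) / 2)
        unfold Dp
        rw [sq_abs, ← hN₀, hy]
        congr 4
        ring
      · exact Finset.sum_nonneg fun N _ => hg0 k N u
    have hsum : ∏ j, (Real.sqrt (δ ^ 2 + Dp (w j * y) ^ 2))⁻¹ ≤ (δ⁻¹) ^ (r - 2) *
        ∑ i ∈ range (L + 1), 2 ^ i * ∑ k, ∑ N ∈ S k i, g k N u := by
      refine hbd.trans ?_
      refine mul_le_mul_of_nonneg_left ?_ (by positivity)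
      refine Finset.sum_le_sum fun i _ => ?_
      refine mul_le_mul_of_nonneg_left ?_ (by positivity)
      exact Finset.sum_le_sum fun k _ => hin i k
    have hsum0 : 0 ≤ ∑ i ∈ range (L + 1), (2 : ℝ) ^ i * ∑ k, ∑ N ∈ S k i, g k N u :=
      Finset.sum_nonneg fun i _ => mul_nonneg (by positivity)
        (Finset.sum_nonneg fun k _ => Finset.sum_nonneg fun N _ => hg0 k N u)
    have hexp : Real.exp (-σ * u) ≤ Real.exp σ * Y ^ σ := by
      rw [hY, ← Real.exp_mul, ← Real.exp_add]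
      apply Real.exp_le_exp.2
      have h1 := hu.1
      nlinarith [mul_le_mul_of_nonneg_left h1 hσ]
    have hexp2 : Real.exp (-a * x) ≤ 1 := Real.exp_le_one_iff.2 (by nlinarith)
    rw [KK_enorm1, hre]
    clear hin hbd
    generalize (∑ i ∈ range (L + 1), (2 : ℝ) ^ i * ∑ k, ∑ N ∈ S k i, g k N u) = SS at hsum hsum0 ⊢
    have hq1 : 0 ≤ K₀ * ((δ⁻¹) ^ (r - 2) * SS) :=
      mul_nonneg hK₀0.le (mul_nonneg (pow_nonneg (inv_nonneg.2 hδ0.le) _) hsum0)
    calc _ ≤ (1 * ENNReal.ofReal (K₀ * ((δ⁻¹) ^ (r - 2) * SS))) *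
          ENNReal.ofReal (Real.exp σ * Y ^ σ) := by
          refine mul_le_mul' (mul_le_mul' ?_ ?_) (ENNReal.ofReal_le_ofReal hexp)
          · rw [ENNReal.ofReal_le_one]; exact hexp2
          · exact hprod.trans (ENNReal.ofReal_le_ofReal (mul_le_mul_of_nonneg_left hsum hK₀0.le))
      _ = _ := by
          rw [one_mul, ← ENNReal.ofReal_mul hq1]
          congr 1
          ring
  -- integration
  have hint : ∫⁻ u in P, ENNReal.ofReal (Real.exp σ * Y ^ σ *
      (K₀ * (δ⁻¹) ^ (r - 2)) *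
        ∑ i ∈ range (L + 1), 2 ^ i * ∑ k, ∑ N ∈ S k i, g k N u) ≤
      ENNReal.ofReal (Real.exp σ * Y ^ σ * (K₀ * (δ⁻¹) ^ (r - 2)) *
        ∑ i ∈ range (L + 1), 2 ^ i * ∑ k, ∑ _N ∈ S k i,
          17 ^ (θ / 2) * (Y⁻¹ * (Gθ * δ ^ (-θ) / (w k * Real.cos η)))) := by
    refine lint_mul_le (by positivity) ?_
    refine lint_triple1 L S g hg0 hgm
      (fun k => 17 ^ (θ / 2) * (Y⁻¹ * (Gθ * δ ^ (-θ) / (w k * Real.cos η)))) ?_ ?_
    · intro k
      have := hw k
      positivity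
    intro k N
    have hwk := hw k
    refine lint_mul_le (by positivity) ?_
    have h1 := hGθ (p := U - m - 1) (q := U - m) hδ0 (b := w k * Real.cos η)
      (by positivity) (2 * Real.pi * N)
    have h2 : Real.exp (U - m) = Y⁻¹ := by
      rw [hY, ← Real.exp_neg]; congr 1; ring
    rw [h2] at h1
    exact h1
  calc _ ≤ _ := setLIntegral_mono' measurableSet_Icc hpt
    _ ≤ _ := hint
    _ ≤ _ := by
      apply ENNReal.ofReal_le_ofReal
      have hδθ : δ ^ (-θ) = (2 * T / Y) ^ θ := by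
        rw [← hδinv, one_div, Real.inv_rpow hδ0.le, ← Real.rpow_neg hδ0.le]
      have hAθ : 0 ≤ (2 * T / Y) ^ θ := by positivity
      have hterm : ∀ i ∈ range (L + 1), (2 : ℝ) ^ i * ∑ k, ∑ _N ∈ S k i,
          17 ^ (θ / 2) * (Y⁻¹ * (Gθ * δ ^ (-θ) / (w k * Real.cos η))) ≤
          (C₂ * (2 * T / Y) ^ θ) *
            (if ((2 : ℝ) ^ i) ^ ν ≤ C * Y then 2 ^ i * ((2 : ℝ) ^ i) ^ (-ν) else 0) := by
        intro i _
        have hk : ∀ k : Fin r, ∑ _N ∈ S k i,
            17 ^ (θ / 2) * (Y⁻¹ * (Gθ * δ ^ (-θ) / (w k * Real.cos η))) ≤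
            Cc k * (17 ^ (θ / 2) * (Gθ / (w k * Real.cos 1))) * (2 * T / Y) ^ θ *
              (if ((2 : ℝ) ^ i) ^ ν ≤ C * Y then ((2 : ℝ) ^ i) ^ (-ν) else 0) := by
          intro k
          have hwk := hw k
          have hCk := hCc0 k
          obtain ⟨hc1', hc2'⟩ := hScount k i
          rw [Finset.sum_const, nsmul_eq_mul, hδθ]
          split_ifs with hcond
          · calc ((S k i).card : ℝ) * (17 ^ (θ / 2) * (Y⁻¹ * (Gθ * (2 * T / Y) ^ θ /
                  (w k * Real.cos η))))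
                ≤ (Cc k * Y * ((2 : ℝ) ^ i) ^ (-ν)) *
                  (17 ^ (θ / 2) * (Y⁻¹ * (Gθ * (2 * T / Y) ^ θ / (w k * Real.cos 1)))) := by
                  gcongr
              _ = _ := by field_simp
          · have hemp : S k i = ∅ := by
              by_contra hne
              apply hcond
              refine (hc2' (Finset.nonempty_iff_ne_empty.2 hne)).trans ?_
              have : Cc k ≤ C₁ := Finset.single_le_sum (f := Cc) (fun k _ => (hCc0 k).le)
                (Finset.mem_univ k)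
              have h3 : Cc k ≤ C := this.trans hCC₁
              gcongr
            rw [hemp]
            simp
        calc (2 : ℝ) ^ i * ∑ k, ∑ _N ∈ S k i,
              17 ^ (θ / 2) * (Y⁻¹ * (Gθ * δ ^ (-θ) / (w k * Real.cos η)))
            ≤ 2 ^ i * ∑ k, Cc k * (17 ^ (θ / 2) * (Gθ / (w k * Real.cos 1))) *
              (2 * T / Y) ^ θ *
              (if ((2 : ℝ) ^ i) ^ ν ≤ C * Y then ((2 : ℝ) ^ i) ^ (-ν) else 0) :=
              mul_le_mul_of_nonneg_left (Finset.sum_le_sum fun k _ => hk k) (by positivity)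
          _ = _ := by
              rw [← Finset.sum_mul, ← Finset.sum_mul, ← hC₂]
              split_ifs <;> ring
      have hsg0 : 0 ≤ ∑ i ∈ range (L + 1),
          (if ((2 : ℝ) ^ i) ^ ν ≤ C * Y then (2 : ℝ) ^ i * ((2 : ℝ) ^ i) ^ (-ν) else 0) := by
        refine Finset.sum_nonneg fun i _ => ?_
        split_ifs
        · positivity
        · exact le_rfl
      have hδp : (δ⁻¹) ^ (r - 2) = (2 * T / Y) ^ (r - 2) := by
        rw [← hδinv, one_div]
      calc _ ≤ Real.exp σ * Y ^ σ * (K₀ * (δ⁻¹) ^ (r - 2)) *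
            ∑ i ∈ range (L + 1), (C₂ * (2 * T / Y) ^ θ) *
              (if ((2 : ℝ) ^ i) ^ ν ≤ C * Y then 2 ^ i * ((2 : ℝ) ^ i) ^ (-ν) else 0) := by
            refine mul_le_mul_of_nonneg_left (Finset.sum_le_sum hterm) (by positivity)
        _ = Real.exp σ * K₀ * C₂ * (Y ^ σ * ((δ⁻¹) ^ (r - 2) * (2 * T / Y) ^ θ) *
            ∑ i ∈ range (L + 1),
              (if ((2 : ℝ) ^ i) ^ ν ≤ C * Y then 2 ^ i * ((2 : ℝ) ^ i) ^ (-ν) else 0)) := by
            rw [← Finset.mul_sum]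
            ring
        _ ≤ _ := by
            rw [hδp]
            gcongr

end Pool.Agent.Helper8.Bz
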