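import Pool.Agent.Helper8.Bz.V2

set_option autoImplicit false

/-!
# Pointwise bounds for Barnes zeta functions under a Diophantine condition, part 3: the ray integral
-/

namespace Pool.Agent.Helper8.Bz

open Finset Filter Topology MeasureTheory Complex Set
open Pool.Agent.H131R5.BZ Pool.Agent.Y930.Bz Pool.Agent.Y616.BM

lemma term_bd1 {P ν C : ℝ} (hP : P ≤ 2) (hν : 0 ≤ ν) (hC : 1 ≤ C) {A B T : ℝ} (hA : 1 ≤ A)
    (hB : 1 ≤ B) (hBA : B ≤ 2 * A) (hT : 1 ≤ T) (h : B ^ ν * A ≤ C * T) :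
    A ^ (P - 2) * B ^ (1 - ν) ≤
      (2 : ℝ) ^ (2 - P) * (2 * C) ^ (max 0 (P / (1 + ν) - 1)) * T ^ (max 0 (P / (1 + ν) - 1)) := by
  set E : ℝ := max 0 (P / (1 + ν) - 1) with hE
  have hE0 : 0 ≤ E := le_max_left _ _
  have hA0 : 0 < A := by linarith
  have hB0 : 0 < B := by linarith
  have hT0 : 0 < T := by linarith
  have hν1 : 0 < 1 + ν := by linarith
  have h1 : A ^ (P - 2) ≤ (2 : ℝ) ^ (2 - P) * B ^ (P - 2) := by
    have h2 : A ^ (P - 2) ≤ (B / 2) ^ (P - 2) :=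
      Real.rpow_le_rpow_of_nonpos (by positivity) (by linarith) (by linarith)
    rw [Real.div_rpow hB0.le (by norm_num)] at h2
    have h3 : (2 : ℝ) ^ (2 - P) = ((2 : ℝ) ^ (P - 2))⁻¹ := by
      rw [← Real.rpow_neg (by norm_num)]; congr 1; ring
    rw [h3, mul_comm, ← div_eq_mul_inv]
    exact h2
  have h2 : B ^ (P - 2) * B ^ (1 - ν) = B ^ (P - 1 - ν) := by
    rw [← Real.rpow_add hB0]; congr 1; ring
  have h3 : B ^ (P - 1 - ν) ≤ (2 * C) ^ E * T ^ E := by
    rcases le_total (P - 1 - ν) 0 with hneg | hpos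
    · calc B ^ (P - 1 - ν) ≤ 1 := Real.rpow_le_one_of_one_le_of_nonpos hB hneg
        _ ≤ (2 * C) ^ E * T ^ E := by
          have e1 : 1 ≤ (2 * C) ^ E := Real.one_le_rpow (by linarith) hE0
          have e2 : 1 ≤ T ^ E := Real.one_le_rpow hT hE0
          nlinarith
    · have e0 : 0 ≤ (P - 1 - ν) / (1 + ν) := by positivity
      have e1 : B ^ (P - 1 - ν) = (B ^ (1 + ν)) ^ ((P - 1 - ν) / (1 + ν)) := by
        rw [← Real.rpow_mul hB0.le]
        congr 1
        field_simp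
      have e2 : B ^ (1 + ν) ≤ 2 * C * T := by
        rw [Real.rpow_add hB0, Real.rpow_one]
        have : 0 < B ^ ν := by positivity
        nlinarith
      have e3 : (P - 1 - ν) / (1 + ν) = P / (1 + ν) - 1 := by field_simp; ring
      have e4 : E = P / (1 + ν) - 1 := by
        rw [hE]
        apply max_eq_right
        rw [← e3]
        exact e0
      have e5 : (P - 1 - ν) / (1 + ν) = E := by rw [e3, e4]
      rw [e1, e5]
      calc (B ^ (1 + ν)) ^ E ≤ (2 * C * T) ^ E :=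
            Real.rpow_le_rpow (by positivity) e2 hE0
        _ = (2 * C) ^ E * T ^ E := Real.mul_rpow (by linarith) hT0.le
  calc A ^ (P - 2) * B ^ (1 - ν) ≤ ((2 : ℝ) ^ (2 - P) * B ^ (P - 2)) * B ^ (1 - ν) := by gcongr
    _ = (2 : ℝ) ^ (2 - P) * B ^ (P - 1 - ν) := by rw [mul_assoc, h2]
    _ ≤ (2 : ℝ) ^ (2 - P) * ((2 * C) ^ E * T ^ E) := by gcongr
    _ = _ := by ring

variable {r : ℕ}

/-- the far part of the ray -/
lemma far1 {a : ℝ} (ha : 0 < a) {w : Fin r → ℝ} (hw : ∀ j, 0 < w j) {σ : ℝ} (hσ : 0 < σ) :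
    ∃ C : ℝ, 0 ≤ C ∧ ∀ T : ℝ, 1 ≤ T →
      ∫⁻ u in Iic (-Real.log (2 * T)), ‖KK a w (zr u (1 / T))‖ₑ *
        ENNReal.ofReal (Real.exp (-σ * u)) ≤ ENNReal.ofReal (C * T ^ σ) := by
  obtain ⟨G, hG0, hG⟩ := gf_lint_scale (σ := σ) (c := a / 2) hσ (by positivity)
  set K : ℝ := ∏ j, (1 - Real.exp (-(w j) * 1))⁻¹ with hK
  have hK0 : 0 ≤ K := Finset.prod_nonneg fun j _ =>
    (inv_pos.2 (one_sub_exp_pos' (hw j) one_pos)).le
  refine ⟨K * G, by positivity, fun T hT => ?_⟩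
  have hT0 : 0 < T := by linarith
  set η : ℝ := 1 / T with hη
  have hη0 : 0 < η := by positivity
  have hη1 : η ≤ 1 := by rw [hη, div_le_one hT0]; exact hT
  have hpt : ∀ u ∈ Iic (-Real.log (2 * T)), ‖KK a w (zr u η)‖ₑ *
      ENNReal.ofReal (Real.exp (-σ * u)) ≤
      ENNReal.ofReal K * ENNReal.ofReal (gf σ (a / 2 * η) u) := by
    intro u hu
    have hu' : u ≤ -Real.log (2 * T) := hu
    have h2T : 2 * T ≤ Real.exp (-u) := by
      calc 2 * T = Real.exp (Real.log (2 * T)) := (Real.exp_log (by positivity)).symm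
        _ ≤ _ := Real.exp_le_exp.2 (by linarith)
    have hsin := sin_ge hη0.le hη1
    have hzr : zr u η = ((Real.exp (-u) * Real.sin η : ℝ) : ℂ) +
        ((Real.exp (-u) * Real.cos η : ℝ) : ℂ) * I := zr_eq u η
    have hre : (zr u η).re = Real.exp (-u) * Real.sin η := by
      rw [hzr, Complex.add_re, Complex.ofReal_re, Complex.re_ofReal_mul, Complex.I_re, mul_zero,
        add_zero]
    have hx1 : 1 ≤ (zr u η).re := by
      rw [hre]
      calc (1 : ℝ) = 2 * T * (η / 2) := by rw [hη]; field_simp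
        _ ≤ _ := by gcongr
    have hfac : ∀ j, fac1 (w j) (zr u η) ≤
        ENNReal.ofReal ((1 - Real.exp (-(w j) * 1))⁻¹) := by
      intro j
      unfold fac1
      apply ENNReal.ofReal_le_ofReal
      have h1 := one_sub_exp_pos' (hw j) one_pos
      apply inv_anti₀ h1
      have h2 := one_sub_exp_le (hw j) (z := zr u η) (by linarith)
      have h3 : Real.exp (-(w j) * (zr u η).re) ≤ Real.exp (-(w j) * 1) := by
        apply Real.exp_le_exp.2
        have := hw j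
        nlinarith
      linarith
    have hprod : ∏ j, fac1 (w j) (zr u η) ≤ ENNReal.ofReal K := by
      rw [hK, ENNReal.ofReal_prod_of_nonneg (fun j _ =>
        (inv_pos.2 (one_sub_exp_pos' (hw j) one_pos)).le)]
      exact Finset.prod_le_prod' fun j _ => hfac j
    rw [KK_enorm1]
    have h5 : Real.exp (-a * (zr u η).re) ≤ Real.exp (-(a / 2 * η) * Real.exp (-u)) := by
      apply Real.exp_le_exp.2
      rw [hre]
      have : 0 < Real.exp (-u) := Real.exp_pos _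
      nlinarith [mul_le_mul_of_nonneg_left hsin (by positivity : 0 ≤ a * Real.exp (-u))]
    calc _ ≤ ENNReal.ofReal (Real.exp (-(a / 2 * η) * Real.exp (-u))) * ENNReal.ofReal K *
          ENNReal.ofReal (Real.exp (-σ * u)) := by gcongr
      _ = _ := by
          unfold gf
          rw [ENNReal.ofReal_mul (Real.exp_pos _).le]
          ring
  calc _ ≤ ∫⁻ u in Iic (-Real.log (2 * T)), ENNReal.ofReal K *
        ENNReal.ofReal (gf σ (a / 2 * η) u) := setLIntegral_mono' measurableSet_Iic hpt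
    _ ≤ ∫⁻ u, ENNReal.ofReal K * ENNReal.ofReal (gf σ (a / 2 * η) u) :=
        setLIntegral_le_lintegral _ _
    _ = ENNReal.ofReal K * ENNReal.ofReal (G * η ^ (-σ)) := by
        rw [lintegral_const_mul' _ _ ENNReal.ofReal_ne_top, hG η hη0]
    _ = _ := by
        rw [← ENNReal.ofReal_mul hK0]
        congr 1
        rw [hη, one_div, Real.inv_rpow hT0.le, Real.rpow_neg hT0.le, inv_inv]
        ring

/-- the weighted integral of the kernel on the rotated ray -/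
theorem JL_bound (hr : 2 ≤ r) {a : ℝ} (ha : 0 < a) {w : Fin r → ℝ} (hw : ∀ j, 0 < w j) {ν : ℝ}
    (hν : 0 ≤ ν) (hDC : DC w ν) (U : ℝ) {σ : ℝ} (hσ : 0 < σ) (hσr : (r : ℝ) - 2 ≤ σ)
    {ε : ℝ} (hε : 0 < ε) :
    ∃ C : ℝ, 0 ≤ C ∧ ∀ T : ℝ, 1 ≤ T → JL a w σ U (1 / T) ≤
      ENNReal.ofReal (C * T ^ (σ + max 0 ((r - σ) / (1 + ν) - 1) + ε)) := by
  obtain ⟨C₁, hC₁, hfar⟩ := far1 ha hw hσ
  obtain ⟨C₂, hC₂, hpiece⟩ := piece1 hr ha hw hν hDC U hσ.le (half_pos hε)
  set θ : ℝ := ε / 2 with hθ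
  have hθ0 : 0 < θ := half_pos hε
  set Q : ℝ := max 0 ((r - σ) / (1 + ν) - 1) with hQ
  have hQ0 : 0 ≤ Q := le_max_left _ _
  set P : ℝ := r - σ with hP
  have hP2 : P ≤ 2 := by rw [hP]; linarith
  set C₃ : ℝ := 2 * C₂ + 1 with hC₃
  have hC₃1 : 1 ≤ C₃ := by linarith
  set D : ℝ := (2 : ℝ) ^ (2 - P) * (2 * C₃) ^ Q with hD
  have hD0 : 0 < D := by positivity
  set H : ℝ := (2 * Real.exp |U|) ^ θ with hH
  have hH0 : 0 < H := by positivity
  set E : ℝ := C₂ * ((2 : ℝ) ^ σ * H * D) * (5 + 2 * |U|) * (2 + |U|) * (1 + 2 / θ) ^ 2 with hE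
  have hE0 : 0 ≤ E := by positivity
  refine ⟨C₁ + E, by positivity, fun T hT => ?_⟩
  have hT0 : 0 < T := by linarith
  have hlogT : 0 ≤ Real.log T := Real.log_nonneg hT
  have hlog2 : Real.log 2 ≤ 1 := by
    have := Real.log_two_lt_d9
    linarith
  have hlog2' : 1 / 2 ≤ Real.log 2 := by
    have := Real.log_two_gt_d9
    linarith
  have hlog2T : Real.log (2 * T) = Real.log 2 + Real.log T :=
    Real.log_mul (by norm_num) hT0.ne'
  set M₀ : ℕ := ⌈U + Real.log (2 * T)⌉₊ with hM₀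
  set F : ℝ → ENNReal := fun u => ‖KK a w (zr u (1 / T))‖ₑ *
    ENNReal.ofReal (Real.exp (-σ * u)) with hF
  -- decomposition of the ray
  have hcover : Iic U ⊆ Iic (-Real.log (2 * T)) ∪ ⋃ m : Fin M₀, Icc (U - (m : ℕ) - 1) (U - (m : ℕ)) := by
    intro u hu
    have hu' : u ≤ U := hu
    by_cases h : u ≤ -Real.log (2 * T)
    · exact Or.inl h
    · right
      have h1 : -Real.log (2 * T) < u := not_le.1 h
      have h2 : 0 ≤ U - u := by linarith
      have h3 : ⌊U - u⌋₊ < M₀ := by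
        rw [hM₀, Nat.lt_ceil]
        have := Nat.floor_le h2
        linarith
      rw [Set.mem_iUnion]
      refine ⟨⟨⌊U - u⌋₊, h3⟩, ?_, ?_⟩
      · have := Nat.lt_floor_add_one (U - u)
        simp only
        linarith
      · have := Nat.floor_le h2
        simp only
        linarith
  have hM₀b : (M₀ : ℝ) ≤ (2 + |U|) * (1 + Real.log T) := by
    have h1 : (M₀ : ℝ) ≤ |U| + Real.log (2 * T) + 1 := by
      rcases le_total (U + Real.log (2 * T)) 0 with h | h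
      · have : M₀ = 0 := by rw [hM₀, Nat.ceil_eq_zero]; exact h
        rw [this]
        have := abs_nonneg U
        push_cast
        linarith
      · have := Nat.ceil_lt_add_one h
        have h2 := le_abs_self U
        linarith
    have h2 := abs_nonneg U
    nlinarith
  have hpc : ∀ m : Fin M₀, ∫⁻ u in Icc (U - (m : ℕ) - 1) (U - (m : ℕ)), F u ≤
      ENNReal.ofReal (C₂ * ((2 : ℝ) ^ σ * H * D) * (5 + 2 * |U|) * (1 + Real.log T) *
        (T ^ σ * T ^ θ * T ^ Q)) := by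
    rintro ⟨m, hm⟩
    simp only
    have hmlt : (m : ℝ) < U + Real.log (2 * T) := Nat.lt_ceil.1 hm
    set Y : ℝ := Real.exp (m - U) with hY
    have hY0 : 0 < Y := Real.exp_pos _
    have hY2T : Y ≤ 2 * T := by
      calc Y ≤ Real.exp (Real.log (2 * T)) := Real.exp_le_exp.2 (by linarith)
        _ = 2 * T := Real.exp_log (by positivity)
    set A : ℝ := 2 * T / Y with hA
    have hA1 : 1 ≤ A := by rw [hA, le_div_iff₀ hY0]; linarith
    have hA0 : 0 < A := by linarith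
    obtain ⟨n, hn1, hn2⟩ := exists_nat_pow_near hA1 (one_lt_two)
    have hL := hpiece T hT m hY2T (n + 1) hn2.le
    refine hL.trans (ENNReal.ofReal_le_ofReal ?_)
    -- number of levels
    have hnb : ((n + 1 : ℕ) : ℝ) + 1 ≤ (5 + 2 * |U|) * (1 + Real.log T) := by
      have h1 : (n : ℝ) * Real.log 2 ≤ Real.log A := by
        rw [← Real.log_pow]
        exact Real.log_le_log (by positivity) hn1
      have h2 : Real.log A ≤ Real.log (2 * T) + |U| := by
        rw [hA, Real.log_div (by positivity) hY0.ne', hY, Real.log_exp]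
        have : (0 : ℝ) ≤ m := Nat.cast_nonneg m
        have := le_abs_self U
        linarith
      have h3 : (n : ℝ) * (1 / 2) ≤ n * Real.log 2 := by gcongr
      have h4 := abs_nonneg U
      push_cast
      nlinarith
    have hAθ : A ^ θ ≤ H * T ^ θ := by
      rw [hH, ← Real.mul_rpow (by positivity) hT0.le]
      apply Real.rpow_le_rpow hA0.le _ hθ0.le
      rw [hA, div_le_iff₀ hY0]
      have h1 : Real.exp |U| * Y = Real.exp (|U| + (m - U)) := by rw [hY, ← Real.exp_add]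
      have h2 : 1 ≤ Real.exp |U| * Y := by
        rw [h1]
        apply Real.one_le_exp
        have : (0 : ℝ) ≤ m := Nat.cast_nonneg m
        have := le_abs_self U
        linarith
      nlinarith
    have hAp : Y ^ σ * (A ^ (r - 2) * A ^ θ) = (2 : ℝ) ^ σ * T ^ σ * A ^ θ * A ^ (P - 2) := by
      have h1 : Y = 2 * T / A := by rw [hA]; field_simp
      have h2 : ((r - 2 : ℕ) : ℝ) = r - 2 := by
        push_cast [Nat.cast_sub hr]
        ring
      have h3 : A ^ (r - 2) = A ^ ((r : ℝ) - 2) := by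
        rw [← Real.rpow_natCast, h2]
      have h4 : Y ^ σ = (2 : ℝ) ^ σ * T ^ σ * A ^ (-σ) := by
        rw [h1, Real.div_rpow (by positivity) hA0.le, Real.mul_rpow (by norm_num) hT0.le,
          Real.rpow_neg hA0.le]
        rfl
      have h5 : A ^ (P - 2) = A ^ (-σ) * A ^ ((r : ℝ) - 2) := by
        rw [← Real.rpow_add hA0]
        congr 1
        rw [hP]
        ring
      rw [h3, h4, h5]
      ring
    have hterm : ∀ i ∈ range (n + 1 + 1),
        A ^ (P - 2) * (if ((2 : ℝ) ^ i) ^ ν ≤ C₂ * Y then 2 ^ i * ((2 : ℝ) ^ i) ^ (-ν) else 0) ≤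
          D * T ^ Q := by
      intro i hi
      have hi' : i ≤ n + 1 := Nat.lt_succ_iff.1 (Finset.mem_range.1 hi)
      split_ifs with hcond
      · set B : ℝ := (2 : ℝ) ^ i with hB
        have hB1 : 1 ≤ B := one_le_pow₀ (by norm_num)
        have hB0 : 0 < B := by linarith
        have hBA : B ≤ 2 * A := by
          calc B ≤ 2 ^ (n + 1) := pow_le_pow_right₀ (by norm_num) hi'
            _ = 2 ^ n * 2 := pow_succ _ _
            _ ≤ 2 * A := by linarith
        have h4 : B * B ^ (-ν) = B ^ (1 - ν) := by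
          nth_rewrite 1 [← Real.rpow_one B]
          rw [← Real.rpow_add hB0]
          congr 1
        rw [h4]
        have h5 : B ^ ν * A ≤ C₃ * T := by
          calc B ^ ν * A ≤ C₂ * Y * A := by gcongr
            _ = 2 * C₂ * T := by rw [hA]; field_simp
            _ ≤ C₃ * T := by gcongr; linarith
        exact term_bd1 hP2 hν hC₃1 hA1 hB1 hBA hT h5
      · rw [mul_zero]
        positivity
    have hsum : A ^ (P - 2) * ∑ i ∈ range (n + 1 + 1),
        (if ((2 : ℝ) ^ i) ^ ν ≤ C₂ * Y then (2 : ℝ) ^ i * ((2 : ℝ) ^ i) ^ (-ν) else 0) ≤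
          (((n + 1 : ℕ) : ℝ) + 1) * (D * T ^ Q) := by
      rw [Finset.mul_sum]
      refine (Finset.sum_le_sum hterm).trans (le_of_eq ?_)
      rw [Finset.sum_const, Finset.card_range, nsmul_eq_mul]
      push_cast
      ring
    have hDT : 0 ≤ D * T ^ Q := by positivity
    calc C₂ * (Y ^ σ * (A ^ (r - 2) * A ^ θ) * ∑ i ∈ range (n + 1 + 1),
          (if ((2 : ℝ) ^ i) ^ ν ≤ C₂ * Y then (2 : ℝ) ^ i * ((2 : ℝ) ^ i) ^ (-ν) else 0))
        = C₂ * ((2 : ℝ) ^ σ * T ^ σ * A ^ θ) * (A ^ (P - 2) * ∑ i ∈ range (n + 1 + 1),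
          (if ((2 : ℝ) ^ i) ^ ν ≤ C₂ * Y then (2 : ℝ) ^ i * ((2 : ℝ) ^ i) ^ (-ν) else 0)) := by
          rw [hAp]; ring
      _ ≤ C₂ * ((2 : ℝ) ^ σ * T ^ σ * A ^ θ) *
          ((((n + 1 : ℕ) : ℝ) + 1) * (D * T ^ Q)) := by gcongr
      _ ≤ C₂ * ((2 : ℝ) ^ σ * T ^ σ * (H * T ^ θ)) *
          (((5 + 2 * |U|) * (1 + Real.log T)) * (D * T ^ Q)) := by gcongr
      _ = _ := by ring
  have hunion : ∫⁻ u in ⋃ m : Fin M₀, Icc (U - (m : ℕ) - 1) (U - (m : ℕ)), F u ≤
      ENNReal.ofReal (E * (T ^ σ * T ^ θ * T ^ Q * T ^ θ)) := by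
    calc _ ≤ ∑' m : Fin M₀, ∫⁻ u in Icc (U - (m : ℕ) - 1) (U - (m : ℕ)), F u :=
          lintegral_iUnion_le _ _
      _ = ∑ m : Fin M₀, ∫⁻ u in Icc (U - (m : ℕ) - 1) (U - (m : ℕ)), F u := tsum_fintype _
      _ ≤ ∑ _m : Fin M₀, ENNReal.ofReal (C₂ * ((2 : ℝ) ^ σ * H * D) * (5 + 2 * |U|) *
          (1 + Real.log T) * (T ^ σ * T ^ θ * T ^ Q)) := Finset.sum_le_sum fun m _ => hpc m
      _ = ENNReal.ofReal (M₀ * (C₂ * ((2 : ℝ) ^ σ * H * D) * (5 + 2 * |U|) *
          (1 + Real.log T) * (T ^ σ * T ^ θ * T ^ Q))) := by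
          rw [Finset.sum_const, Finset.card_univ, Fintype.card_fin, nsmul_eq_mul,
            ENNReal.ofReal_mul (Nat.cast_nonneg _), ENNReal.ofReal_natCast]
      _ ≤ _ := by
          apply ENNReal.ofReal_le_ofReal
          have h1 := log_sq_le hθ0 hT
          have h2 : 0 ≤ C₂ * ((2 : ℝ) ^ σ * H * D) * (5 + 2 * |U|) *
            (T ^ σ * T ^ θ * T ^ Q) := by positivity
          calc _ = (C₂ * ((2 : ℝ) ^ σ * H * D) * (5 + 2 * |U|) *
                (T ^ σ * T ^ θ * T ^ Q)) * ((M₀ : ℝ) * (1 + Real.log T)) := by ring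
            _ ≤ (C₂ * ((2 : ℝ) ^ σ * H * D) * (5 + 2 * |U|) *
                (T ^ σ * T ^ θ * T ^ Q)) *
                (((2 + |U|) * (1 + Real.log T)) * (1 + Real.log T)) := by gcongr
            _ = (C₂ * ((2 : ℝ) ^ σ * H * D) * (5 + 2 * |U|) *
                (T ^ σ * T ^ θ * T ^ Q)) * (2 + |U|) * (1 + Real.log T) ^ 2 := by ring
            _ ≤ (C₂ * ((2 : ℝ) ^ σ * H * D) * (5 + 2 * |U|) *
                (T ^ σ * T ^ θ * T ^ Q)) * (2 + |U|) * ((1 + 2 / θ) ^ 2 * T ^ θ) := by gcongr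
            _ = _ := by rw [hE]; ring
  calc JL a w σ U (1 / T) = ∫⁻ u in Iic U, F u := rfl
    _ ≤ ∫⁻ u in Iic (-Real.log (2 * T)) ∪ ⋃ m : Fin M₀, Icc (U - (m : ℕ) - 1) (U - (m : ℕ)), F u :=
        lintegral_mono_set hcover
    _ ≤ _ := lintegral_union_le _ _ _
    _ ≤ ENNReal.ofReal (C₁ * T ^ σ) +
        ENNReal.ofReal (E * (T ^ σ * T ^ θ * T ^ Q * T ^ θ)) := add_le_add (hfar T hT) hunion
    _ = ENNReal.ofReal (C₁ * T ^ σ + E * (T ^ σ * T ^ θ * T ^ Q * T ^ θ)) := by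
        rw [ENNReal.ofReal_add (by positivity) (by positivity)]
    _ ≤ _ := by
        apply ENNReal.ofReal_le_ofReal
        have h1 : T ^ σ * T ^ θ * T ^ Q * T ^ θ = T ^ (σ + Q + ε) := by
          rw [← Real.rpow_add hT0, ← Real.rpow_add hT0, ← Real.rpow_add hT0]
          congr 1
          rw [hθ]
          ring
        have h2 : T ^ σ ≤ T ^ (σ + Q + ε) :=
          Real.rpow_le_rpow_of_exponent_le hT (by linarith)
        rw [h1, add_mul]
        gcongr

/-- the pointwise bound on a vertical line -/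
theorem line_bound3 (hr : 2 ≤ r) {a : ℝ} (ha : 0 < a) {w : Fin r → ℝ} (hw : ∀ j, 0 < w j) {ν : ℝ}
    (hν : 0 ≤ ν) (hDC : DC w ν) {c : ℕ → ℂ} (hc : Tay a w c) {σ : ℝ} (hσ : 0 < σ)
    (hσr : (r : ℝ) - 2 ≤ σ) {ε : ℝ} (hε : 0 < ε) :
    ∃ C : ℝ, 0 ≤ C ∧ ∀ t : ℝ, 1 ≤ t → ‖FF a w c ((σ : ℂ) + t * I)‖ ≤
      C * t ^ (1 / 2 + max 0 ((r - σ) / (1 + ν) - 1) + ε) := by
  obtain ⟨C₁, U, hC₁, hz⟩ := zone1 ha hw hc hσ
  obtain ⟨C₂, hC₂, hJ⟩ := JL_bound hr ha hw hν hDC U hσ hσr hε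
  set Q : ℝ := max 0 ((r - σ) / (1 + ν) - 1) with hQ
  have hQ0 : 0 ≤ Q := le_max_left _ _
  refine ⟨C₁ + C₁ * C₂, by positivity, fun t ht => ?_⟩
  have ht0 : 0 < t := by linarith
  have h2 := hz t ht t ⟨le_rfl, by linarith⟩
  have h4 := hJ t ht
  have h5 : ‖FF a w c ((σ : ℂ) + t * I)‖ₑ ≤
      ENNReal.ofReal ((C₁ + C₁ * C₂) * t ^ (1 / 2 + Q + ε)) := by
    calc _ ≤ _ := h2
      _ ≤ ENNReal.ofReal (C₁ * t ^ (1 / 2 : ℝ)) + ENNReal.ofReal (C₁ * t ^ (1 / 2 - σ)) *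
          ENNReal.ofReal (C₂ * t ^ (σ + Q + ε)) := by gcongr
      _ = ENNReal.ofReal (C₁ * t ^ (1 / 2 : ℝ) + C₁ * C₂ *
          t ^ ((1 / 2 - σ) + (σ + Q + ε))) := by
          have e1 : t ^ ((1 / 2 - σ) + (σ + Q + ε)) =
              t ^ (1 / 2 - σ) * t ^ (σ + Q + ε) := Real.rpow_add ht0 _ _
          rw [← ENNReal.ofReal_mul (by positivity),
            ← ENNReal.ofReal_add (by positivity) (by positivity), e1]
          congr 1
          ring
      _ ≤ _ := by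
          apply ENNReal.ofReal_le_ofReal
          have h5 : t ^ (1 / 2 : ℝ) ≤ t ^ (1 / 2 + Q + ε) :=
            Real.rpow_le_rpow_of_exponent_le ht (by linarith)
          have h6 : (1 / 2 - σ) + (σ + Q + ε) = 1 / 2 + Q + ε := by ring
          rw [h6]
          calc _ ≤ C₁ * t ^ (1 / 2 + Q + ε) + C₁ * C₂ * t ^ (1 / 2 + Q + ε) := by gcongr
            _ = _ := by ring
  rw [← ofReal_norm] at h5
  exact (ENNReal.ofReal_le_ofReal_iff (by positivity)).1 h5

end Pool.Agent.Helper8.Bz
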