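import Pool.Agent.Helper8.Bz.V3

set_option autoImplicit false

/-!
# Pointwise bounds for Barnes zeta functions under a Diophantine condition, part 4: results
-/

namespace Pool.Agent.Helper8.Bz

open Finset Filter Topology MeasureTheory Complex Set Asymptotics
open Pool.Agent.H131R5.BZ Pool.Agent.Y930.Bz Pool.Agent.Y616.BM

variable {r : ℕ} {a : ℝ} {w : Fin r → ℝ} {c : ℕ → ℂ}

/-- from the exponents of approximability to a Diophantine condition -/
lemma exists_DC {P κ κ₁ : ℝ} (hκ : 0 < κ) (hκ₁ : κ < κ₁)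
    (h : ∀ τ : ℝ, 0 < τ → Appr w τ → P * τ / (1 + τ) ≤ κ) :
    ∃ ν : ℝ, 0 ≤ ν ∧ DC w ν ∧ P / (1 + ν) ≤ κ₁ := by
  by_cases hPκ : P ≤ κ
  · refine ⟨0, le_rfl, DC_zero w, ?_⟩
    rw [add_zero, div_one]
    linarith
  · push Not at hPκ
    obtain ⟨κ', h1, h2⟩ := exists_between (lt_min hPκ hκ₁)
    have h3 : κ' < P := h2.trans_le (min_le_left _ _)
    have h4 : κ' < κ₁ := h2.trans_le (min_le_right _ _)
    have hκ'0 : 0 < κ' := by linarith
    have hPκ' : 0 < P - κ' := by linarith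
    set τ : ℝ := κ' / (P - κ') with hτ
    have hτ0 : 0 < τ := by positivity
    have hval : P * τ / (1 + τ) = κ' := by
      rw [hτ]
      have : P ≠ 0 := by linarith
      field_simp
      ring
    have hnA : ¬ Appr w τ := by
      intro hA
      have := h τ hτ0 hA
      rw [hval] at this
      linarith
    refine ⟨1 / τ, by positivity, DC_of_not_appr hτ0 hnA, ?_⟩
    have e : P / (1 + 1 / τ) = P * τ / (1 + τ) := by
      field_simp
      ring
    rw [e, hval]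
    exact h4.le

/-- uniform bound in a strip for exponents at least `1/2` -/
theorem strip_upper (hr : 2 ≤ r) (ha : 0 < a) (hw : ∀ j, 0 < w j) (hc : Tay a w c)
    {α μ : ℝ} (hα : 0 < α) (hαr : (r : ℝ) - 2 ≤ α) (hμ : 1 / 2 ≤ μ)
    (h : ∀ τ : ℝ, 0 < τ → Appr w τ → (r - α) * τ / (1 + τ) - 1 / 2 ≤ μ) (σ₁ : ℝ) {ε : ℝ}
    (hε : 0 < ε) :
    ∃ C : ℝ, 0 ≤ C ∧ ∀ σ t : ℝ, α ≤ σ → σ ≤ σ₁ → 2 ≤ t →
      ‖FF a w c ((σ : ℂ) + t * I)‖ ≤ C * t ^ (μ + ε) := by
  obtain ⟨ν, hν, hDC, hle⟩ := exists_DC (w := w) (P := r - α) (κ := μ + 1 / 2)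
    (κ₁ := μ + 1 / 2 + ε / 2) (by linarith) (by linarith) (fun τ hτ hA => by
      have := h τ hτ hA
      linarith)
  obtain ⟨C₀, hC₀, h0⟩ := line_bound3 hr ha hw hν hDC hc hα hαr (ε := ε / 2) (by positivity)
  have h0' : ∀ y : ℝ, 1 ≤ y → ‖FF a w c ((α : ℂ) + y * I)‖ ≤ C₀ * y ^ (μ + ε) := by
    intro y hy
    refine (h0 y hy).trans ?_
    refine mul_le_mul_of_nonneg_left ?_ hC₀
    apply Real.rpow_le_rpow_of_exponent_le hy
    have : max 0 ((r - α) / (1 + ν) - 1) ≤ μ - 1 / 2 + ε / 2 :=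
      max_le (by linarith) (by linarith)
    linarith
  set β : ℝ := max (max σ₁ r) α + 1 with hβ
  have hβr : (r : ℝ) < β := by
    have := (le_max_right σ₁ (r : ℝ)).trans (le_max_left _ α)
    linarith
  have hβα : α < β := by
    have := le_max_right (max σ₁ (r : ℝ)) α
    linarith
  obtain ⟨A, hA, h1⟩ := FF_line_bdd ha hw hc (β := β) hβr
  obtain ⟨C, hC, h2⟩ := interp ha hw hc hα hβα (μ := μ + ε) (by linarith) hC₀ hA h0' h1
  refine ⟨C, hC, fun σ t hσ hσ1 ht => ?_⟩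
  have hσβ : σ ≤ β := by
    have := (le_max_left σ₁ (r : ℝ)).trans (le_max_left _ α)
    linarith
  refine (h2 σ t hσ hσβ ht).trans (mul_le_mul_of_nonneg_left ?_ hC)
  apply Real.rpow_le_rpow_of_exponent_le (by linarith)
  rw [div_le_iff₀ (by linarith)]
  have : 0 ≤ μ + ε := by linarith
  gcongr

/-- the interpolated bound -/
theorem interp_upper (hr : 2 ≤ r) (ha : 0 < a) (hw : ∀ j, 0 < w j) (hc : Tay a w c)
    {ν : ℝ} (hν : 0 ≤ ν) (hν1 : ν ≤ 1) (hDC : DC w ν) (σ₁ : ℝ) {ε : ℝ} (hε : 0 < ε) :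
    ∃ C : ℝ, 0 ≤ C ∧ ∀ σ t : ℝ, (r : ℝ) - 1 - ν + ε ≤ σ → σ ≤ σ₁ → 2 ≤ t →
      ‖FF a w c ((σ : ℂ) + t * I)‖ ≤ C * t ^ (max 0 ((r - σ) / (2 * (1 + ν))) + ε) := by
  have hr' : (2 : ℝ) ≤ r := by exact_mod_cast hr
  set ε' : ℝ := min ε (1 / 2) / 2 with hε'
  have hε'0 : 0 < ε' := by
    have : 0 < min ε (1 / 2) := lt_min hε (by norm_num)
    rw [hε']; positivity
  have hε'1 : ε' ≤ ε / 2 := by
    have := min_le_left ε (1 / 2)
    rw [hε']; linarith
  have hε'2 : ε' ≤ 1 / 4 := by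
    have := min_le_right ε (1 / 2)
    rw [hε']; linarith
  set α : ℝ := (r : ℝ) - 1 - ν + ε' with hα
  set β : ℝ := (r : ℝ) + ε' with hβ
  have hα0 : 0 < α := by linarith
  have hβα : β - α = 1 + ν := by rw [hα, hβ]; ring
  obtain ⟨C₀, hC₀, h0⟩ := line_bound3 hr ha hw hν hDC hc hα0 (by linarith) (ε := ε')
    hε'0
  have h0' : ∀ y : ℝ, 1 ≤ y → ‖FF a w c ((α : ℂ) + y * I)‖ ≤ C₀ * y ^ (1 / 2 + ε') := by
    intro y hy
    refine (h0 y hy).trans ?_
    refine mul_le_mul_of_nonneg_left ?_ hC₀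
    apply Real.rpow_le_rpow_of_exponent_le hy
    have h1 : (r - α) / (1 + ν) ≤ 1 := by
      rw [div_le_one (by linarith)]
      linarith
    have : max 0 ((r - α) / (1 + ν) - 1) ≤ 0 := max_le le_rfl (by linarith)
    linarith
  obtain ⟨A, hA, h1⟩ := FF_line_bdd ha hw hc (β := β) (by linarith)
  obtain ⟨C, hC, h2⟩ := interp ha hw hc hα0 (by linarith) (μ := 1 / 2 + ε') (by linarith)
    hC₀ hA h0' h1
  set γ : ℝ := max σ₁ β + 1 with hγ
  have hβγ : β < γ := by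
    have := le_max_right σ₁ β
    linarith
  obtain ⟨A', hA', h1'⟩ := FF_line_bdd ha hw hc (β := γ) (by linarith)
  obtain ⟨C', hC', h3⟩ := interp ha hw hc (α := β) (β := γ) (by linarith) hβγ (μ := 0) le_rfl
    hA hA' (fun y _ => by simpa using h1 y) h1'
  refine ⟨C + C', by positivity, fun σ t hσ hσ1 ht => ?_⟩
  have ht1 : 1 ≤ t := by linarith
  set E : ℝ := max 0 ((r - σ) / (2 * (1 + ν))) + ε with hE
  have hE0 : 0 ≤ E := by
    have := le_max_left 0 ((r - σ) / (2 * (1 + ν)))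
    linarith
  have htE : 0 ≤ t ^ E := by positivity
  rcases le_total σ β with hσβ | hσβ
  · refine (h2 σ t (by linarith) hσβ ht).trans ?_
    have e1 : (1 / 2 + ε') * (β - σ) / (β - α) ≤ E := by
      rw [hβα, hβ]
      have e2 : (1 / 2 + ε') * ((r : ℝ) + ε' - σ) / (1 + ν) =
          (r - σ) / (2 * (1 + ν)) + (ε' / 2 + ε' * (r + ε' - σ)) / (1 + ν) := by
        field_simp
        ring
      rw [e2]
      have e3 : (ε' / 2 + ε' * (r + ε' - σ)) / (1 + ν) ≤ ε := by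
        rw [div_le_iff₀ (by linarith)]
        have h4 : (r : ℝ) + ε' - σ ≤ 1 + ν := by linarith
        have h5 : ε' * (r + ε' - σ) ≤ ε' * (1 + ν) := by gcongr
        nlinarith
      have e4 := le_max_right 0 ((r - σ) / (2 * (1 + ν)))
      linarith
    calc C * t ^ ((1 / 2 + ε') * (β - σ) / (β - α)) ≤ C * t ^ E := by
          gcongr
      _ ≤ (C + C') * t ^ E := by gcongr; linarith
  · have hσγ : σ ≤ γ := by
      have := le_max_left σ₁ β
      linarith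
    refine (h3 σ t hσβ hσγ ht).trans ?_
    calc C' * t ^ (0 * (γ - σ) / (γ - β)) = C' * 1 := by simp
      _ ≤ C' * t ^ E := by
          gcongr
          exact Real.one_le_rpow ht1 hE0
      _ ≤ (C + C') * t ^ E := by gcongr; linarith

end Pool.Agent.Helper8.Bz
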