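import Pool.Agent.Helper8.Bz.U6
import Pool.Agent.Helper8.Bz.V4

set_option autoImplicit false

/-!
# Rare large values give mean squares
-/

namespace Pool.Agent.Helper8.Bz

open Finset Filter Topology MeasureTheory Complex Set Asymptotics
open Pool.Agent.H131R5.BZ Pool.Agent.Y930.Bz Pool.Agent.Y616.BM

variable {r : ℕ} {a : ℝ} {w : Fin r → ℝ} {c : ℕ → ℂ}

/-- summation over dyadic intervals -/
lemma dyadic {g : ℝ → ENNReal} {B C κ : ℝ} (hκ : 1 ≤ κ) (hC : 0 ≤ C)
    (hB : ∫⁻ t in Icc (1 : ℝ) 4, g t ≤ ENNReal.ofReal B)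
    (h : ∀ T : ℝ, 2 ≤ T → ∫⁻ t in Icc T (2 * T), g t ≤ ENNReal.ofReal (C * T ^ κ)) :
    ∃ D : ℝ, 0 ≤ D ∧ ∀ T : ℝ, 1 ≤ T → ∫⁻ t in Icc 1 T, g t ≤ ENNReal.ofReal (D * T ^ κ) := by
  set D : ℝ := max B C with hD
  have hDC : C ≤ D := le_max_right _ _
  have hD0 : 0 ≤ D := hC.trans hDC
  have key : ∀ n : ℕ, ∀ T : ℝ, 1 ≤ T → T ≤ 4 * 2 ^ n →
      ∫⁻ t in Icc 1 T, g t ≤ ENNReal.ofReal (D * T ^ κ) := by
    intro n
    induction n with
    | zero =>
      intro T hT hT4
      calc _ ≤ ∫⁻ t in Icc (1 : ℝ) 4, g t :=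
            lintegral_mono_set (Icc_subset_Icc le_rfl (by simpa using hT4))
        _ ≤ ENNReal.ofReal B := hB
        _ ≤ _ := by
            apply ENNReal.ofReal_le_ofReal
            have : 1 ≤ T ^ κ := Real.one_le_rpow hT (by linarith)
            calc B ≤ D := le_max_left _ _
              _ = D * 1 := by ring
              _ ≤ D * T ^ κ := by gcongr
    | succ n ih =>
      intro T hT hTn
      by_cases h4 : T ≤ 4
      · exact ih T hT (h4.trans (by
          have : (1 : ℝ) ≤ 2 ^ n := one_le_pow₀ (by norm_num)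
          linarith))
      · push Not at h4
        have hsub : Icc 1 T ⊆ Icc 1 (T / 2) ∪ Icc (T / 2) (2 * (T / 2)) := by
          intro t ht
          rcases le_total t (T / 2) with h1 | h1
          · exact Or.inl ⟨ht.1, h1⟩
          · exact Or.inr ⟨h1, by linarith [ht.2]⟩
        have hT2 : 0 ≤ (T / 2) ^ κ := Real.rpow_nonneg (by linarith) _
        calc _ ≤ ∫⁻ t in Icc 1 (T / 2) ∪ Icc (T / 2) (2 * (T / 2)), g t := lintegral_mono_set hsub
          _ ≤ (∫⁻ t in Icc 1 (T / 2), g t) + ∫⁻ t in Icc (T / 2) (2 * (T / 2)), g t :=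
              lintegral_union_le _ _ _
          _ ≤ ENNReal.ofReal (D * (T / 2) ^ κ) + ENNReal.ofReal (C * (T / 2) ^ κ) := by
              gcongr
              · refine ih _ (by linarith) ?_
                rw [pow_succ] at hTn
                linarith
              · exact h _ (by linarith)
          _ = ENNReal.ofReal (D * (T / 2) ^ κ + C * (T / 2) ^ κ) :=
              (ENNReal.ofReal_add (by positivity) (by positivity)).symm
          _ ≤ _ := by
              apply ENNReal.ofReal_le_ofReal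
              have h2 : (T / 2) ^ κ ≤ T ^ κ / 2 := by
                rw [Real.div_rpow (by linarith) (by norm_num)]
                have h3 : (2 : ℝ) ≤ 2 ^ κ := by
                  calc (2 : ℝ) = 2 ^ (1 : ℝ) := (Real.rpow_one 2).symm
                    _ ≤ 2 ^ κ := Real.rpow_le_rpow_of_exponent_le (by norm_num) hκ
                have : 0 ≤ T ^ κ := Real.rpow_nonneg (by linarith) _
                gcongr
              calc D * (T / 2) ^ κ + C * (T / 2) ^ κ ≤ D * (T ^ κ / 2) + D * (T ^ κ / 2) := by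
                    gcongr
                _ = _ := by ring
  refine ⟨D, hD0, fun T hT => ?_⟩
  obtain ⟨n, hn⟩ := pow_unbounded_of_one_lt T (by norm_num : (1 : ℝ) < 2)
  exact key n T hT (by
    have : (0 : ℝ) < 2 ^ n := by positivity
    linarith)

/-- from rare large values to the mean square on dyadic intervals -/
lemma moment_of_rare {f : ℝ → ℝ} (h0 : ∀ t, 0 ≤ f t) {A C₀ : ℝ} (hA : 0 ≤ A)
    (hpoly : ∀ t : ℝ, 2 ≤ t → f t ≤ C₀ * t ^ A)
    (hrare : ∀ η ε : ℝ, 0 ≤ η → 0 < ε → ∃ C : ℝ, ∀ T : ℝ, 2 ≤ T →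
      volume {t : ℝ | T ≤ t ∧ t ≤ 2 * T ∧ t ^ η < f t} ≤
        ENNReal.ofReal (C * T ^ (1 - 2 * η + ε))) {ε : ℝ} (hε : 0 < ε) :
    ∃ C : ℝ, 0 ≤ C ∧ ∀ T : ℝ, 2 ≤ T →
      ∫⁻ t in Icc T (2 * T), ENNReal.ofReal (f t ^ 2) ≤ ENNReal.ofReal (C * T ^ (1 + ε)) := by
  set δ : ℝ := ε / 3 with hδ
  have hδ0 : 0 < δ := by rw [hδ]; linarith
  obtain ⟨K, hK⟩ := exists_nat_ge (A / δ + 1)
  have hK1 : 1 ≤ K := by
    have h1 : (1 : ℝ) ≤ K := le_trans (by have : 0 ≤ A / δ := by positivity
                                          linarith) hK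
    exact_mod_cast h1
  have hKA : A ≤ K * δ := by
    have : A / δ ≤ K := by linarith
    rwa [div_le_iff₀ hδ0] at this
  choose Cf hCf using fun k : ℕ => hrare (k * δ) δ (by positivity) hδ0
  set C' : ℝ := max 1 C₀ with hC'
  have hC'1 : 1 ≤ C' := le_max_left _ _
  have hC'0 : C₀ ≤ C' := le_max_right _ _
  refine ⟨2 ^ (2 * δ) + ∑ k ∈ Finset.Icc 1 K, C' ^ 2 * 2 ^ (2 * ((k : ℝ) + 1) * δ) * |Cf k|,
    by positivity, fun T hT => ?_⟩
  have hT0 : 0 < T := by linarith
  have hT1 : 1 ≤ T := by linarith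
  set M : ℕ → Set ℝ := fun k =>
    toMeasurable volume {t : ℝ | T ≤ t ∧ t ≤ 2 * T ∧ t ^ ((k : ℝ) * δ) < f t} with hM
  set q : ℕ → ℝ := fun k => C' ^ 2 * (2 * T) ^ (2 * ((k : ℝ) + 1) * δ) with hq
  have hq0 : ∀ k, 0 ≤ q k := fun k => by rw [hq]; positivity
  have hpt : ∀ t ∈ Icc T (2 * T), ENNReal.ofReal (f t ^ 2) ≤
      ENNReal.ofReal ((2 * T) ^ (2 * δ)) +
        ∑ k ∈ Finset.Icc 1 K, (M k).indicator (fun _ => ENNReal.ofReal (q k)) t := by
    intro t ht
    have ht0 : 0 < t := by linarith [ht.1]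
    have ht1 : 1 ≤ t := by linarith [ht.1]
    set S : Finset ℕ := (Finset.Icc 1 K).filter fun k => t ^ ((k : ℝ) * δ) < f t with hS
    by_cases hne : S.Nonempty
    · set k := S.max' hne with hk
      have hkS : k ∈ S := S.max'_mem hne
      rw [hS, Finset.mem_filter, Finset.mem_Icc] at hkS
      obtain ⟨⟨hk1, hkK⟩, hkf⟩ := hkS
      have hbd : f t ≤ C' * t ^ (((k : ℝ) + 1) * δ) := by
        rcases hkK.eq_or_lt with he | hlt
        · refine (hpoly t (by linarith [ht.1])).trans ?_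
          have h2 : t ^ A ≤ t ^ (((k : ℝ) + 1) * δ) := by
            apply Real.rpow_le_rpow_of_exponent_le ht1
            rw [he]
            linarith
          calc C₀ * t ^ A ≤ C' * t ^ A := by gcongr
            _ ≤ _ := by gcongr
        · have hnot : k + 1 ∉ S := by
            intro hmem
            have := S.le_max' _ hmem
            rw [← hk] at this
            omega
          rw [hS, Finset.mem_filter, Finset.mem_Icc] at hnot
          push Not at hnot
          have h3 := hnot ⟨by omega, hlt⟩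
          push_cast at h3
          refine h3.trans ?_
          have : 0 ≤ t ^ (((k : ℝ) + 1) * δ) := Real.rpow_nonneg ht0.le _
          nlinarith
      have hsq : f t ^ 2 ≤ q k := by
        calc f t ^ 2 ≤ (C' * t ^ (((k : ℝ) + 1) * δ)) ^ 2 := pow_le_pow_left₀ (h0 t) hbd 2
          _ = C' ^ 2 * t ^ (2 * ((k : ℝ) + 1) * δ) := by
              rw [mul_pow, ← Real.rpow_natCast (t ^ (((k : ℝ) + 1) * δ)) 2, ← Real.rpow_mul ht0.le]
              congr 2
              push_cast
              ring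
          _ ≤ C' ^ 2 * (2 * T) ^ (2 * ((k : ℝ) + 1) * δ) := by
              have : t ≤ 2 * T := ht.2
              gcongr
      have hmem : t ∈ M k := subset_toMeasurable _ _ ⟨ht.1, ht.2, hkf⟩
      calc ENNReal.ofReal (f t ^ 2) ≤ ENNReal.ofReal (q k) := ENNReal.ofReal_le_ofReal hsq
        _ = (M k).indicator (fun _ => ENNReal.ofReal (q k)) t := by
            rw [Set.indicator_of_mem hmem]
        _ ≤ ∑ k ∈ Finset.Icc 1 K, (M k).indicator (fun _ => ENNReal.ofReal (q k)) t :=
            Finset.single_le_sum (f := fun k => (M k).indicator (fun _ => ENNReal.ofReal (q k)) t)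
              (fun _ _ => bot_le) (Finset.mem_Icc.2 ⟨hk1, hkK⟩)
        _ ≤ _ := le_add_self
    · have hnot : (1 : ℕ) ∉ S := fun h1 => hne ⟨1, h1⟩
      rw [hS, Finset.mem_filter, Finset.mem_Icc] at hnot
      push Not at hnot
      have h3 := hnot ⟨le_rfl, hK1⟩
      push_cast at h3
      rw [one_mul] at h3
      refine le_trans ?_ le_self_add
      apply ENNReal.ofReal_le_ofReal
      calc f t ^ 2 ≤ (t ^ δ) ^ 2 := pow_le_pow_left₀ (h0 t) h3 2
        _ = t ^ (2 * δ) := by
            rw [← Real.rpow_natCast (t ^ δ) 2, ← Real.rpow_mul ht0.le]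
            congr 1
            push_cast
            ring
        _ ≤ _ := by
            have : t ≤ 2 * T := ht.2
            gcongr
  have hvol : ∀ k, (volume.restrict (Icc T (2 * T))) (M k) ≤
      ENNReal.ofReal (|Cf k| * T ^ (1 - 2 * (k * δ) + δ)) := by
    intro k
    calc _ ≤ volume (M k) := Measure.restrict_apply_le _ _
      _ = volume {t : ℝ | T ≤ t ∧ t ≤ 2 * T ∧ t ^ ((k : ℝ) * δ) < f t} := measure_toMeasurable _
      _ ≤ _ := hCf k T hT
      _ ≤ _ := by
          apply ENNReal.ofReal_le_ofReal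
          gcongr
          exact le_abs_self _
  calc ∫⁻ t in Icc T (2 * T), ENNReal.ofReal (f t ^ 2)
      ≤ ∫⁻ t in Icc T (2 * T), (ENNReal.ofReal ((2 * T) ^ (2 * δ)) +
        ∑ k ∈ Finset.Icc 1 K, (M k).indicator (fun _ => ENNReal.ofReal (q k)) t) :=
        setLIntegral_mono' measurableSet_Icc hpt
    _ = (∫⁻ _ in Icc T (2 * T), ENNReal.ofReal ((2 * T) ^ (2 * δ))) +
        ∑ k ∈ Finset.Icc 1 K, ∫⁻ t in Icc T (2 * T),
          (M k).indicator (fun _ => ENNReal.ofReal (q k)) t := by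
        rw [lintegral_add_left measurable_const, lintegral_finsetSum]
        intro k _
        exact measurable_const.indicator (measurableSet_toMeasurable _ _)
    _ ≤ ENNReal.ofReal ((2 * T) ^ (2 * δ)) * ENNReal.ofReal T +
        ∑ k ∈ Finset.Icc 1 K, ENNReal.ofReal (q k) *
          ENNReal.ofReal (|Cf k| * T ^ (1 - 2 * (k * δ) + δ)) := by
        gcongr with k hk
        · rw [setLIntegral_const, Real.volume_Icc]
          have e : 2 * T - T = T := by ring
          rw [e]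
        · refine (lintegral_indicator_const_le _ _).trans ?_
          gcongr
          exact hvol k
    _ = ENNReal.ofReal ((2 * T) ^ (2 * δ) * T +
        ∑ k ∈ Finset.Icc 1 K, q k * (|Cf k| * T ^ (1 - 2 * (k * δ) + δ))) := by
        rw [ENNReal.ofReal_add (by positivity) (Finset.sum_nonneg fun k _ =>
          mul_nonneg (hq0 k) (by positivity)), ENNReal.ofReal_mul (by positivity),
          ENNReal.ofReal_sum_of_nonneg (fun k _ => mul_nonneg (hq0 k) (by positivity))]
        congr 1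
        refine Finset.sum_congr rfl fun k _ => ?_
        rw [ENNReal.ofReal_mul (hq0 k)]
    _ ≤ _ := by
        apply ENNReal.ofReal_le_ofReal
        rw [add_mul, Finset.sum_mul]
        have he : (1 : ℝ) + ε = 1 + 3 * δ := by rw [hδ]; ring
        refine add_le_add ?_ (Finset.sum_le_sum fun k _ => ?_)
        · rw [Real.mul_rpow (by norm_num) hT0.le, mul_assoc]
          have : T ^ (2 * δ) * T ≤ T ^ (1 + ε) := by
            calc T ^ (2 * δ) * T = T ^ (2 * δ + 1) := by
                  rw [Real.rpow_add hT0, Real.rpow_one]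
              _ ≤ _ := Real.rpow_le_rpow_of_exponent_le hT1 (by linarith)
          gcongr
        · rw [hq]
          simp only
          rw [Real.mul_rpow (by norm_num) hT0.le]
          have : T ^ (2 * ((k : ℝ) + 1) * δ) * T ^ (1 - 2 * (k * δ) + δ) = T ^ (1 + ε) := by
            rw [← Real.rpow_add hT0]
            congr 1
            rw [he]
            ring
          calc C' ^ 2 * (2 ^ (2 * ((k : ℝ) + 1) * δ) * T ^ (2 * ((k : ℝ) + 1) * δ)) *
                (|Cf k| * T ^ (1 - 2 * (k * δ) + δ))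
              = C' ^ 2 * 2 ^ (2 * ((k : ℝ) + 1) * δ) * |Cf k| *
                (T ^ (2 * ((k : ℝ) + 1) * δ) * T ^ (1 - 2 * (k * δ) + δ)) := by ring
            _ = _ := by rw [this]
            _ ≤ _ := le_rfl

/-- if the large values on the line `Re s = m` are rare, then the weights are not too well
approximable -/
theorem appr_of_rare (hr : 2 ≤ r) (ha : 0 < a) (hw : ∀ j, 0 < w j) {Z : ℂ → ℂ}
    (hZ : ∀ s ∈ Om r, DifferentiableAt ℂ Z s)
    (hs : ∀ s : ℂ, (r : ℝ) < s.re → Z s = ∑' m : Fin r → ℕ, ((lam a w m : ℝ) : ℂ) ^ (-s))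
    {m : ℝ} (hm : 1 / 2 < m) (hmr : (r : ℝ) - 2 ≤ m)
    (hrare : ∀ η ε : ℝ, 0 ≤ η → 0 < ε → ∃ C : ℝ, ∀ T : ℝ, 2 ≤ T →
      volume {t : ℝ | T ≤ t ∧ t ≤ 2 * T ∧ t ^ η < ‖Z ((m : ℂ) + t * I)‖} ≤
        ENNReal.ofReal (C * T ^ (1 - 2 * η + ε))) {τ : ℝ} (hτ : 0 < τ) (hA : Appr w τ) :
    2 * (r - m) * τ / (1 + τ) ≤ 1 := by
  obtain ⟨c, hc⟩ := exists_taylor a hw
  have hcont : ContinuousOn (fun t : ℝ => Z ((m : ℂ) + (t : ℂ) * I)) (Ici 1) := by
    intro t ht
    have h1 : DifferentiableAt ℂ Z ((m : ℂ) + (t : ℂ) * I) :=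
      hZ _ (mem_Om_of_im (by simpa using ht))
    exact (ContinuousAt.comp (g := Z) (f := fun t : ℝ => (m : ℂ) + (t : ℂ) * I) h1.continuousAt
        (by fun_prop)).continuousWithinAt
  -- polynomial growth
  obtain ⟨C₀, hC₀, hpoly⟩ := strip_upper hr ha hw hc (by linarith) hmr (μ := 2) (by norm_num)
    (fun τ' hτ' _ => by
      have h1 : (r - m) * τ' / (1 + τ') ≤ 2 := by
        rw [div_le_iff₀ (by linarith)]
        nlinarith
      linarith) m (ε := 1) (by norm_num)
  have hpoly' : ∀ t : ℝ, 2 ≤ t → ‖Z ((m : ℂ) + t * I)‖ ≤ C₀ * t ^ ((2 : ℝ) + 1) := by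
    intro t ht
    rw [eq_FF ha hw hc hZ hs _ (mem_Om_of_im (by simp; linarith))]
    exact hpoly m t le_rfl le_rfl ht
  refine ms_lower ha hw hZ hs hm (κ := 1) (by norm_num) (fun ε hε => ?_) hτ hA
  obtain ⟨C₁, hC₁, h1⟩ := moment_of_rare (f := fun t : ℝ => ‖Z ((m : ℂ) + t * I)‖)
    (fun t => norm_nonneg _) (A := 2 + 1) (by norm_num) hpoly' hrare hε
  obtain ⟨B, hB⟩ : ∃ B : ℝ, ∀ t ∈ Icc (1 : ℝ) 4, ‖Z ((m : ℂ) + t * I)‖ ≤ B :=
    isCompact_Icc.exists_bound_of_continuousOn (hcont.mono Icc_subset_Ici_self)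
  obtain ⟨D, hD, h2⟩ := dyadic (g := fun t : ℝ => ENNReal.ofReal (‖Z ((m : ℂ) + t * I)‖ ^ 2))
    (B := B ^ 2 * 3) (C := C₁) (κ := 1 + ε) (by linarith) hC₁ (by
      calc _ ≤ ∫⁻ _ in Icc (1 : ℝ) 4, ENNReal.ofReal (B ^ 2) := by
            refine setLIntegral_mono' measurableSet_Icc fun t ht => ?_
            apply ENNReal.ofReal_le_ofReal
            exact pow_le_pow_left₀ (norm_nonneg _) (hB t ht) 2
        _ = _ := by
            rw [setLIntegral_const, Real.volume_Icc, ← ENNReal.ofReal_mul (by positivity)]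
            norm_num) h1
  refine bigO_of_lint hcont hD fun T hT => ?_
  refine le_trans (le_of_eq ?_) (h2 T hT)
  refine lintegral_congr fun t => ?_
  rw [ENNReal.ofReal_pow (norm_nonneg _), ofReal_norm]

end Pool.Agent.Helper8.Bz
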