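import Pool.Agent.Helper8.Bz.W1

set_option autoImplicit false

/-!
# Large values occur on large sets of ordinates
-/

namespace Pool.Agent.Helper8.Bz

open Finset Filter Topology MeasureTheory Complex Set Asymptotics
open Pool.Agent.H131R5.BZ Pool.Agent.Y930.Bz Pool.Agent.Y616.BM

variable {r : ℕ} {a : ℝ} {w : Fin r → ℝ} {c : ℕ → ℂ}

lemma bigO_of_lint1 {f : ℝ → ℂ} (hf : ContinuousOn f (Ici 1)) {C κ : ℝ} (hC : 0 ≤ C)
    (h : ∀ T : ℝ, 1 ≤ T → ∫⁻ t in Icc 1 T, ENNReal.ofReal ‖f t‖ ≤ ENNReal.ofReal (C * T ^ κ)) :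
    (fun T : ℝ => ∫ t in (1 : ℝ)..T, ‖f t‖ ^ 1) =O[atTop] fun T : ℝ => T ^ κ := by
  refine IsBigO.of_bound C ?_
  filter_upwards [eventually_ge_atTop (1 : ℝ)] with T hT
  have hT0 : 0 < T := by linarith
  have h0 : 0 ≤ ∫ t in (1 : ℝ)..T, ‖f t‖ ^ 1 :=
    intervalIntegral.integral_nonneg hT fun t _ => by positivity
  rw [Real.norm_eq_abs, Real.norm_eq_abs, abs_of_nonneg h0,
    abs_of_nonneg (Real.rpow_nonneg hT0.le _), intervalIntegral.integral_of_le hT]
  have hc : ContinuousOn (fun t => ‖f t‖ ^ 1) (Icc 1 T) :=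
    ((hf.mono Icc_subset_Ici_self).norm).pow 1
  rw [← integral_Icc_eq_integral_Ioc, integral_eq_lintegral_of_nonneg_ae
    (ae_of_all _ fun t => by positivity) (hc.aestronglyMeasurable measurableSet_Icc)]
  apply ENNReal.toReal_le_of_le_ofReal (by positivity)
  refine le_trans (le_of_eq ?_) (h T hT)
  refine lintegral_congr fun t => ?_
  rw [pow_one]

/-- the first moment on a dyadic interval if the large values are on a small set -/
lemma first_le {f : ℝ → ℝ} (h0 : ∀ t, 0 ≤ f t) {η B V T lam : ℝ} (hη : 0 ≤ η) (hT : 2 ≤ T)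
    (hlam : 0 < lam) (hB : 0 ≤ B) (hV : 0 ≤ V)
    (hms : ∫⁻ t in Icc T (2 * T), ENNReal.ofReal (f t ^ 2) ≤ ENNReal.ofReal B)
    (hvol : volume {t : ℝ | T ≤ t ∧ t ≤ 2 * T ∧ t ^ η < f t} ≤ ENNReal.ofReal V) :
    ∫⁻ t in Icc T (2 * T), ENNReal.ofReal (f t) ≤
      ENNReal.ofReal ((2 * T) ^ η * T + lam * V + lam⁻¹ * B) := by
  have hT0 : 0 < T := by linarith
  set M : Set ℝ := toMeasurable volume {t : ℝ | T ≤ t ∧ t ≤ 2 * T ∧ t ^ η < f t} with hM
  have hpt : ∀ t ∈ Icc T (2 * T), ENNReal.ofReal (f t) ≤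
      (ENNReal.ofReal ((2 * T) ^ η) + M.indicator (fun _ => ENNReal.ofReal lam) t) +
        ENNReal.ofReal lam⁻¹ * ENNReal.ofReal (f t ^ 2) := by
    intro t ht
    have ht0 : 0 < t := by linarith [ht.1]
    by_cases hb : t ^ η < f t
    · have hmem : t ∈ M := subset_toMeasurable _ _ ⟨ht.1, ht.2, hb⟩
      rw [Set.indicator_of_mem hmem, ← ENNReal.ofReal_mul (by positivity), add_assoc,
        ← ENNReal.ofReal_add hlam.le (by positivity)]
      refine le_trans ?_ le_add_self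
      apply ENNReal.ofReal_le_ofReal
      have h1 : 0 ≤ (lam - f t) ^ 2 := sq_nonneg _
      have h2 : 0 ≤ lam * f t := mul_nonneg hlam.le (h0 t)
      have h3 : lam * f t ≤ lam * (lam + lam⁻¹ * f t ^ 2) := by
        have e : lam * (lam + lam⁻¹ * f t ^ 2) = lam ^ 2 + f t ^ 2 := by
          field_simp
        rw [e]
        nlinarith
      exact le_of_mul_le_mul_left h3 hlam
    · push Not at hb
      refine le_trans ?_ (le_trans le_self_add le_self_add)
      apply ENNReal.ofReal_le_ofReal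
      refine hb.trans ?_
      have : t ≤ 2 * T := ht.2
      gcongr
  calc ∫⁻ t in Icc T (2 * T), ENNReal.ofReal (f t)
      ≤ ∫⁻ t in Icc T (2 * T), ((ENNReal.ofReal ((2 * T) ^ η) +
        M.indicator (fun _ => ENNReal.ofReal lam) t) +
          ENNReal.ofReal lam⁻¹ * ENNReal.ofReal (f t ^ 2)) :=
        setLIntegral_mono' measurableSet_Icc hpt
    _ = (∫⁻ t in Icc T (2 * T), (ENNReal.ofReal ((2 * T) ^ η) +
        M.indicator (fun _ => ENNReal.ofReal lam) t)) +
          ∫⁻ t in Icc T (2 * T), ENNReal.ofReal lam⁻¹ * ENNReal.ofReal (f t ^ 2) :=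
        lintegral_add_left (measurable_const.add (measurable_const.indicator
          (measurableSet_toMeasurable _ _))) _
    _ = (∫⁻ _ in Icc T (2 * T), ENNReal.ofReal ((2 * T) ^ η)) +
        (∫⁻ t in Icc T (2 * T), M.indicator (fun _ => ENNReal.ofReal lam) t) +
          ENNReal.ofReal lam⁻¹ * ∫⁻ t in Icc T (2 * T), ENNReal.ofReal (f t ^ 2) := by
        rw [lintegral_add_left measurable_const, lintegral_const_mul' _ _ ENNReal.ofReal_ne_top]
    _ ≤ ENNReal.ofReal ((2 * T) ^ η) * ENNReal.ofReal T + ENNReal.ofReal lam * ENNReal.ofReal V +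
        ENNReal.ofReal lam⁻¹ * ENNReal.ofReal B := by
        gcongr
        · rw [setLIntegral_const, Real.volume_Icc]
          have e : 2 * T - T = T := by ring
          rw [e]
        · refine (lintegral_indicator_const_le _ _).trans ?_
          gcongr
          calc _ ≤ volume M := Measure.restrict_apply_le _ _
            _ = volume {t : ℝ | T ≤ t ∧ t ≤ 2 * T ∧ t ^ η < f t} := measure_toMeasurable _
            _ ≤ _ := hvol
    _ = _ := by
        rw [ENNReal.ofReal_add (by positivity) (by positivity),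
          ENNReal.ofReal_add (by positivity) (by positivity), ENNReal.ofReal_mul (by positivity),
          ENNReal.ofReal_mul hlam.le, ENNReal.ofReal_mul (by positivity)]

/-- large values occur on sets of measure `T ^ (1 - δ)` -/
theorem frequent (hr : 2 ≤ r) (ha : 0 < a) (hw : ∀ j, 0 < w j) {Z : ℂ → ℂ}
    (hZ : ∀ s ∈ Om r, DifferentiableAt ℂ Z s)
    (hs : ∀ s : ℂ, (r : ℝ) < s.re → Z s = ∑' m : Fin r → ℕ, ((lam a w m : ℝ) : ℂ) ^ (-s))
    {σ : ℝ} (hσ : 1 / 2 < σ) (hσr : (r : ℝ) - 3 / 2 ≤ σ) {τ : ℝ} (hτ : 0 < τ) (hA : Appr w τ)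
    {η δ : ℝ} (hη0 : 0 ≤ η) (hη : η < (r - σ) * τ / (1 + τ) - 1 / 2) (hδ : 0 < δ) (T₀ : ℝ) :
    ∃ T : ℝ, T₀ ≤ T ∧ ENNReal.ofReal (T ^ (1 - δ)) <
      volume {t : ℝ | T ≤ t ∧ t ≤ 2 * T ∧ t ^ η < ‖Z ((σ : ℂ) + t * I)‖} := by
  by_contra hcon
  push Not at hcon
  obtain ⟨c, hc⟩ := exists_taylor a hw
  have hrσ : 0 < (r : ℝ) - σ := by
    by_contra hneg
    push Not at hneg
    have : (r - σ) * τ / (1 + τ) ≤ 0 := by
      apply div_nonpos_of_nonpos_of_nonneg
      · nlinarith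
      · linarith
    linarith
  set P : ℝ := 2 * (r - σ) with hP
  have hP0 : 0 < P := by rw [hP]; linarith
  -- the supremum of the exponents
  set S : Set ℝ := {x | ∃ τ' : ℝ, 0 < τ' ∧ Appr w τ' ∧ x = P * τ' / (1 + τ')} with hS
  have hSne : S.Nonempty := ⟨_, τ, hτ, hA, rfl⟩
  have hSbd : BddAbove S := by
    refine ⟨P, ?_⟩
    rintro x ⟨τ', hτ', -, rfl⟩
    rw [div_le_iff₀ (by linarith)]
    nlinarith
  set κ : ℝ := sSup S with hκ
  have hPτ : P * τ / (1 + τ) = 2 * ((r - σ) * τ / (1 + τ)) := by rw [hP]; ring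
  have hκτ : P * τ / (1 + τ) ≤ κ := le_csSup hSbd ⟨τ, hτ, hA, rfl⟩
  have hκ1 : 1 + 2 * η < κ := by linarith
  obtain ⟨x, ⟨τ₁, hτ₁, hA₁, hx⟩, hxκ⟩ := exists_lt_of_lt_csSup hSne
    (max_lt (by linarith : κ - δ / 4 < sSup S) hκ1)
  have hx1 : κ - δ / 4 < x := (le_max_left _ _).trans_lt hxκ
  have hx2 : 1 + 2 * η < x := (le_max_right _ _).trans_lt hxκ
  -- the mean square
  obtain ⟨ν, hν, hDC, hνκ⟩ := exists_DC (w := w) (P := P) (κ := κ) (κ₁ := κ + δ / 8)
    (by linarith) (by linarith) (fun τ' hτ' hA' => le_csSup hSbd ⟨τ', hτ', hA', rfl⟩)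
  obtain ⟨C₂, hC₂, hms⟩ := second_moment3 hr ha hw hν hDC hc hσ.le le_rfl hσr (ε := δ / 8)
    (by positivity)
  rw [← hP] at hms
  set q : ℝ := κ + δ / 4 with hq
  have hms' : ∀ T : ℝ, 2 ≤ T → ∫⁻ t in Icc T (2 * T), ENNReal.ofReal
      (‖Z ((σ : ℂ) + t * I)‖ ^ 2) ≤ ENNReal.ofReal (C₂ * (2 * T) ^ q) := by
    intro T hT
    calc _ ≤ ∫⁻ t in Icc 1 (2 * T), ENNReal.ofReal (‖Z ((σ : ℂ) + t * I)‖ ^ 2) :=
          lintegral_mono_set (Icc_subset_Icc (by linarith) le_rfl)
      _ = ∫⁻ t in Icc 1 (2 * T), ‖FF a w c ((σ : ℂ) + t * I)‖ₑ ^ 2 := by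
          refine setLIntegral_congr_fun measurableSet_Icc fun t ht => ?_
          rw [eq_FF ha hw hc hZ hs _ (mem_Om_of_im (by simpa using ht.1)),
            ENNReal.ofReal_pow (norm_nonneg _), ofReal_norm]
      _ ≤ _ := hms (2 * T) (by linarith)
      _ ≤ _ := by
          apply ENNReal.ofReal_le_ofReal
          refine mul_le_mul_of_nonneg_left ?_ hC₂
          apply Real.rpow_le_rpow_of_exponent_le (by linarith)
          have : max 1 (P / (1 + ν)) ≤ κ + δ / 8 := max_le (by linarith) hνκ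
          rw [hq]
          linarith
  -- the first moment
  set ρ : ℝ := max (1 + η) ((1 - δ + q) / 2) with hρ
  have hρ1 : 1 ≤ ρ := le_trans (by linarith) (le_max_left _ _)
  have hρx : ρ < 1 / 2 + x / 2 := by
    rw [hρ]
    apply max_lt
    · linarith
    · rw [hq]
      linarith
  set A : ℝ := max 2 T₀ with hA2
  have hA22 : 2 ≤ A := le_max_left _ _
  have hdy : ∀ T : ℝ, A ≤ T → ∫⁻ t in Icc T (2 * T), ENNReal.ofReal ‖Z ((σ : ℂ) + t * I)‖ ≤
      ENNReal.ofReal ((2 ^ η + 1 + C₂ * 2 ^ q) * T ^ ρ) := by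
    intro T hT
    have hT2 : 2 ≤ T := hA22.trans hT
    have hT0 : 0 < T := by linarith
    have hT1 : 1 ≤ T := by linarith
    have hq0 : 0 < q := by rw [hq]; linarith
    refine (first_le (f := fun t : ℝ => ‖Z ((σ : ℂ) + t * I)‖) (fun t => norm_nonneg _) hη0 hT2
      (lam := T ^ ((q - 1 + δ) / 2)) (Real.rpow_pos_of_pos hT0 _)
      (mul_nonneg hC₂ (Real.rpow_nonneg (by linarith) _)) (Real.rpow_nonneg hT0.le _)
      (hms' T hT2) (hcon T ((le_max_right _ _).trans hT))).trans ?_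
    apply ENNReal.ofReal_le_ofReal
    rw [add_mul, add_mul]
    refine add_le_add (add_le_add ?_ ?_) ?_
    · rw [Real.mul_rpow (by norm_num) hT0.le, mul_assoc]
      refine mul_le_mul_of_nonneg_left ?_ (by positivity)
      calc T ^ η * T = T ^ (η + 1) := by rw [Real.rpow_add hT0, Real.rpow_one]
        _ ≤ _ := Real.rpow_le_rpow_of_exponent_le hT1 (by
            have := le_max_left (1 + η) ((1 - δ + q) / 2)
            rw [hρ]
            linarith)
    · rw [one_mul, ← Real.rpow_add hT0]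
      apply Real.rpow_le_rpow_of_exponent_le hT1
      have := le_max_right (1 + η) ((1 - δ + q) / 2)
      rw [hρ]
      linarith
    · rw [← Real.rpow_neg hT0.le, Real.mul_rpow (by norm_num) hT0.le]
      have e : T ^ (-((q - 1 + δ) / 2)) * (C₂ * (2 ^ q * T ^ q)) =
          C₂ * 2 ^ q * T ^ (-((q - 1 + δ) / 2) + q) := by
        rw [Real.rpow_add hT0 (-((q - 1 + δ) / 2)) q]
        ring
      rw [e]
      refine mul_le_mul_of_nonneg_left ?_ (by positivity)
      apply Real.rpow_le_rpow_of_exponent_le hT1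
      have := le_max_right (1 + η) ((1 - δ + q) / 2)
      rw [hρ]
      linarith
  have hcont : ContinuousOn (fun t : ℝ => Z ((σ : ℂ) + (t : ℂ) * I)) (Ici 1) := by
    intro t ht
    have h1 : DifferentiableAt ℂ Z ((σ : ℂ) + (t : ℂ) * I) :=
      hZ _ (mem_Om_of_im (by simpa using ht))
    exact (ContinuousAt.comp (g := Z) (f := fun t : ℝ => (σ : ℂ) + (t : ℂ) * I) h1.continuousAt
        (by fun_prop)).continuousWithinAt
  obtain ⟨B, hB⟩ : ∃ B : ℝ, ∀ t ∈ Icc (1 : ℝ) (2 * A + 4), ‖Z ((σ : ℂ) + t * I)‖ ≤ B :=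
    isCompact_Icc.exists_bound_of_continuousOn (hcont.mono Icc_subset_Ici_self)
  have hB0 : 0 ≤ B := (norm_nonneg _).trans (hB 1 ⟨le_rfl, by linarith⟩)
  have hdy2 : ∀ T : ℝ, 2 ≤ T → ∫⁻ t in Icc T (2 * T), ENNReal.ofReal ‖Z ((σ : ℂ) + t * I)‖ ≤
      ENNReal.ofReal (((2 ^ η + 1 + C₂ * 2 ^ q) + B) * T ^ ρ) := by
    intro T hT
    have hT0 : 0 < T := by linarith
    rcases le_total A T with h1 | h1
    · refine (hdy T h1).trans ?_
      apply ENNReal.ofReal_le_ofReal
      have : 0 ≤ T ^ ρ := Real.rpow_nonneg hT0.le _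
      nlinarith
    · calc _ ≤ ∫⁻ _ in Icc T (2 * T), ENNReal.ofReal B := by
            refine setLIntegral_mono' measurableSet_Icc fun t ht => ?_
            apply ENNReal.ofReal_le_ofReal
            exact hB t ⟨by linarith [ht.1], by linarith [ht.2]⟩
        _ = ENNReal.ofReal (B * T) := by
            rw [setLIntegral_const, Real.volume_Icc, ← ENNReal.ofReal_mul hB0]
            congr 2
            ring
        _ ≤ _ := by
            apply ENNReal.ofReal_le_ofReal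
            have h2 : T ≤ T ^ ρ := by
              calc T = T ^ (1 : ℝ) := (Real.rpow_one T).symm
                _ ≤ T ^ ρ := Real.rpow_le_rpow_of_exponent_le (by linarith) hρ1
            have h3 : 0 ≤ (2 : ℝ) ^ η + 1 + C₂ * 2 ^ q := by positivity
            have h4 : 0 ≤ T ^ ρ := Real.rpow_nonneg hT0.le _
            calc B * T ≤ B * T ^ ρ := by gcongr
              _ ≤ _ := by nlinarith
  obtain ⟨D, hD, h2⟩ := dyadic (g := fun t : ℝ => ENNReal.ofReal ‖Z ((σ : ℂ) + t * I)‖)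
    (B := B * 3) (C := (2 ^ η + 1 + C₂ * 2 ^ q) + B) (κ := ρ) hρ1 (by positivity) (by
      calc _ ≤ ∫⁻ _ in Icc (1 : ℝ) 4, ENNReal.ofReal B := by
            refine setLIntegral_mono' measurableSet_Icc fun t ht => ?_
            apply ENNReal.ofReal_le_ofReal
            exact hB t ⟨ht.1, by linarith [ht.2]⟩
        _ = _ := by
            rw [setLIntegral_const, Real.volume_Icc, ← ENNReal.ofReal_mul hB0]
            norm_num) hdy2
  refine not_moment2 ha hw hτ₁ hA₁ hZ hs (n := 1) le_rfl hσ (by linarith) (κ := ρ)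
    (by linarith) ?_ (bigO_of_lint1 hcont hD h2)
  have e : 1 + ((1 : ℕ) : ℝ) * (τ₁ * (r - σ) / (1 + τ₁) - 1 / 2) =
      1 / 2 + P * τ₁ / (1 + τ₁) / 2 := by
    rw [hP]
    push_cast
    ring
  rw [e, ← hx]
  exact hρx

end Pool.Agent.Helper8.Bz
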